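import Mathlib
import Pool.Agent.K7.H51.PS.Wey

set_option autoImplicit false

/-! The size of the parameters, for a general level. -/

namespace Pool.Agent.K7.H51.PT

open Finset
open Pool.Agent.K7.H51.PS

lemma VV_le {a b : ℤ} (ha : 1 ≤ a) {G x Lg K1 K2 : ℝ} {M1 k : ℕ} (hx : 1 ≤ x) (hLg : 1 ≤ Lg) (hK1 : 1 ≤ K1) (hK2 : 1 ≤ K2)
    (hM : (M1 : ℝ) ≤ 2 * K1 * x ^ k) (hD : ((2 * a * M1 + b.natAbs : ℤ) : ℝ) ≤ K2 * x ^ k) (hG : x ^ (2 * k) ≤ 2 * Lg * G) (hG0 : 0 < G) :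
    VV a b G M1 ≤ (K2 + 4 * a * K1 + 16 * K1 * K2 ^ 2) * (x ^ k * Lg) := by
  have har : (1 : ℝ) ≤ a := by exact_mod_cast ha
  have hD0 : (0 : ℝ) ≤ ((2 * a * M1 + b.natAbs : ℤ) : ℝ) := by
    have : (0 : ℤ) ≤ 2 * a * M1 + b.natAbs := by positivity
    exact_mod_cast this
  obtain ⟨D, hDd⟩ : ∃ D : ℝ, D = ((2 * a * M1 + b.natAbs : ℤ) : ℝ) := ⟨_, rfl⟩
  unfold VV
  rw [← hDd] at hD hD0 ⊢
  have h1 : D ^ 2 / G ≤ 2 * K2 ^ 2 * Lg := by
    rw [div_le_iff₀ hG0]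
    calc D ^ 2 ≤ (K2 * x ^ k) ^ 2 := pow_le_pow_left₀ hD0 hD 2
      _ = K2 ^ 2 * x ^ (2 * k) := by ring
      _ ≤ K2 ^ 2 * (2 * Lg * G) := by gcongr
      _ = _ := by ring
  have h2 : 4 * D ^ 2 / G ≤ 8 * K2 ^ 2 * Lg := by
    have : 4 * D ^ 2 / G = 4 * (D ^ 2 / G) := by ring
    rw [this]
    linarith
  have hxk : 1 ≤ x ^ k := one_le_pow₀ hx
  have h3 : K2 * x ^ k ≤ K2 * (x ^ k * Lg) := by
    apply mul_le_mul_of_nonneg_left _ (by linarith)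
    exact le_mul_of_one_le_right (by positivity) hLg
  have h4 : (M1 : ℝ) * (2 * a + 4 * D ^ 2 / G) ≤ (2 * K1 * x ^ k) * (2 * a * Lg + 8 * K2 ^ 2 * Lg) := by
    have h5 : (2 * a : ℝ) ≤ 2 * a * Lg := le_mul_of_one_le_right (by positivity) hLg
    apply mul_le_mul hM (by linarith) (by positivity) (by positivity)
  calc D + (M1 : ℝ) * (2 * a + 4 * D ^ 2 / G) ≤ K2 * (x ^ k * Lg) + (2 * K1 * x ^ k) * (2 * a * Lg + 8 * K2 ^ 2 * Lg) := by linarith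
    _ = _ := by ring

/-- here `Q ≍ x ^ (2 r)`, and `e + r = k` -/
lemma SM_le {a : ℤ} (ha : 1 ≤ a) {x L K1 : ℝ} {Q P M1 k r e p : ℕ} (hx : 1 ≤ x) (hL : 1 ≤ L) (hLx : L ≤ x ^ 2) (hK1 : 1 ≤ K1)
    (he : e + r = k) (hk2 : k + 2 ≤ 2 * e) (hp : p + 2 ≤ 2 * e)
    (hM : (M1 : ℝ) ≤ 2 * K1 * x ^ k) (hQ : x ^ (2 * r) ≤ 2 * Q) (hQ0 : 1 ≤ Q) (hP : (P : ℝ) ≤ 2 * x ^ p) (hlogP : 1 + Real.log P ≤ 2 * L) :
    SM a Q P M1 ≤ (2100 * a * K1 ^ 2) * x ^ (2 * e) := by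
  have har : (1 : ℝ) ≤ a := by exact_mod_cast ha
  have hQr : (0 : ℝ) < Q := by exact_mod_cast hQ0
  have hx0 : 0 < x := by linarith
  have hxk : 1 ≤ x ^ k := one_le_pow₀ hx
  have hM1 : ((M1 + 1 : ℕ) : ℝ) ≤ 3 * K1 * x ^ k := by
    push_cast
    have : 1 ≤ K1 * x ^ k := one_le_mul_of_one_le_of_one_le hK1 hxk
    linarith
  have hM0 : (0 : ℝ) ≤ M1 := Nat.cast_nonneg _
  have hq : 2 * (a : ℝ) / Q ≤ 4 * a / x ^ (2 * r) := by
    rw [div_le_div_iff₀ hQr (by positivity)]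
    have := mul_le_mul_of_nonneg_left hQ (by positivity : (0 : ℝ) ≤ 2 * a)
    linarith
  have hlogP0 : 0 ≤ Real.log P := Real.log_natCast_nonneg P
  have hkk : x ^ k * x ^ k = x ^ (2 * e) * x ^ (2 * r) := by
    rw [← pow_add, ← pow_add]
    congr 1
    omega
  unfold SM
  have t1 : (((M1 + 1 : ℕ) : ℝ) * (2 * a / Q)) * (39 * M1) ≤ 936 * a * K1 ^ 2 * x ^ (2 * e) := by
    calc (((M1 + 1 : ℕ) : ℝ) * (2 * a / Q)) * (39 * M1) ≤ ((3 * K1 * x ^ k) * (4 * a / x ^ (2 * r))) * (39 * (2 * K1 * x ^ k)) := by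
          gcongr
      _ = 936 * a * K1 ^ 2 * ((x ^ k * x ^ k) / x ^ (2 * r)) := by
          field_simp
          ring
      _ = 936 * a * K1 ^ 2 * x ^ (2 * e) := by
          rw [hkk, mul_div_assoc, div_self (by positivity), mul_one]
  have t2 : 3 * ((M1 + 1 : ℕ) : ℝ) * (1 + Real.log P) ≤ 18 * K1 * x ^ (k + 2) := by
    calc 3 * ((M1 + 1 : ℕ) : ℝ) * (1 + Real.log P) ≤ 3 * (3 * K1 * x ^ k) * (2 * x ^ 2) := by
          gcongr
          linarith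
      _ = _ := by ring
  have t3 : 3 * (P : ℝ) * (1 + Real.log P) ≤ 12 * x ^ (p + 2) := by
    calc 3 * (P : ℝ) * (1 + Real.log P) ≤ 3 * (2 * x ^ p) * (2 * x ^ 2) := by
          gcongr
          linarith
      _ = _ := by ring
  have e34 : x ^ (k + 2) ≤ x ^ (2 * e) := pow_le_pow_right₀ hx hk2
  have e32 : x ^ k ≤ x ^ (2 * e) := pow_le_pow_right₀ hx (by omega)
  have e60 : x ^ (p + 2) ≤ x ^ (2 * e) := pow_le_pow_right₀ hx hp
  have hK2 : K1 ≤ K1 ^ 2 := by nlinarith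
  have haK : K1 ≤ a * K1 ^ 2 := by nlinarith
  have h62 : 0 ≤ x ^ (2 * e) := by positivity
  have s1 : K1 * x ^ (k + 2) ≤ a * K1 ^ 2 * x ^ (2 * e) := mul_le_mul haK e34 (by positivity) (by positivity)
  have s2 : K1 * x ^ k ≤ a * K1 ^ 2 * x ^ (2 * e) := mul_le_mul haK e32 (by positivity) (by positivity)
  have s3 : x ^ (2 * e) ≤ a * K1 ^ 2 * x ^ (2 * e) := by
    apply le_mul_of_one_le_left h62
    linarith
  linarith

lemma B_le {a b : ℤ} (ha : 1 ≤ a) {G x L Lg K1 K2 : ℝ} {M1 Q H P k r e p h : ℕ} (hx : 1 ≤ x) (hLg : 1 ≤ Lg) (hL : 1 ≤ L)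
    (hLx : L ≤ x ^ 2) (hK1 : 1 ≤ K1) (hK2 : 1 ≤ K2)
    (he : e + r = k) (hk2 : k + 2 ≤ 2 * e) (hp : p + 2 ≤ 2 * e) (hph : p = h + r) (h9 : 9 * r ≤ h)
    (hM : (M1 : ℝ) ≤ 2 * K1 * x ^ k) (hD : ((2 * a * M1 + b.natAbs : ℤ) : ℝ) ≤ K2 * x ^ k) (hG : x ^ (2 * k) ≤ 2 * Lg * G) (hG0 : 0 < G)
    (hQ : x ^ (2 * r) ≤ 2 * Q) (hQ2 : (Q : ℝ) ≤ x ^ (2 * r)) (hQ0 : 1 ≤ Q) (hP : (P : ℝ) ≤ 2 * x ^ p) (hP2 : x ^ p ≤ P)
    (hlogP : 1 + Real.log P ≤ 2 * L) (hH : (H : ℝ) ≤ x ^ h) (hH2 : x ^ h ≤ 2 * H) (hH0 : 1 ≤ H) :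
    M1 * ((2 * a * M1 + b.natAbs : ℤ) : ℝ) * (H * (2 * Real.pi / P) + 2 * (Q : ℝ) ^ 4 / H) +
        2 * Real.sqrt (SM a Q P M1) * VV a b G M1 * (2 + 2 * (Q : ℝ) ^ 4 / H) ≤
      (24 * K1 * K2 + 12 * (46 * a * K1) * (K2 + 4 * a * K1 + 16 * K1 * K2 ^ 2)) * (x ^ (k + e) * Lg) := by
  have har : (1 : ℝ) ≤ a := by exact_mod_cast ha
  have hx0 : 0 < x := by linarith
  have hHr : (0 : ℝ) < H := by exact_mod_cast hH0
  have hPr : (0 : ℝ) < P := lt_of_lt_of_le (by positivity) hP2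
  have hVV := VV_le (b := b) ha hx hLg hK1 hK2 hM hD hG hG0
  have hVV0 := VV_nonneg (b := b) ha hG0 M1
  have hSM := SM_le ha hx hL hLx hK1 he hk2 hp hM hQ hQ0 hP hlogP
  have hM0 : (0 : ℝ) ≤ M1 := Nat.cast_nonneg _
  have hD0 : (0 : ℝ) ≤ ((2 * a * M1 + b.natAbs : ℤ) : ℝ) := by
    have : (0 : ℤ) ≤ 2 * a * M1 + b.natAbs := by positivity
    exact_mod_cast this
  have hsqrt : Real.sqrt (SM a Q P M1) ≤ (46 * a * K1) * x ^ e := by
    rw [Real.sqrt_le_left (by positivity)]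
    refine hSM.trans ?_
    calc (2100 * a * K1 ^ 2) * x ^ (2 * e) ≤ (2116 * a * K1 ^ 2 * a) * x ^ (2 * e) := by
          apply mul_le_mul_of_nonneg_right _ (by positivity)
          have h1 : a * K1 ^ 2 ≤ a * K1 ^ 2 * a := le_mul_of_one_le_right (by positivity) har
          have h2 : 0 ≤ a * K1 ^ 2 := by positivity
          linarith
      _ = _ := by ring
  have hpi : Real.pi ≤ 4 := Real.pi_le_four
  have hpi0 := Real.pi_pos
  have h1 : (H : ℝ) * (2 * Real.pi / P) ≤ 8 / x ^ r := by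
    rw [mul_div_assoc', div_le_div_iff₀ hPr (by positivity)]
    calc (H : ℝ) * (2 * Real.pi) * x ^ r ≤ x ^ h * (2 * 4) * x ^ r := by gcongr
      _ = 8 * x ^ p := by rw [hph, pow_add]; ring
      _ ≤ 8 * P := by linarith
  have h2 : 2 * (Q : ℝ) ^ 4 / H ≤ 4 / x ^ r := by
    rw [div_le_div_iff₀ hHr (by positivity)]
    calc 2 * (Q : ℝ) ^ 4 * x ^ r ≤ 2 * (x ^ (2 * r)) ^ 4 * x ^ r := by gcongr
      _ = 2 * x ^ (9 * r) := by
          rw [← pow_mul, mul_assoc, ← pow_add]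
          congr 2
          ring
      _ ≤ 2 * x ^ h := by
          have := pow_le_pow_right₀ hx h9
          linarith
      _ ≤ 4 * H := by linarith
  have h20 : 0 ≤ 2 * (Q : ℝ) ^ 4 / H := by positivity
  have h4 : 4 / x ^ r ≤ 4 := by
    apply div_le_self (by norm_num)
    exact one_le_pow₀ hx
  have hker : x ^ k * x ^ k = x ^ (k + e) * x ^ r := by
    rw [← pow_add, ← pow_add]
    congr 1
    omega
  have t1 : M1 * ((2 * a * M1 + b.natAbs : ℤ) : ℝ) * (H * (2 * Real.pi / P) + 2 * (Q : ℝ) ^ 4 / H) ≤ 24 * K1 * K2 * (x ^ (k + e) * Lg) := by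
    calc M1 * ((2 * a * M1 + b.natAbs : ℤ) : ℝ) * (H * (2 * Real.pi / P) + 2 * (Q : ℝ) ^ 4 / H) ≤
        (2 * K1 * x ^ k) * (K2 * x ^ k) * (12 / x ^ r) := by
          apply mul_le_mul _ _ (by positivity) (by positivity)
          · gcongr
          · have : 12 / x ^ r = 8 / x ^ r + 4 / x ^ r := by ring
            rw [this]
            linarith
      _ = 24 * K1 * K2 * ((x ^ k * x ^ k) / x ^ r) := by
          field_simp
          ring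
      _ = 24 * K1 * K2 * x ^ (k + e) := by
          rw [hker, mul_div_assoc, div_self (by positivity), mul_one]
      _ ≤ 24 * K1 * K2 * (x ^ (k + e) * Lg) := by
          apply mul_le_mul_of_nonneg_left _ (by positivity)
          exact le_mul_of_one_le_right (by positivity) hLg
  have t2 : 2 * Real.sqrt (SM a Q P M1) * VV a b G M1 * (2 + 2 * (Q : ℝ) ^ 4 / H) ≤
      12 * (46 * a * K1) * (K2 + 4 * a * K1 + 16 * K1 * K2 ^ 2) * (x ^ (k + e) * Lg) := by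
    calc 2 * Real.sqrt (SM a Q P M1) * VV a b G M1 * (2 + 2 * (Q : ℝ) ^ 4 / H) ≤
        2 * ((46 * a * K1) * x ^ e) * ((K2 + 4 * a * K1 + 16 * K1 * K2 ^ 2) * (x ^ k * Lg)) * 6 := by
          apply mul_le_mul _ (by linarith) (by positivity) (by positivity)
          apply mul_le_mul _ hVV hVV0 (by positivity)
          linarith
      _ = _ := by rw [pow_add]; ring
  linarith

/-- the error of the evaluation -/
lemma ev_le {a b : ℤ} (ha : 1 ≤ a) {G x Lg K1 K2 SF : ℝ} {M1 Q H k r h : ℕ} (hx : 1 ≤ x) (hLg : 1 ≤ Lg) (hLgx : Lg ≤ x)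
    (hK1 : 1 ≤ K1) (hK2 : 1 ≤ K2) (hSF : 0 ≤ SF)
    (c1 : 6 * r + k + 2 ≤ h) (c2 : h + 4 * r + 2 = 2 * k)
    (hM : (M1 : ℝ) ≤ 2 * K1 * x ^ k) (hD : ((2 * a * M1 + b.natAbs : ℤ) : ℝ) ≤ K2 * x ^ k) (hG : x ^ (2 * k) ≤ 2 * Lg * G) (hG0 : 0 < G)
    (hQ2 : (Q : ℝ) ≤ x ^ (2 * r)) (hH : (H : ℝ) ≤ x ^ h) (hH2 : x ^ h ≤ 2 * H) (hH0 : 1 ≤ H)
    (hq : (qf a b (b.natAbs + 1) : ℝ) ≤ K2) (hq0 : (0 : ℝ) ≤ (qf a b (b.natAbs + 1) : ℝ)) :
    SF * ((2 * (Q : ℝ) ^ 3 * VV a b G M1 + (Q : ℝ) ^ 2 * EE a b G H M1) / H) ≤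
      SF * ((4 * (K2 + 4 * a * K1 + 16 * K1 * K2 ^ 2) + 82 * K2 ^ 2) / x) := by
  apply mul_le_mul_of_nonneg_left _ hSF
  have har : (1 : ℝ) ≤ a := by exact_mod_cast ha
  have hx0 : 0 < x := by linarith
  have hHr : (0 : ℝ) < H := by exact_mod_cast hH0
  have hVV := VV_le (b := b) ha hx hLg hK1 hK2 hM hD hG hG0
  have hVV0 := VV_nonneg (b := b) ha hG0 M1
  obtain ⟨W, hW⟩ : ∃ W : ℝ, W = K2 + 4 * a * K1 + 16 * K1 * K2 ^ 2 := ⟨_, rfl⟩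
  rw [← hW] at hVV ⊢
  have hW0 : 0 ≤ W := by rw [hW]; positivity
  have hD0 : (0 : ℝ) ≤ ((2 * a * M1 + b.natAbs : ℤ) : ℝ) := by
    have : (0 : ℤ) ≤ 2 * a * M1 + b.natAbs := by positivity
    exact_mod_cast this
  obtain ⟨D, hDd⟩ : ∃ D : ℝ, D = ((2 * a * M1 + b.natAbs : ℤ) : ℝ) := ⟨_, rfl⟩
  unfold EE
  rw [← hDd] at hD hD0 ⊢
  have hGi : 1 / G ≤ 2 * Lg / x ^ (2 * k) := by
    rw [div_le_div_iff₀ hG0 (by positivity), one_mul]
    exact hG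
  have hsplit : x ^ (2 * k) = x ^ (h + 4 * r + 1) * x := by
    rw [← pow_succ]
    congr 1
    omega
  have hGx : 1 / G ≤ 2 / x ^ (h + 4 * r + 1) := by
    refine hGi.trans ?_
    rw [div_le_div_iff₀ (by positivity) (by positivity)]
    calc 2 * Lg * x ^ (h + 4 * r + 1) ≤ 2 * x * x ^ (h + 4 * r + 1) := by gcongr
      _ = 2 * x ^ (2 * k) := by rw [hsplit]; ring
  have hkh : x ^ k ≤ x ^ h := pow_le_pow_right₀ hx (by omega)
  have hHD : (H : ℝ) + D ≤ 2 * K2 * x ^ h := by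
    have h2 : K2 * x ^ k ≤ K2 * x ^ h := by gcongr
    have h3 : x ^ h ≤ K2 * x ^ h := le_mul_of_one_le_left (by positivity) hK2
    linarith
  have hHD2 : 2 * (H : ℝ) + D ≤ 3 * K2 * x ^ h := by
    have h2 : K2 * x ^ k ≤ K2 * x ^ h := by gcongr
    have h3 : x ^ h ≤ K2 * x ^ h := le_mul_of_one_le_left (by positivity) hK2
    linarith
  -- the pieces
  obtain ⟨u, hu⟩ : ∃ u : ℕ, u + 4 * r + 1 = h := ⟨h - 4 * r - 1, by omega⟩
  have p1 : 2 * (Q : ℝ) ^ 3 * VV a b G M1 * x ≤ 2 * W * x ^ h := by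
    calc 2 * (Q : ℝ) ^ 3 * VV a b G M1 * x ≤ 2 * (x ^ (2 * r)) ^ 3 * (W * (x ^ k * x)) * x := by
          apply mul_le_mul_of_nonneg_right _ hx0.le
          apply mul_le_mul _ (hVV.trans (by gcongr)) hVV0 (by positivity)
          gcongr
      _ = 2 * W * x ^ (6 * r + k + 2) := by
          rw [← pow_mul, show 6 * r + k + 2 = 2 * r * 3 + k + 1 + 1 by ring, pow_succ, pow_succ, pow_add]
          ring
      _ ≤ 2 * W * x ^ h := by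
          apply mul_le_mul_of_nonneg_left _ (by positivity)
          exact pow_le_pow_right₀ hx c1
  have hx1k : 1 ≤ x ^ u := one_le_pow₀ hx
  have p2 : 4 * (H : ℝ) / G * (H + D) ≤ 16 * K2 * x ^ u := by
    calc 4 * (H : ℝ) / G * (H + D) = 4 * H * (1 / G) * (H + D) := by ring
      _ ≤ 4 * x ^ h * (2 / x ^ (h + 4 * r + 1)) * (2 * K2 * x ^ h) := by gcongr
      _ = 16 * K2 * x ^ u := by
          have e1 : x ^ h * x ^ h = x ^ u * x ^ (h + 4 * r + 1) := by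
            rw [← pow_add, ← pow_add]
            congr 1
            omega
          have e2 : 4 * x ^ h * (2 / x ^ (h + 4 * r + 1)) * (2 * K2 * x ^ h) = 16 * K2 * ((x ^ h * x ^ h) / x ^ (h + 4 * r + 1)) := by
            field_simp
            ring
          rw [e2, e1, mul_div_assoc, div_self (by positivity), mul_one]
  have p3 : 4 * (qf a b (b.natAbs + 1) : ℝ) / G * (2 * H + D) ≤ 24 * K2 ^ 2 := by
    have e3 : x ^ h ≤ x ^ (h + 4 * r + 1) := pow_le_pow_right₀ hx (by omega)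
    calc 4 * (qf a b (b.natAbs + 1) : ℝ) / G * (2 * H + D) = 4 * (qf a b (b.natAbs + 1) : ℝ) * (1 / G) * (2 * H + D) := by ring
      _ ≤ 4 * K2 * (2 / x ^ (h + 4 * r + 1)) * (3 * K2 * x ^ h) := by gcongr
      _ = 24 * K2 ^ 2 * (x ^ h / x ^ (h + 4 * r + 1)) := by
          field_simp
          ring
      _ ≤ 24 * K2 ^ 2 * 1 := by
          apply mul_le_mul_of_nonneg_left _ (by positivity)
          rw [div_le_one (by positivity)]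
          exact e3
      _ = _ := by ring
  have p4 : (Q : ℝ) ^ 2 * (4 * (H : ℝ) / G * (H + D) + D + 4 * (qf a b (b.natAbs + 1) : ℝ) / G * (2 * H + D)) * x ≤ 41 * K2 ^ 2 * x ^ h := by
    have q1 : K2 ≤ K2 ^ 2 := by nlinarith
    have q2 : x ^ k ≤ x ^ u := pow_le_pow_right₀ hx (by omega)
    have q4 : K2 * x ^ k ≤ K2 ^ 2 * x ^ u := by gcongr
    have q5 : K2 ^ 2 ≤ K2 ^ 2 * x ^ u := le_mul_of_one_le_right (by positivity) hx1k
    have q6 : K2 * x ^ u ≤ K2 ^ 2 * x ^ u := by gcongr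
    have q7 : 4 * (H : ℝ) / G * (H + D) + D + 4 * (qf a b (b.natAbs + 1) : ℝ) / G * (2 * H + D) ≤ 41 * K2 ^ 2 * x ^ u := by linarith
    have q8 : 0 ≤ 4 * (H : ℝ) / G * (H + D) + D + 4 * (qf a b (b.natAbs + 1) : ℝ) / G * (2 * H + D) := by positivity
    calc (Q : ℝ) ^ 2 * (4 * (H : ℝ) / G * (H + D) + D + 4 * (qf a b (b.natAbs + 1) : ℝ) / G * (2 * H + D)) * x ≤
        (x ^ (2 * r)) ^ 2 * (41 * K2 ^ 2 * x ^ u) * x := by gcongr
      _ = 41 * K2 ^ 2 * x ^ h := by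
          rw [← hu, ← pow_mul, show u + 4 * r + 1 = u + 2 * r * 2 + 1 by ring, pow_succ, pow_add]
          ring
  rw [div_le_div_iff₀ hHr hx0]
  have hfin : 2 * W * x ^ h + 41 * K2 ^ 2 * x ^ h ≤ (4 * W + 82 * K2 ^ 2) * H := by
    have r6 : W * x ^ h ≤ W * (2 * H) := by gcongr
    have r7 : K2 ^ 2 * x ^ h ≤ K2 ^ 2 * (2 * H) := by gcongr
    linarith
  refine le_trans ?_ hfin
  rw [add_mul]
  exact add_le_add p1 p4

end Pool.Agent.K7.H51.PT
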