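import Mathlib
import Pool.Agent.K7.H51.PT.As1
import Pool.Agent.K7.H51.PS.As2

set_option autoImplicit false

/-! The evaluation for one constant term, for a general level. -/

namespace Pool.Agent.K7.H51.PT

open Finset Filter
open Pool.Agent.R460.SB (Sz fv)
open Pool.Agent.R460.SQ (thp)
open Pool.Agent.K7.H51.PS (qf kk pM pN pG pJ k2 floor_half TS wt Fq Fe b0 qf_abs TS_mean wey Fq_nonneg Fq_le_log pJ_le qf_pos
  th_right fv_qf VV EE)

lemma pG_le {l : Lv} {a b : ℤ} {g N : ℕ} (h : PP l a b g N) : pG g N ≤ N := by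
  have h1 : (pG g N : ℝ) ≤ N := h.Gx.trans (div_le_self (Nat.cast_nonneg _) (one_le_pow₀ h.L1))
  exact_mod_cast h1

lemma sum_le_N {l : Lv} {a b : ℤ} {g N : ℕ} (h : PP l a b g N) {c j : ℕ} (hc : c ≤ N) (hj : j ≤ pJ a b g N) :
    c + j * pG g N + pG g N ≤ pN a b N := by
  have hG := pG_le h
  have h2 := pJ_le hj
  have h3 : pN a b N = (a.natAbs + b.natAbs) * N + 3 * N := by
    unfold pN kk
    ring
  omega

lemma qf_M {l : Lv} {a b : ℤ} (ha : 1 ≤ a) {g N : ℕ} (h : PP l a b g N) {j : ℕ} (hj : j ≤ pJ a b g N) :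
    (j : ℝ) * pG g N + pG g N + pH l N ≤ (qf a b (pM a b N) : ℝ) := by
  have hG := pG_le h
  have h2 := pJ_le hj
  have q2 := l.k10
  have q4 := l.hh
  have hH : pH l N ≤ N := by
    have h1 : (pH l N : ℝ) ≤ N := by
      refine h.Hx.trans ?_
      rw [← h.x2k]
      exact pow_le_pow_right₀ h.x1 (by omega)
    exact_mod_cast h1
  have h3 : j * pG g N + pG g N + pH l N ≤ kk a b * N := by
    have : kk a b * N = (a.natAbs + b.natAbs) * N + 3 * N := by
      unfold kk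
      ring
    omega
  have h4 : ((j * pG g N + pG g N + pH l N : ℕ) : ℤ) ≤ qf a b (pM a b N) := by
    have h5 : ((j * pG g N + pG g N + pH l N : ℕ) : ℤ) ≤ ((kk a b * N : ℕ) : ℤ) := by exact_mod_cast h3
    refine h5.trans ?_
    obtain ⟨r, hr⟩ : ∃ r, r = Nat.sqrt N + 1 := ⟨_, rfl⟩
    have hr2 : N ≤ r ^ 2 := by
      rw [hr]
      have := Nat.lt_succ_sqrt' N
      exact this.le
    have hr1 : 1 ≤ r := by omega
    unfold pM qf
    rw [← hr]
    push_cast
    have hb : -(b.natAbs : ℤ) ≤ b := by omega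
    have hk : (kk a b : ℤ) ≥ b.natAbs + 1 := by
      unfold kk
      push_cast
      have := abs_nonneg a
      omega
    have hr2' : (N : ℤ) ≤ (r : ℤ) ^ 2 := by exact_mod_cast hr2
    have hr1' : (1 : ℤ) ≤ r := by exact_mod_cast hr1
    obtain ⟨k, hkd⟩ : ∃ k : ℤ, k = kk a b := ⟨_, rfl⟩
    rw [← hkd] at hk ⊢
    obtain ⟨β, hβ⟩ : ∃ β : ℤ, β = b.natAbs := ⟨_, rfl⟩
    rw [← hβ] at hb hk
    have hβ0 : 0 ≤ β := by rw [hβ]; exact Int.natCast_nonneg _
    have hk0 : 0 ≤ k := by linarith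
    have hkr : 0 ≤ k * r := by positivity
    have e1 : -β * (k * r) ≤ b * (k * r) := mul_le_mul_of_nonneg_right hb hkr
    have e2 : 1 * (k * r) ^ 2 ≤ a * (k * r) ^ 2 := mul_le_mul_of_nonneg_right ha (sq_nonneg _)
    have e3 : β * (k * r) ≤ β * (k * r) * r := le_mul_of_one_le_right (by positivity) hr1'
    have e4 : (β + 1) * (k * r ^ 2) ≤ k * (k * r ^ 2) := mul_le_mul_of_nonneg_right hk (by positivity)
    have e5 : k * N ≤ k * r ^ 2 := mul_le_mul_of_nonneg_left hr2' hk0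
    nlinarith
  have h6 : (((j * pG g N + pG g N + pH l N : ℕ) : ℤ) : ℝ) ≤ (qf a b (pM a b N) : ℝ) := by exact_mod_cast h4
  push_cast at h6
  exact h6

lemma val_part {l : Lv} {a b : ℤ} (ha : 1 ≤ a) {g N : ℕ} (h : PP l a b g N) {c j : ℕ} (hc : c ≤ N) (hcQ : pQ l N < c) (hj : j ≤ pJ a b g N) :
    ∑ m ∈ Icc 1 (pM a b N), wt a b (pG g N) ((j : ℝ) * pG g N) m * Fe (Fq (pQ l N)) (pN a b N) ((c : ℤ) + qf a b m) =
    ∑ m ∈ Icc 1 (pM a b N), wt a b (pG g N) ((j : ℝ) * pG g N) m * thp (fv (-a) (-b) c m).natAbs := by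
  have hG0 : (0 : ℝ) < pG g N := by exact_mod_cast h.G0
  have hs0 : (0 : ℝ) ≤ (j : ℝ) * pG g N := by positivity
  apply sum_congr rfl
  intro m hm
  by_cases h1 : b.natAbs + 1 ≤ m
  · have h2 := qf_pos (b := b) ha h1
    by_cases h3 : (j : ℝ) * pG g N + pG g N ≤ (qf a b m : ℝ)
    · have h4 : wt a b (pG g N) ((j : ℝ) * pG g N) m = 0 := by
        unfold wt
        rw [if_pos h1, th_right hG0 hs0 h3, mul_zero]
      rw [h4, zero_mul, zero_mul]
    · congr 1
      push Not at h3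
      have h5 : qf a b m < ((j * pG g N + pG g N : ℕ) : ℤ) := by
        have : (qf a b m : ℝ) < (((j * pG g N + pG g N : ℕ) : ℤ) : ℝ) := by
          push_cast
          exact h3
        exact_mod_cast this
      have h6 := sum_le_N h hc hj
      rw [fv_qf]
      unfold Fe
      obtain ⟨jg, hjg⟩ : ∃ jg, jg = j * pG g N := ⟨_, rfl⟩
      rw [← hjg] at h5 h6
      rw [if_pos ⟨by omega, by omega⟩]
      unfold Fq thp
      have h7 : ((c : ℤ) + qf a b m).toNat = ((c : ℤ) + qf a b m).natAbs := by omega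
      rw [h7]
      have h8 : pQ l N < ((c : ℤ) + qf a b m).natAbs := by omega
      simp only [h8, and_true]
  · unfold wt
    rw [if_neg h1, zero_mul, zero_mul]

/-- the error of the evaluation -/
lemma err_ev {l : Lv} {a b : ℤ} (ha : 1 ≤ a) {g N : ℕ} (h : PP l a b g N) (hk : kk a b ≤ N)
    (hx : 2 * kk a b * (4 * (k2 a b + 4 * a * kk a b + 16 * kk a b * k2 a b ^ 2) + 82 * k2 a b ^ 2) * Real.log N ^ (g + 2) ≤ xx l N) :
    (∑ v ∈ Icc 1 (pN a b N), Fq (pQ l N) v) * ((2 * (pQ l N : ℝ) ^ 3 * VV a b (pG g N) (pM a b N) +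
      (pQ l N : ℝ) ^ 2 * EE a b (pG g N) (pH l N) (pM a b N)) / pH l N) ≤ N / Real.log N ^ (g + 1) := by
  have har : (1 : ℝ) ≤ a := by exact_mod_cast ha
  have hN0 : (0 : ℝ) < N := by exact_mod_cast h.N1
  have hL0 : 0 < Real.log N := by linarith [h.L1]
  have hx0 : 0 < xx l N := by linarith [h.x1]
  have hkk3 : 3 ≤ kk a b := by unfold kk; omega
  have hkk : (1 : ℝ) ≤ kk a b := by exact_mod_cast (by omega : 1 ≤ kk a b)
  have hk2 : 1 ≤ k2 a b := by
    unfold k2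
    have h1 : (0 : ℝ) ≤ b.natAbs := Nat.cast_nonneg _
    have h2 := abs_nonneg (qf a b (b.natAbs + 1) : ℝ)
    have h3 : (1 : ℝ) * 1 ≤ a * kk a b := mul_le_mul har hkk (by norm_num) (by linarith)
    linarith
  have hG0 : (0 : ℝ) < pG g N := by exact_mod_cast h.G0
  have hSF0 : 0 ≤ ∑ v ∈ Icc 1 (pN a b N), Fq (pQ l N) v := sum_nonneg fun v _ => Fq_nonneg _ _
  have hq0 : (0 : ℝ) ≤ (qf a b (b.natAbs + 1) : ℝ) := by
    have := qf_pos (b := b) ha (le_refl (b.natAbs + 1))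
    have h1 : (0 : ℤ) ≤ qf a b (b.natAbs + 1) := le_trans (Int.natCast_nonneg _) this
    exact_mod_cast h1
  have hq : (qf a b (b.natAbs + 1) : ℝ) ≤ k2 a b := by
    have h1 := le_abs_self (qf a b (b.natAbs + 1) : ℝ)
    have h2 : (0 : ℝ) ≤ 4 * a * kk a b + b.natAbs := by positivity
    unfold k2
    linarith
  have q1 := l.r1
  have q2 := l.k10
  have q3 := l.he
  have q4 := l.hh
  have q5 := l.hp
  have h1 := ev_le (b := b) (G := pG g N) (x := xx l N) (Lg := Real.log N ^ g) (K1 := kk a b) (K2 := k2 a b)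
    (SF := ∑ v ∈ Icc 1 (pN a b N), Fq (pQ l N) v)
    (M1 := pM a b N) (Q := pQ l N) (H := pH l N) (k := l.k) (r := l.r) (h := l.h) ha h.x1 (one_le_pow₀ h.L1) h.Lgx hkk hk2 hSF0
    (by omega) q4 h.M h.D h.Gx2 hG0 h.Qx h.Hx h.Hx2 h.H0 hq hq0
  refine h1.trans ?_
  have h3 : ∑ v ∈ Icc 1 (pN a b N), Fq (pQ l N) v ≤ (kk a b * N) * (2 * Real.log N) := by
    have h4 : ∀ v ∈ Icc 1 (pN a b N), Fq (pQ l N) v ≤ 2 * Real.log N := by
      intro v hv
      rw [mem_Icc] at hv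
      refine (Fq_le_log _).trans ?_
      have h5 : (v : ℝ) ≤ (N : ℝ) * N := by
        have : v ≤ N * N := hv.2.trans (by unfold pN; exact Nat.mul_le_mul_right _ hk)
        exact_mod_cast this
      have hv0 : (0 : ℝ) < v := by exact_mod_cast hv.1
      refine (Real.log_le_log hv0 h5).trans ?_
      rw [Real.log_mul hN0.ne' hN0.ne']
      linarith
    refine (sum_le_sum h4).trans ?_
    rw [sum_const, Nat.card_Icc, Nat.add_sub_cancel, nsmul_eq_mul]
    unfold pN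
    push_cast
    exact le_rfl
  obtain ⟨W, hW⟩ : ∃ W, W = 4 * (k2 a b + 4 * a * kk a b + 16 * kk a b * k2 a b ^ 2) + 82 * k2 a b ^ 2 := ⟨_, rfl⟩
  rw [← hW] at hx ⊢
  have hW0 : 0 ≤ W := by rw [hW]; positivity
  calc (∑ v ∈ Icc 1 (pN a b N), Fq (pQ l N) v) * (W / xx l N) ≤ ((kk a b * N) * (2 * Real.log N)) * (W / xx l N) := by gcongr
    _ = (2 * kk a b * W * Real.log N ^ (g + 2)) * (N / (xx l N * Real.log N ^ (g + 1))) := by
        field_simp
        ring
    _ ≤ xx l N * (N / (xx l N * Real.log N ^ (g + 1))) := by gcongr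
    _ = N / Real.log N ^ (g + 1) := by
        field_simp

end Pool.Agent.K7.H51.PT
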