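import Mathlib
import Pool.Agent.K7.H51.PS.Bd
import Pool.Agent.K7.H51.PS.Mt

set_option autoImplicit false

/-! The nonprincipal characters and the main term for one constant term, of any sign. -/

namespace Pool.Agent.K7.H51.PT

open Finset Filter Topology
open Pool.Agent.H398R2.BV (Prim card_prim_le)
open Pool.Agent.K7.H51.PS

lemma max_toNat (x : ℤ) {v : ℕ} (hv : 1 ≤ v) : max ((x : ℝ) - v) 0 = max (((x.toNat : ℕ) : ℝ) - v) 0 := by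
  rcases le_total 0 x with h | h
  · have : ((x.toNat : ℕ) : ℝ) = x := by
      have : ((x.toNat : ℤ) : ℝ) = x := by rw [Int.toNat_of_nonneg h]
      exact_mod_cast this
    rw [this]
  · have h1 : x.toNat = 0 := Int.toNat_eq_zero.2 h
    have h2 : (x : ℝ) ≤ 0 := by exact_mod_cast h
    have h3 : (1 : ℝ) ≤ v := by exact_mod_cast hv
    rw [h1, max_eq_right (by linarith), max_eq_right (by push_cast; linarith)]

lemma th_eq (c : ℤ) (s G : ℕ) {v : ℕ} (hv : 1 ≤ v) : th G s ((v : ℝ) - c) =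
    (max ((((c + s + G).toNat : ℕ) : ℝ) - v) 0 - max ((((c + s).toNat : ℕ) : ℝ) - v) 0 -
      max ((((c + G).toNat : ℕ) : ℝ) - v) 0 + max (((c.toNat : ℕ) : ℝ) - v) 0) / G := by
  unfold th
  have e1 : (s : ℝ) + G - ((v : ℝ) - c) = ((c + s + G : ℤ) : ℝ) - v := by push_cast; ring
  have e2 : (s : ℝ) - ((v : ℝ) - c) = ((c + s : ℤ) : ℝ) - v := by push_cast; ring
  have e3 : (G : ℝ) - ((v : ℝ) - c) = ((c + G : ℤ) : ℝ) - v := by push_cast; ring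
  have e4 : -((v : ℝ) - c) = ((c : ℤ) : ℝ) - v := by ring
  rw [e1, e2, e3, e4, max_toNat _ hv, max_toNat _ hv, max_toNat _ hv, max_toNat _ hv]

lemma th_RZ {c : ℤ} {s G N : ℕ} (hN : c + s + G ≤ N) (f : ℕ) (ψ : DirichletCharacter ℂ f) :
    ∑ v ∈ Icc 1 N, ((ArithmeticFunction.vonMangoldt v : ℝ) : ℂ) * ψ (v : ZMod f) * ((th G s ((v : ℝ) - c) : ℝ) : ℂ) =
      (RZ (((c + s + G).toNat : ℕ) : ℝ) f ψ - RZ (((c + s).toNat : ℕ) : ℝ) f ψ - RZ (((c + G).toNat : ℕ) : ℝ) f ψ +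
        RZ ((c.toNat : ℕ) : ℝ) f ψ) / (G : ℂ) := by
  have k1 : (c + s + G).toNat ≤ N := by omega
  have k2 : (c + s).toNat ≤ N := by omega
  have k3 : (c + G).toNat ≤ N := by omega
  have k4 : c.toNat ≤ N := by omega
  rw [RZ_nat k1, RZ_nat k2, RZ_nat k3, RZ_nat k4, ← sum_sub_distrib, ← sum_sub_distrib, ← sum_add_distrib, sum_div]
  apply sum_congr rfl
  intro v hv
  rw [mem_Icc] at hv
  rw [th_eq c s G hv.1]
  push_cast
  ring

/-- one character -/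
lemma one_char {c : ℤ} {s G N Q : ℕ} (hG : 1 ≤ G) (hN1 : 1 ≤ N) (hQN : Q ≤ N) (hN : c + s + G ≤ N) (f : ℕ)
    (ψ : DirichletCharacter ℂ f) :
    ‖∑ v ∈ Icc 1 N, ((Fq Q v : ℝ) : ℂ) * (starRingEnd ℂ) (ψ (v : ZMod f)) * ((th G s ((v : ℝ) - c) : ℝ) : ℂ)‖ ≤
      (‖RZ (((c + s + G).toNat : ℕ) : ℝ) f ψ‖ + ‖RZ (((c + s).toNat : ℕ) : ℝ) f ψ‖ + ‖RZ (((c + G).toNat : ℕ) : ℝ) f ψ‖ +
        ‖RZ ((c.toNat : ℕ) : ℝ) f ψ‖) / G + (2 * Real.sqrt N * Real.log N + 2 * Q) := by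
  have hG0 : (0 : ℝ) < G := by exact_mod_cast hG
  have h1 : ‖∑ v ∈ Icc 1 N, ((Fq Q v : ℝ) : ℂ) * (starRingEnd ℂ) (ψ (v : ZMod f)) * ((th G s ((v : ℝ) - c) : ℝ) : ℂ)‖ =
      ‖∑ v ∈ Icc 1 N, ((Fq Q v : ℝ) : ℂ) * ψ (v : ZMod f) * ((th G s ((v : ℝ) - c) : ℝ) : ℂ)‖ := by
    rw [← RCLike.norm_conj (∑ v ∈ Icc 1 N, ((Fq Q v : ℝ) : ℂ) * ψ (v : ZMod f) * ((th G s ((v : ℝ) - c) : ℝ) : ℂ))]
    congr 1
    rw [map_sum]
    apply sum_congr rfl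
    intro v _
    rw [map_mul, map_mul, Complex.conj_ofReal, Complex.conj_ofReal]
  rw [h1]
  have h2 : ∑ v ∈ Icc 1 N, ((Fq Q v : ℝ) : ℂ) * ψ (v : ZMod f) * ((th G s ((v : ℝ) - c) : ℝ) : ℂ) =
      ∑ v ∈ Icc 1 N, ((ArithmeticFunction.vonMangoldt v : ℝ) : ℂ) * ψ (v : ZMod f) * ((th G s ((v : ℝ) - c) : ℝ) : ℂ) -
      ∑ v ∈ Icc 1 N, (((ArithmeticFunction.vonMangoldt v - Fq Q v : ℝ)) : ℂ) * ψ (v : ZMod f) * ((th G s ((v : ℝ) - c) : ℝ) : ℂ) := by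
    rw [← sum_sub_distrib]
    apply sum_congr rfl
    intro v _
    push_cast
    ring
  rw [h2, th_RZ hN]
  refine (norm_sub_le _ _).trans (add_le_add ?_ ?_)
  · rw [norm_div, Complex.norm_natCast]
    apply div_le_div_of_nonneg_right _ hG0.le
    refine (norm_add_le _ _).trans (add_le_add ?_ le_rfl)
    refine (norm_sub_le _ _).trans (add_le_add ?_ le_rfl)
    exact norm_sub_le _ _
  · refine (norm_sum_le _ _).trans (le_trans ?_ (Fq_diff Q N hN1 hQN))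
    apply sum_le_sum
    intro v _
    have h3 : 0 ≤ ArithmeticFunction.vonMangoldt v - Fq Q v := sub_nonneg.2 (Fq_le_vM Q v)
    rw [norm_mul, norm_mul, Complex.norm_real, Complex.norm_real, Real.norm_of_nonneg h3,
      Real.norm_of_nonneg (th_nonneg hG0 (Nat.cast_nonneg s) _)]
    have h4 := DirichletCharacter.norm_le_one ψ (v : ZMod f)
    have h5 := th_le_one hG0 (Nat.cast_nonneg s) ((v : ℝ) - c)
    have h6 := th_nonneg hG0 (Nat.cast_nonneg s) ((v : ℝ) - c)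
    calc (ArithmeticFunction.vonMangoldt v - Fq Q v) * ‖ψ (v : ZMod f)‖ * th G s ((v : ℝ) - c) ≤
        (ArithmeticFunction.vonMangoldt v - Fq Q v) * 1 * 1 := by gcongr
      _ = _ := by ring

/-- the nonprincipal part for one constant term -/
theorem NP_bound3 : ∃ C : ℝ, 0 < C ∧ ∀ (a b : ℤ), a ≠ 0 → ∀ (c : ℤ) (s G N Q : ℕ) (X : ℝ), 1 ≤ G → 1 ≤ Q → Q ≤ N →
    c + s + G ≤ N → (N : ℝ) ≤ X →
    ‖∑ v ∈ Icc 1 N, ((Fq Q v : ℝ) : ℂ) * (((th G s ((v : ℝ) - c) : ℝ) : ℂ) * ∑ k ∈ Icc 1 Q, mK a b k ((v : ℤ) - c)) -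
      (∑ v ∈ Icc 1 N, ((Fq Q v : ℝ) : ℂ) * ((th G s ((v : ℝ) - c) : ℝ) : ℂ)) * ∑ n ∈ Icc 1 Q, (GG (gp a b c) 1 n : ℂ)‖ ≤
      C * (a : ℝ) ^ 2 * (1 + Real.log Q) ^ 2 * (8 * X / G * wD X Q (b ^ 2 - 4 * a * c) +
        (Q : ℝ) ^ 3 * (2 * Real.sqrt N * Real.log N + 2 * Q)) := by
  obtain ⟨C, hC, hW⟩ := Wd_le
  refine ⟨C, hC, ?_⟩
  intro a b ha c s G N Q X hG hQ hQN hN hNX
  have hG0 : (0 : ℝ) < G := by exact_mod_cast hG
  have hN1 : 1 ≤ N := by omega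
  have hX0 : 0 < X := lt_of_lt_of_le (by exact_mod_cast hN1) hNX
  obtain ⟨E, hE⟩ : ∃ E, E = 2 * Real.sqrt N * Real.log N + 2 * Q := ⟨_, rfl⟩
  have hE0 : 0 ≤ E := by
    rw [hE]
    have := Real.log_natCast_nonneg N
    positivity
  have h1 : ∑ v ∈ Icc 1 N, ((Fq Q v : ℝ) : ℂ) * (((th G s ((v : ℝ) - c) : ℝ) : ℂ) * ∑ k ∈ Icc 1 Q, mK a b k ((v : ℤ) - c)) =
      ∑ v ∈ Icc 1 N, ((Fq Q v : ℝ) : ℂ) * (((th G s ((v : ℝ) - c) : ℝ) : ℂ) * ∑ n ∈ Icc 1 Q, (GG (gp a b c) 1 n : ℂ)) +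
      ∑ v ∈ Icc 1 N, ((Fq Q v : ℝ) : ℂ) * (((th G s ((v : ℝ) - c) : ℝ) : ℂ) * ∑ f ∈ Icc 2 Q, ∑ ψ ∈ Prim f,
        (starRingEnd ℂ) (ψ (v : ZMod f)) * (Wd a b c ψ f / (f.totient : ℂ) * ∑ n ∈ Icc 1 (Q / f), (GG (gp a b c) f n : ℂ))) := by
    rw [← sum_add_distrib]
    apply sum_congr rfl
    intro v _
    by_cases hv : v.Prime ∧ Q < v
    · rw [← mul_add, ← mul_add]
      congr 2
      rw [mK_sum Q v (by
        intro k hk
        rw [mem_Icc] at hk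
        exact (Nat.Prime.coprime_iff_not_dvd hv.1).2 (fun h => by
          have := Nat.le_of_dvd (by omega) h
          omega))]
      have hI : Icc 1 Q = insert 1 (Icc 2 Q) := by
        ext n
        rw [mem_insert, mem_Icc, mem_Icc]
        omega
      have hn : (1 : ℕ) ∉ Icc 2 Q := by
        rw [mem_Icc]
        omega
      rw [hI, sum_insert hn, f_one, ← hI]
    · have : Fq Q v = 0 := by
        unfold Fq
        rw [if_neg hv]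
      rw [this]
      simp
  have h2 : ∑ v ∈ Icc 1 N, ((Fq Q v : ℝ) : ℂ) * (((th G s ((v : ℝ) - c) : ℝ) : ℂ) * ∑ n ∈ Icc 1 Q, (GG (gp a b c) 1 n : ℂ)) =
      (∑ v ∈ Icc 1 N, ((Fq Q v : ℝ) : ℂ) * ((th G s ((v : ℝ) - c) : ℝ) : ℂ)) * ∑ n ∈ Icc 1 Q, (GG (gp a b c) 1 n : ℂ) := by
    rw [sum_mul]
    apply sum_congr rfl
    intro v _
    ring
  rw [h1, h2, add_sub_cancel_left]
  have h3 : ∑ v ∈ Icc 1 N, ((Fq Q v : ℝ) : ℂ) * (((th G s ((v : ℝ) - c) : ℝ) : ℂ) * ∑ f ∈ Icc 2 Q, ∑ ψ ∈ Prim f,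
        (starRingEnd ℂ) (ψ (v : ZMod f)) * (Wd a b c ψ f / (f.totient : ℂ) * ∑ n ∈ Icc 1 (Q / f), (GG (gp a b c) f n : ℂ))) =
      ∑ f ∈ Icc 2 Q, ∑ ψ ∈ Prim f, (Wd a b c ψ f / (f.totient : ℂ) * ∑ n ∈ Icc 1 (Q / f), (GG (gp a b c) f n : ℂ)) *
        ∑ v ∈ Icc 1 N, ((Fq Q v : ℝ) : ℂ) * (starRingEnd ℂ) (ψ (v : ZMod f)) * ((th G s ((v : ℝ) - c) : ℝ) : ℂ) := by
    simp_rw [mul_sum (Icc 2 Q), mul_sum (Prim _)]
    rw [sum_comm]
    apply sum_congr rfl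
    intro f _
    rw [sum_comm]
    apply sum_congr rfl
    intro ψ _
    rw [mul_sum (Icc 1 N)]
    apply sum_congr rfl
    intro v _
    ring
  rw [h3]
  refine (norm_sum_le _ _).trans ?_
  have h4 : ∀ f ∈ Icc 2 Q, ‖∑ ψ ∈ Prim f, (Wd a b c ψ f / (f.totient : ℂ) * ∑ n ∈ Icc 1 (Q / f), (GG (gp a b c) f n : ℂ)) *
        ∑ v ∈ Icc 1 N, ((Fq Q v : ℝ) : ℂ) * (starRingEnd ℂ) (ψ (v : ZMod f)) * ((th G s ((v : ℝ) - c) : ℝ) : ℂ)‖ ≤
      C * (a : ℝ) ^ 2 * (1 + Real.log Q) ^ 2 * (8 * X / G * (Real.sqrt (Int.gcd (b ^ 2 - 4 * a * c) f) * wF X f) + (Q : ℝ) ^ 2 * E) := by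
    intro f hf
    have hf' := mem_Icc.1 hf
    have hf0 : 0 < f := by omega
    have hf1 : 1 ≤ f := hf0
    have hφ : (0 : ℝ) < f.totient := by exact_mod_cast Nat.totient_pos.2 hf0
    obtain ⟨g, hgd⟩ : ∃ g : ℝ, g = (Int.gcd (b ^ 2 - 4 * a * c) f : ℝ) := ⟨_, rfl⟩
    have hg0 : 0 ≤ g := by rw [hgd]; exact Nat.cast_nonneg _
    have hgf : g ≤ f := by
      rw [hgd]
      have h2 : Int.gcd (b ^ 2 - 4 * a * c) f ∣ f := by
        have h3 := Int.gcd_dvd_right (b ^ 2 - 4 * a * c) (f : ℤ)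
        exact_mod_cast h3
      exact_mod_cast Nat.le_of_dvd hf0 h2
    rw [← hgd]
    have h40 : ∀ ψ ∈ Prim f, ‖(Wd a b c ψ f / (f.totient : ℂ) * ∑ n ∈ Icc 1 (Q / f), (GG (gp a b c) f n : ℂ)) *
        ∑ v ∈ Icc 1 N, ((Fq Q v : ℝ) : ℂ) * (starRingEnd ℂ) (ψ (v : ZMod f)) * ((th G s ((v : ℝ) - c) : ℝ) : ℂ)‖ ≤
        C * (a : ℝ) ^ 2 * Real.sqrt g * (1 + Real.log Q) ^ 2 * ((f : ℝ) ^ (5 / 8 : ℝ) / (f.totient : ℝ)) * (8 * X / G * mx X f ψ + E) := by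
      intro ψ hψ
      rw [norm_mul]
      refine mul_le_mul ?_ ?_ (norm_nonneg _) (by positivity)
      · rw [norm_mul, norm_div, Complex.norm_natCast]
        have h5 := hW a b c ha f hf0 ψ hψ g hg0 (le_of_eq hgd.symm)
        have h6 : ‖∑ n ∈ Icc 1 (Q / f), (GG (gp a b c) f n : ℂ)‖ ≤ |(a : ℝ)| * (1 + Real.log Q) ^ 2 := by
          refine (norm_sum_le _ _).trans ?_
          refine le_trans (le_of_eq ?_) (GG_sum (b := b) (c := c) ha f (Nat.div_le_self Q f))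
          apply sum_congr rfl
          intro n _
          rw [Complex.norm_real, Real.norm_eq_abs]
        have h7 : ‖Wd a b c ψ f‖ / (f.totient : ℝ) ≤ C * |(a : ℝ)| * Real.sqrt g * (f : ℝ) ^ (5 / 8 : ℝ) / (f.totient : ℝ) :=
          div_le_div_of_nonneg_right h5 hφ.le
        calc ‖Wd a b c ψ f‖ / (f.totient : ℝ) * ‖∑ n ∈ Icc 1 (Q / f), (GG (gp a b c) f n : ℂ)‖ ≤
            (C * |(a : ℝ)| * Real.sqrt g * (f : ℝ) ^ (5 / 8 : ℝ) / (f.totient : ℝ)) * (|(a : ℝ)| * (1 + Real.log Q) ^ 2) := by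
              gcongr
          _ = _ := by
            rw [← sq_abs (a : ℝ)]
            ring
      · rw [hE]
        refine (one_char hG hN1 hQN hN f ψ).trans (add_le_add ?_ le_rfl)
        have hr : ∀ x : ℕ, x ≤ N → ‖RZ (x : ℝ) f ψ‖ ≤ 2 * X * mx X f ψ := by
          intro x hxN
          rcases Nat.eq_zero_or_pos x with h0 | h0
          · rw [h0, RZ_nat (Nat.zero_le N), sum_eq_zero]
            · rw [norm_zero]
              have := mx_nonneg X f ψ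
              positivity
            · intro v hv
              rw [mem_Icc] at hv
              have : (1 : ℝ) ≤ v := by exact_mod_cast hv.1
              rw [max_eq_right (by push_cast; linarith)]
              simp
          · exact RZ_mx (by exact_mod_cast h0) (le_trans (by exact_mod_cast hxN) hNX) f ψ
        have g1 := hr (c + s + G).toNat (by omega)
        have g2 := hr (c + s).toNat (by omega)
        have g3 := hr (c + G).toNat (by omega)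
        have g4 := hr c.toNat (by omega)
        rw [div_mul_eq_mul_div]
        apply div_le_div_of_nonneg_right _ hG0.le
        linarith
    refine (norm_sum_le _ _).trans ((sum_le_sum h40).trans ?_)
    rw [← mul_sum, sum_add_distrib, ← mul_sum]
    have h8 : ((f : ℝ) ^ (5 / 8 : ℝ) / (f.totient : ℝ)) * ∑ _ψ ∈ Prim f, E ≤ Q * E := by
      have hfQ : (f : ℝ) ≤ Q := by exact_mod_cast hf'.2
      rw [sum_const, nsmul_eq_mul]
      calc ((f : ℝ) ^ (5 / 8 : ℝ) / (f.totient : ℝ)) * (((Prim f).card : ℝ) * E) ≤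
          ((f : ℝ) ^ (5 / 8 : ℝ) / (f.totient : ℝ)) * ((f.totient : ℝ) * E) := by
            apply mul_le_mul_of_nonneg_left _ (by positivity)
            exact mul_le_mul_of_nonneg_right (card_prim_le hf1) hE0
        _ = (f : ℝ) ^ (5 / 8 : ℝ) * E := by field_simp
        _ ≤ Q * E := mul_le_mul_of_nonneg_right ((wt_le hf1).trans hfQ) hE0
    have h9 : Real.sqrt g ≤ Q := by
      have hfQ : (f : ℝ) ≤ Q := by exact_mod_cast hf'.2
      have hf1r : (1 : ℝ) ≤ f := by exact_mod_cast hf1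
      refine le_trans ?_ hfQ
      rw [Real.sqrt_le_left (by positivity)]
      exact hgf.trans (le_self_pow₀ hf1r (by norm_num))
    have h10 : 0 ≤ ((f : ℝ) ^ (5 / 8 : ℝ) / (f.totient : ℝ)) * ∑ _ψ ∈ Prim f, E :=
      mul_nonneg (by positivity) (sum_nonneg fun _ _ => hE0)
    calc C * (a : ℝ) ^ 2 * Real.sqrt g * (1 + Real.log Q) ^ 2 * ((f : ℝ) ^ (5 / 8 : ℝ) / (f.totient : ℝ)) *
          (8 * X / G * ∑ ψ ∈ Prim f, mx X f ψ + ∑ _ψ ∈ Prim f, E) =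
        C * (a : ℝ) ^ 2 * (1 + Real.log Q) ^ 2 * (8 * X / G * (Real.sqrt g * wF X f) +
          Real.sqrt g * (((f : ℝ) ^ (5 / 8 : ℝ) / (f.totient : ℝ)) * ∑ _ψ ∈ Prim f, E)) := by
          unfold wF
          ring
      _ ≤ C * (a : ℝ) ^ 2 * (1 + Real.log Q) ^ 2 * (8 * X / G * (Real.sqrt g * wF X f) + Q * (Q * E)) := by gcongr
      _ = _ := by ring
  refine (sum_le_sum h4).trans ?_
  rw [← mul_sum, sum_add_distrib, ← mul_sum]
  apply mul_le_mul_of_nonneg_left _ (by positivity)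
  apply add_le_add
  · exact le_rfl
  · rw [sum_const, nsmul_eq_mul, ← hE, Nat.card_Icc]
    have h5 : ((Q + 1 - 2 : ℕ) : ℝ) ≤ Q := by exact_mod_cast (by omega : Q + 1 - 2 ≤ Q)
    calc ((Q + 1 - 2 : ℕ) : ℝ) * ((Q : ℝ) ^ 2 * E) ≤ Q * ((Q : ℝ) ^ 2 * E) := by gcongr
      _ = _ := by ring

end Pool.Agent.K7.H51.PT
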