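import Mathlib
import Pool.Agent.K7.H51.PT.Nc

set_option autoImplicit false

/-! The main term for one constant term, of any sign, and the bad moduli. -/

namespace Pool.Agent.K7.H51.PT

open Finset Filter Topology
open Pool.Agent.K7.H51.PS

/-- the sums of the linear functions -/
noncomputable def tau (x : ℤ) : ℝ := ((x.toNat : ℕ) : ℝ) * (((x.toNat : ℕ) : ℝ) - 1) / 2

lemma tau_pos {x : ℤ} (hx : 0 ≤ x) : tau x = (x : ℝ) * (x - 1) / 2 := by
  unfold tau
  have : ((x.toNat : ℕ) : ℝ) = x := by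
    have : ((x.toNat : ℤ) : ℝ) = x := by rw [Int.toNat_of_nonneg hx]
    exact_mod_cast this
  rw [this]

lemma tau_neg {x : ℤ} (hx : x ≤ 0) : tau x = 0 := by
  unfold tau
  rw [Int.toNat_eq_zero.2 hx]
  simp

lemma tau_bd {x : ℤ} {G : ℕ} (hx : x ≤ G) : 0 ≤ tau x ∧ tau x ≤ (G : ℝ) * G / 2 := by
  rcases le_total x 0 with h | h
  · rw [tau_neg h]
    constructor <;> positivity
  · unfold tau
    have h1 : x.toNat ≤ G := by omega
    have h2 : ((x.toNat : ℕ) : ℝ) ≤ G := by exact_mod_cast h1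
    rcases Nat.eq_zero_or_pos x.toNat with h3 | h3
    · rw [h3]
      constructor
      · simp
      · simp
        positivity
    · have h4 : (1 : ℝ) ≤ ((x.toNat : ℕ) : ℝ) := by exact_mod_cast h3
      constructor
      · have : 0 ≤ ((x.toNat : ℕ) : ℝ) - 1 := by linarith
        positivity
      · have : ((x.toNat : ℕ) : ℝ) * (((x.toNat : ℕ) : ℝ) - 1) ≤ G * G := by
          apply mul_le_mul h2 (by linarith) (by linarith) (by positivity)
        linarith

lemma sum_th {c : ℤ} {s G N : ℕ} (hG : 1 ≤ G) (hN : c + s + G ≤ N) :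
    |∑ v ∈ Icc 1 N, th G s ((v : ℝ) - c) - max ((s : ℝ) + min (c : ℝ) 0) 0| ≤ G := by
  have hG0 : (0 : ℝ) < G := by exact_mod_cast hG
  have h1 : ∑ v ∈ Icc 1 N, th G s ((v : ℝ) - c) = (tau (c + s + G) - tau (c + s) - tau (c + G) + tau c) / G := by
    have h2 : ∀ v ∈ Icc 1 N, th G s ((v : ℝ) - c) =
        (max ((((c + s + G).toNat : ℕ) : ℝ) - v) 0 - max ((((c + s).toNat : ℕ) : ℝ) - v) 0 -
          max ((((c + G).toNat : ℕ) : ℝ) - v) 0 + max (((c.toNat : ℕ) : ℝ) - v) 0) / G := by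
      intro v hv
      rw [mem_Icc] at hv
      exact th_eq c s G hv.1
    rw [sum_congr rfl h2, ← sum_div, sum_add_distrib, sum_sub_distrib, sum_sub_distrib, sum_max (by omega),
      sum_max (by omega), sum_max (by omega), sum_max (by omega)]
    rfl
  rw [h1]
  have hs0 : (0 : ℝ) ≤ s := Nat.cast_nonneg _
  rcases le_or_gt 0 c with hc | hc
  · have hcr : (0 : ℝ) ≤ c := by exact_mod_cast hc
    rw [tau_pos hc, tau_pos (by omega), tau_pos (by omega), tau_pos (by omega), min_eq_right hcr, add_zero, max_eq_left hs0]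
    have : (((c + s + G : ℤ) : ℝ) * (((c + s + G : ℤ) : ℝ) - 1) / 2 - ((c + s : ℤ) : ℝ) * (((c + s : ℤ) : ℝ) - 1) / 2 -
        ((c + G : ℤ) : ℝ) * (((c + G : ℤ) : ℝ) - 1) / 2 + (c : ℝ) * (c - 1) / 2) / G - s = 0 := by
      push_cast
      field_simp
      ring
    rw [this, abs_zero]
    exact hG0.le
  · have hcr : (c : ℝ) ≤ 0 := by exact_mod_cast hc.le
    rw [tau_neg hc.le, min_eq_left hcr, add_zero]
    obtain ⟨t1, t2⟩ := tau_bd (x := c + G) (G := G) (by omega)
    rcases le_or_gt 0 (c + s) with hA | hA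
    · have hAr : (0 : ℝ) ≤ s + c := by
        have : (0 : ℝ) ≤ ((c + s : ℤ) : ℝ) := by exact_mod_cast hA
        push_cast at this
        linarith
      rw [max_eq_left hAr, tau_pos hA, tau_pos (by omega)]
      have e : (((c + s + G : ℤ) : ℝ) * (((c + s + G : ℤ) : ℝ) - 1) / 2 - ((c + s : ℤ) : ℝ) * (((c + s : ℤ) : ℝ) - 1) / 2 -
          tau (c + G)) / G - (s + c) = (G - 1) / 2 - tau (c + G) / G := by
        push_cast
        field_simp
        ring
      rw [e]
      have t3 : tau (c + G) / G ≤ (G : ℝ) / 2 := by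
        rw [div_le_iff₀ hG0]
        linarith
      have t4 : 0 ≤ tau (c + G) / G := by positivity
      have hG1 : (1 : ℝ) ≤ G := by exact_mod_cast hG
      rw [abs_le]
      constructor <;> linarith
    · have hAr : (s : ℝ) + c ≤ 0 := by
        have : ((c + s : ℤ) : ℝ) ≤ 0 := by exact_mod_cast hA.le
        push_cast at this
        linarith
      rw [max_eq_right hAr, tau_neg hA.le, sub_zero, sub_zero]
      obtain ⟨u1, u2⟩ := tau_bd (x := c + s + G) (G := G) (by omega)
      rw [abs_div, abs_of_pos hG0, div_le_iff₀ hG0, abs_le]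
      constructor
      · have : 0 ≤ (G : ℝ) * G := by positivity
        linarith
      · have : 0 ≤ (G : ℝ) * G := by positivity
        linarith

/-- the main term for one constant term -/
lemma main_part {c : ℤ} {s G N Q : ℕ} {E : ℝ} (hG : 1 ≤ G) (hN1 : 1 ≤ N) (hN : c + s + G ≤ N)
    (hE : ∀ y ≤ N, |∑ v ∈ Icc 1 y, (Fq Q v - 1)| ≤ E) :
    |∑ v ∈ Icc 1 N, Fq Q v * th G s ((v : ℝ) - c) - max ((s : ℝ) + min (c : ℝ) 0) 0| ≤ E * (1 + 4 * N / G) + G := by
  have hG0 : (0 : ℝ) < G := by exact_mod_cast hG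
  have hE0 : 0 ≤ E := (abs_nonneg _).trans (hE 0 (Nat.zero_le _))
  have h1 : ∑ v ∈ Icc 1 N, Fq Q v * th G s ((v : ℝ) - c) - max ((s : ℝ) + min (c : ℝ) 0) 0 =
      ∑ v ∈ Icc 1 N, th G s ((v : ℝ) - c) * (Fq Q v - 1) +
        (∑ v ∈ Icc 1 N, th G s ((v : ℝ) - c) - max ((s : ℝ) + min (c : ℝ) 0) 0) := by
    rw [← add_sub_assoc, ← sum_add_distrib]
    congr 1
    apply sum_congr rfl
    intro v _
    ring
  obtain ⟨n, rfl⟩ : ∃ n, N = n + 1 := ⟨N - 1, by omega⟩
  have hre : ∀ (k : ℕ) (h : ℕ → ℝ), ∑ v ∈ Icc 1 k, h v = ∑ m ∈ range k, h (m + 1) := by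
    intro k h
    have e : Icc 1 k = Ico 1 (k + 1) := rfl
    rw [e, sum_Ico_eq_sum_range, Nat.add_sub_cancel]
    apply sum_congr rfl
    intro m _
    rw [add_comm]
  rw [h1]
  refine (abs_add_le _ _).trans (add_le_add ?_ (sum_th hG hN))
  rw [hre]
  refine (abelR (fun m => th G s (((m + 1 : ℕ) : ℝ) - c)) (fun m => Fq Q (m + 1) - 1) n E ?_).trans ?_
  · intro k hk
    rw [← hre k (fun v => Fq Q v - 1)]
    exact hE k hk
  · apply mul_le_mul_of_nonneg_left _ hE0
    apply add_le_add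
    · rw [abs_of_nonneg (th_nonneg hG0 (Nat.cast_nonneg s) _)]
      exact th_le_one hG0 (Nat.cast_nonneg s) _
    · have h2 : ∀ m ∈ range n, |th G s (((m + 1 + 1 : ℕ) : ℝ) - c) - th G s (((m + 1 : ℕ) : ℝ) - c)| ≤ 4 / G := by
        intro m _
        refine (th_lip hG0 _ _).trans ?_
        have e : |(((m + 1 + 1 : ℕ) : ℝ) - c) - (((m + 1 : ℕ) : ℝ) - c)| = 1 := by
          push_cast
          rw [show ((m : ℝ) + 1 + 1 - c - (m + 1 - c)) = 1 by ring, abs_one]
        rw [e, mul_one]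
      refine (sum_le_sum h2).trans ?_
      rw [sum_const, card_range, nsmul_eq_mul]
      push_cast
      rw [← mul_div_assoc]
      apply div_le_div_of_nonneg_right _ hG0.le
      linarith

/-- the distribution of the primes beyond `Q` -/
theorem theta_unif (κ : ℝ) (U : ℕ) : ∀ᶠ N : ℕ in atTop, ∀ Q : ℕ, (Q : ℝ) ≤ (N : ℝ) ^ (1 / 2 : ℝ) →
    ∀ y : ℕ, (y : ℝ) ≤ κ * N → |∑ v ∈ Icc 1 y, (Fq Q v - 1)| ≤ N / Real.log N ^ U := by
  obtain ⟨C, hC, hθ⟩ := Pool.Agent.H442R2.EHI.PntErrAux.thetaU (U + 1)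
  have hcast : Tendsto (fun n : ℕ => (n : ℝ)) atTop atTop := tendsto_natCast_atTop_atTop
  have hlog : Tendsto (fun n : ℕ => Real.log (n : ℝ)) atTop atTop := Real.tendsto_log_atTop.comp hcast
  filter_upwards [hcast.eventually (Pool.Agent.H398R2.BV.ev_log 4 U (1 / 2) (by norm_num)),
    hcast.eventually (Pool.Agent.H398R2.BV.ev_log 4 (1 + U) (1 / 4) (by norm_num)),
    hlog.eventually_ge_atTop (2 * C * |κ| * 2 ^ (U + 1)),
    hlog.eventually_ge_atTop 2, eventually_ge_atTop 16] with N h1 h1' h2 h3 h5 Q hQ y hy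
  obtain ⟨L, hL⟩ : ∃ L, L = Real.log (N : ℝ) := ⟨_, rfl⟩
  rw [← hL] at h1 h1' h2 h3 ⊢
  have hL0 : 0 < L := by linarith
  have hN0 : (0 : ℝ) < N := by exact_mod_cast (by omega : 0 < N)
  have hN1 : (1 : ℝ) ≤ N := by exact_mod_cast (by omega : 1 ≤ N)
  have hN16 : (16 : ℝ) ≤ N := by exact_mod_cast h5
  have hQs : (Q : ℝ) ≤ (N : ℝ) ^ (1 / 2 : ℝ) := hQ
  have hsq : Real.sqrt N = (N : ℝ) ^ (1 / 2 : ℝ) := Real.sqrt_eq_rpow _
  have hss : Real.sqrt N * Real.sqrt N = N := Real.mul_self_sqrt hN0.le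
  rw [← hsq] at h1 hQs
  have hs4 : 4 ≤ Real.sqrt N := by
    apply Real.le_sqrt_of_sq_le
    linarith
  rcases le_or_gt (Real.sqrt N) y with hcase | hcase
  · have hQy : Q ≤ y := by exact_mod_cast hQs.trans hcase
    have hy2 : 2 ≤ y := by
      have : (4 : ℝ) ≤ y := hs4.trans hcase
      have : 4 ≤ y := by exact_mod_cast this
      omega
    have hy0 : (0 : ℝ) < y := by exact_mod_cast (by omega : 0 < y)
    rw [sum_sub_distrib, sum_Fq Q y hQy]
    have e1 : ∑ _v ∈ Icc 1 y, (1 : ℝ) = y := by simp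
    rw [e1]
    have h6 := hθ y hy2
    have h7 := Chebyshev.theta_le_log4_mul_x (x := (Q : ℝ)) (Nat.cast_nonneg _)
    have h70 := Chebyshev.theta_nonneg (Q : ℝ)
    have h8 : Real.log 4 ≤ 2 := by
      have h9 : Real.log 4 = 2 * Real.log 2 := by
        rw [show (4 : ℝ) = 2 ^ 2 by norm_num, Real.log_pow]
        norm_num
      have := Real.log_two_lt_d9
      rw [h9]
      linarith
    have h9 : Real.log 4 * Q ≤ 2 * Q := mul_le_mul_of_nonneg_right h8 (Nat.cast_nonneg _)
    have hlt : L / 2 ≤ Real.log y := by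
      have := Real.log_le_log (Real.sqrt_pos.2 hN0) hcase
      rw [Real.log_sqrt hN0.le] at this
      rw [hL]
      exact this
    have hL2 : 0 < L / 2 := by linarith
    have hκ : (y : ℝ) ≤ |κ| * N := hy.trans (mul_le_mul_of_nonneg_right (le_abs_self κ) hN0.le)
    have h10 : C * (y / Real.log y ^ (U + 1)) ≤ (1 / 2) * (N / L ^ U) := by
      calc C * (y / Real.log y ^ (U + 1)) ≤ C * ((|κ| * N) / (L / 2) ^ (U + 1)) := by
            apply mul_le_mul_of_nonneg_left _ hC.le
            apply div_le_div₀ (by positivity) hκ (by positivity)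
            exact pow_le_pow_left₀ hL2.le hlt _
        _ = ((2 * C * |κ| * 2 ^ (U + 1)) / L) * ((1 / 2) * (N / L ^ U)) := by
            rw [div_pow, pow_succ L U]
            field_simp
        _ ≤ 1 * ((1 / 2) * (N / L ^ U)) := by
            apply mul_le_mul_of_nonneg_right _ (by positivity)
            rw [div_le_one hL0]
            exact h2
        _ = _ := one_mul _
    have h11 : 2 * (Q : ℝ) ≤ (1 / 2) * (N / L ^ U) := by
      have h12 : 4 * Real.sqrt N ≤ N / L ^ U := by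
        rw [le_div_iff₀ (by positivity)]
        calc 4 * Real.sqrt N * L ^ U = (4 * L ^ U) * Real.sqrt N := by ring
          _ ≤ Real.sqrt N * Real.sqrt N := by gcongr
          _ = N := hss
      linarith
    rw [abs_le] at h6 ⊢
    constructor <;> linarith [h6.1, h6.2]
  · have h6 : |∑ v ∈ Icc 1 y, (Fq Q v - 1)| ≤ ∑ v ∈ Icc 1 y, (L + 1) := by
      refine (abs_sum_le_sum_abs _ _).trans (sum_le_sum fun v hv => ?_)
      rw [mem_Icc] at hv
      have hv0 : (0 : ℝ) < v := by exact_mod_cast hv.1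
      have h7 := Fq_nonneg Q v
      have h8 := Fq_le_log Q (v := v)
      have h9 : Real.log v ≤ L := by
        rw [hL]
        apply Real.log_le_log hv0
        have : (v : ℝ) ≤ y := by exact_mod_cast hv.2
        nlinarith
      rw [abs_le]
      constructor <;> linarith
    refine h6.trans ?_
    rw [sum_const, Nat.card_Icc, Nat.add_sub_cancel, nsmul_eq_mul]
    rw [le_div_iff₀ (by positivity)]
    calc (y : ℝ) * (L + 1) * L ^ U ≤ Real.sqrt N * (2 * L) * L ^ U := by
          gcongr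
          linarith
      _ = Real.sqrt N * (2 * L ^ (1 + U)) := by rw [pow_add]; ring
      _ ≤ Real.sqrt N * (N : ℝ) ^ (1 / 4 : ℝ) := by
          apply mul_le_mul_of_nonneg_left _ (Real.sqrt_nonneg _)
          have : 0 ≤ L ^ (1 + U) := by positivity
          linarith
      _ ≤ Real.sqrt N * Real.sqrt N := by
          apply mul_le_mul_of_nonneg_left _ (Real.sqrt_nonneg _)
          rw [hsq]
          exact Real.rpow_le_rpow_of_exponent_le hN1 (by norm_num)
      _ = N := hss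

end Pool.Agent.K7.H51.PT
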