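import Mathlib
import Pool.Agent.K7.H51.PT.Mc
import Pool.Agent.K7.H51.PT.Pb
import Pool.Agent.H343R2.EH.BVLog

set_option autoImplicit false

/-! The bad moduli. -/

namespace Pool.Agent.K7.H51.PT

open Finset Filter Topology
open Pool.Agent.K7.H51.PS (wG wD wM wF wF_nonneg wM_main wG_sum wD_le)

/-- the bad moduli -/
noncomputable def bad (l : Lv) (A : ℕ) (N : ℕ) : Finset ℕ := by
  classical
  exact (Icc 1 (pQ l N)).filter (fun g => (N : ℝ) / Real.log N ^ A < wG (N * Real.log N) (pQ l N) g)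

lemma wG_nonneg (X : ℝ) (Q g : ℕ) : 0 ≤ wG X Q g := by
  unfold wG
  exact mul_nonneg (Real.sqrt_nonneg _) (sum_nonneg fun f _ => wF_nonneg X f)

lemma pQ_root (l : Lv) {N : ℕ} (hN : 1 ≤ N) : (pQ l N : ℝ) ≤ (N : ℝ) ^ ((l.r : ℝ) / l.k) := by
  have hN0 : (0 : ℝ) ≤ N := Nat.cast_nonneg _
  have q2 := l.k10
  have hk0 : (0 : ℝ) < l.k := by exact_mod_cast (by omega : 0 < l.k)
  have h1 : (pQ l N : ℝ) ≤ xx l N ^ (2 * l.r) := by
    unfold pQ
    apply Nat.floor_le
    unfold xx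
    positivity
  refine h1.trans (le_of_eq ?_)
  unfold xx
  rw [← Real.rpow_natCast, ← Real.rpow_mul hN0]
  congr 1
  push_cast
  field_simp

lemma rk_le (l : Lv) : (l.r : ℝ) / l.k ≤ 1 / 10 := by
  have q2 := l.k10
  have hk0 : (0 : ℝ) < l.k := by exact_mod_cast (by omega : 0 < l.k)
  rw [div_le_div_iff₀ hk0 (by norm_num)]
  have : 10 * l.r ≤ l.k := by omega
  have : (10 : ℝ) * l.r ≤ l.k := by exact_mod_cast this
  linarith

lemma bad_sub (l : Lv) (A N : ℕ) (hN : 1 ≤ N) : ∀ g ∈ bad l A N, 1 ≤ g ∧ (g : ℝ) ≤ (N : ℝ) ^ ((l.r : ℝ) / l.k) := by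
  intro g hg
  unfold bad at hg
  rw [mem_filter, mem_Icc] at hg
  exact ⟨hg.1.1, le_trans (by exact_mod_cast hg.1.2) (pQ_root l hN)⟩

lemma bad_sum (l : Lv) (A U : ℕ) : ∀ᶠ N : ℕ in atTop, ∑ g ∈ bad l A N, 1 / (g : ℝ) ≤ 1 / Real.log N ^ U := by
  obtain ⟨C, hC, hsum⟩ := wG_sum
  obtain ⟨X₀, hX₀⟩ := wM_main H343E.sw (A + U + 2)
  have hcast : Tendsto (fun n : ℕ => (n : ℝ)) atTop atTop := tendsto_natCast_atTop_atTop
  have hlog : Tendsto (fun n : ℕ => Real.log (n : ℝ)) atTop atTop := Real.tendsto_log_atTop.comp hcast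
  filter_upwards [hcast.eventually_ge_atTop X₀, hlog.eventually_ge_atTop (C + 1), eventually_ge_atTop 3] with N h1 h2 h3
  have hN0 : (0 : ℝ) < N := by exact_mod_cast (by omega : 0 < N)
  have hN1 : (1 : ℝ) ≤ N := by exact_mod_cast (by omega : 1 ≤ N)
  obtain ⟨L, hL⟩ : ∃ L, L = Real.log (N : ℝ) := ⟨_, rfl⟩
  rw [← hL] at h2 ⊢
  have hL1 : 1 ≤ L := by linarith
  have hL0 : 0 < L := by linarith
  obtain ⟨X, hX⟩ : ∃ X : ℝ, X = N * L := ⟨_, rfl⟩
  have hNX : (N : ℝ) ≤ X := by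
    rw [hX]
    exact le_mul_of_one_le_right hN0.le hL1
  have hlogX : L ≤ Real.log X := by
    rw [hL]
    exact Real.log_le_log hN0 hNX
  have hQ : (pQ l N : ℝ) ≤ X ^ (1 / 8 : ℝ) := by
    refine (pQ_root l (by omega)).trans ?_
    refine (Real.rpow_le_rpow_of_exponent_le hN1 ((rk_le l).trans (by norm_num : (1 : ℝ) / 10 ≤ 1 / 8))).trans ?_
    exact Real.rpow_le_rpow hN0.le hNX (by norm_num)
  have h4 := hX₀ X (h1.trans hNX) (pQ l N) hQ
  have h5 := hsum X (pQ l N)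
  have h6 : ∑ g ∈ bad l A N, 1 / (g : ℝ) ≤ (L ^ A / N) * ∑ g ∈ Icc 1 (pQ l N), wG X (pQ l N) g / g := by
    rw [mul_sum]
    refine le_trans ?_ (sum_le_sum_of_subset_of_nonneg (s := bad l A N) ?_ ?_)
    · apply sum_le_sum
      intro g hg
      unfold bad at hg
      rw [mem_filter, mem_Icc, ← hL, ← hX] at hg
      have hg0 : (0 : ℝ) < g := by exact_mod_cast hg.1.1
      have h7 : 1 ≤ L ^ A / N * wG X (pQ l N) g := by
        have h8 := mul_le_mul_of_nonneg_left hg.2.le (show (0 : ℝ) ≤ L ^ A / N by positivity)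
        have h9 : L ^ A / N * (N / L ^ A) = 1 := by field_simp
        linarith
      rw [← mul_div_assoc]
      exact div_le_div_of_nonneg_right h7 hg0.le
    · unfold bad
      exact filter_subset _ _
    · intro g _ _
      have := wG_nonneg X (pQ l N) g
      positivity
  refine h6.trans ?_
  have h10 : X / Real.log X ^ (A + U + 2) ≤ X / L ^ (A + U + 2) := by
    apply div_le_div_of_nonneg_left (by linarith) (by positivity)
    exact pow_le_pow_left₀ hL0.le hlogX _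
  calc (L ^ A / N) * ∑ g ∈ Icc 1 (pQ l N), wG X (pQ l N) g / g ≤ (L ^ A / N) * (C * (X / L ^ (A + U + 2))) := by
        apply mul_le_mul_of_nonneg_left _ (by positivity)
        refine h5.trans ?_
        exact mul_le_mul_of_nonneg_left (h4.trans h10) hC.le
    _ = C / (L * L ^ U) := by
        rw [hX, show A + U + 2 = A + (U + (1 + 1)) by ring, pow_add, pow_add, pow_add, pow_one]
        field_simp
    _ ≤ 1 / L ^ U := by
        rw [div_le_div_iff₀ (by positivity) (by positivity)]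
        have : 0 < L ^ U := by positivity
        nlinarith

/-- a good discriminant -/
lemma wD_bound (l : Lv) (A N : ℕ) {D : ℤ} {Y : ℝ}
    (h1 : (#((Icc 1 (pQ l N)).filter (fun g : ℕ => (g : ℤ) ∣ D)) : ℝ) ≤ Y)
    (h2 : ∀ g ∈ bad l A N, ¬ (g : ℤ) ∣ D) : wD (N * Real.log N) (pQ l N) D ≤ Y * (N / Real.log N ^ A) := by
  refine (wD_le _ _ _).trans ?_
  have h3 : ∀ g ∈ (Icc 1 (pQ l N)).filter (fun g : ℕ => (g : ℤ) ∣ D), wG (N * Real.log N) (pQ l N) g ≤ N / Real.log N ^ A := by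
    intro g hg
    rw [mem_filter] at hg
    by_contra hcon
    push Not at hcon
    apply h2 g _ hg.2
    unfold bad
    rw [mem_filter]
    exact ⟨hg.1, hcon⟩
  refine (sum_le_sum h3).trans ?_
  rw [sum_const, nsmul_eq_mul]
  exact mul_le_mul_of_nonneg_right h1 (by positivity)

end Pool.Agent.K7.H51.PT
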