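import Mathlib
import Pool.Agent.K7.H51.PT.As2

set_option autoImplicit false

/-! The values of the polynomial. -/

namespace Pool.Agent.K7.H51.PT

open Finset Filter
open Pool.Agent.R460.SB (Sz fv)
open Pool.Agent.R460.SQ (thp)
open Pool.Agent.K7.H51.PS (qf kk pM pN pG pJ k2 floor_half TS wt Fq Fe b0 qf_abs TS_mean wey Fq_nonneg Fq_le_log pJ_le qf_pos
  th_right fv_qf VV EE qf_mono qf_succ dq_pos dq_le dq th th_nonneg th_le_one thp_nonneg thp_le_log)

lemma qf_inj {a b : ℤ} (ha : 1 ≤ a) {m m' : ℕ} (h1 : b.natAbs + 1 ≤ m) (h2 : m < m') : qf a b m < qf a b m' := by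
  have h3 := dq_pos (b := b) ha (m := m + 1) (by omega)
  have h4 := qf_succ (a := a) (b := b) m
  have h5 := qf_mono (b := b) ha (by omega : b.natAbs ≤ m + 1) (by omega : m + 1 ≤ m')
  push_cast at h3
  have h6 : (0 : ℤ) ≤ m := Int.natCast_nonneg _
  linarith

lemma sum_le_N' {l : Lv} {a b : ℤ} {g N : ℕ} (h : PP l a b g N) {c : ℤ} {j : ℕ} (hc : c ≤ N) (hj : j ≤ pJ a b g N) :
    c + (j * pG g N : ℕ) + pG g N ≤ pN a b N := by
  have hG := pG_le h
  have h2 := pJ_le hj
  have h3 : pN a b N = (a.natAbs + b.natAbs) * N + 3 * N := by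
    unfold pN kk
    ring
  omega

lemma val_part' {l : Lv} {a b : ℤ} (ha : 1 ≤ a) {g N : ℕ} (h : PP l a b g N) {c : ℤ} {j : ℕ} (hc : c ≤ N) (hj : j ≤ pJ a b g N) :
    |∑ m ∈ Icc 1 (pM a b N), wt a b (pG g N) ((j : ℝ) * pG g N) m * Fe (Fq (pQ l N)) (pN a b N) (c + qf a b m) -
    ∑ m ∈ Icc 1 (pM a b N), wt a b (pG g N) ((j : ℝ) * pG g N) m * thp (fv (-a) (-b) c m).toNat| ≤
      (pQ l N : ℝ) * (((2 * a * pM a b N + b.natAbs : ℤ) : ℝ) * Real.log (pQ l N)) := by
  classical
  have hG0 : (0 : ℝ) < pG g N := by exact_mod_cast h.G0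
  have hs0 : (0 : ℝ) ≤ (j : ℝ) * pG g N := by positivity
  have hD0 : (0 : ℝ) ≤ ((2 * a * pM a b N + b.natAbs : ℤ) : ℝ) := by
    have : (0 : ℤ) ≤ 2 * a * pM a b N + b.natAbs := by positivity
    exact_mod_cast this
  have hlQ : 0 ≤ Real.log (pQ l N) := Real.log_natCast_nonneg _
  have hthp0 : thp 0 = 0 := by
    unfold thp
    simp
  obtain ⟨S, hS⟩ : ∃ S, S = (Icc 1 (pM a b N)).filter (fun m => b.natAbs + 1 ≤ m ∧ 1 ≤ c + qf a b m ∧ c + qf a b m ≤ pQ l N) := ⟨_, rfl⟩
  have hterm : ∀ m ∈ Icc 1 (pM a b N), |wt a b (pG g N) ((j : ℝ) * pG g N) m * Fe (Fq (pQ l N)) (pN a b N) (c + qf a b m) -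
      wt a b (pG g N) ((j : ℝ) * pG g N) m * thp (fv (-a) (-b) c m).toNat| ≤
      if b.natAbs + 1 ≤ m ∧ 1 ≤ c + qf a b m ∧ c + qf a b m ≤ pQ l N then
        ((2 * a * pM a b N + b.natAbs : ℤ) : ℝ) * Real.log (pQ l N) else 0 := by
    intro m hm
    rw [mem_Icc] at hm
    have hR0 : 0 ≤ (if b.natAbs + 1 ≤ m ∧ 1 ≤ c + qf a b m ∧ c + qf a b m ≤ pQ l N then
        ((2 * a * pM a b N + b.natAbs : ℤ) : ℝ) * Real.log (pQ l N) else 0) := by
      split_ifs
      · positivity
      · exact le_rfl
    by_cases h1 : b.natAbs + 1 ≤ m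
    · by_cases h3 : (j : ℝ) * pG g N + pG g N ≤ (qf a b m : ℝ)
      · have h4 : wt a b (pG g N) ((j : ℝ) * pG g N) m = 0 := by
          unfold wt
          rw [if_pos h1, th_right hG0 hs0 h3, mul_zero]
        rw [h4, zero_mul, zero_mul, sub_zero, abs_zero]
        exact hR0
      · push Not at h3
        have h5 : qf a b m < ((j * pG g N + pG g N : ℕ) : ℤ) := by
          have : (qf a b m : ℝ) < (((j * pG g N + pG g N : ℕ) : ℤ) : ℝ) := by
            push_cast
            exact h3
          exact_mod_cast this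
        have h6 := sum_le_N' h hc hj
        obtain ⟨jg, hjg⟩ : ∃ jg, jg = j * pG g N := ⟨_, rfl⟩
        rw [← hjg] at h5 h6
        rw [← mul_sub, fv_qf]
        obtain ⟨v, hv⟩ : ∃ v, v = c + qf a b m := ⟨_, rfl⟩
        rw [← hv]
        rcases le_or_gt v 0 with h7 | h7
        · have e1 : Fe (Fq (pQ l N)) (pN a b N) v = 0 := by
            unfold Fe
            rw [if_neg (by omega)]
          have e2 : v.toNat = 0 := Int.toNat_eq_zero.2 h7
          rw [e1, e2, hthp0, sub_zero, mul_zero, abs_zero, hv]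
          exact hR0
        · have e1 : Fe (Fq (pQ l N)) (pN a b N) v = Fq (pQ l N) v.toNat := by
            unfold Fe
            rw [if_pos ⟨by omega, by omega⟩]
          rw [e1]
          rcases lt_or_ge (pQ l N) v.toNat with h8 | h8
          · have e2 : Fq (pQ l N) v.toNat = thp v.toNat := by
              unfold Fq thp
              simp only [h8, and_true]
            rw [e2, sub_self, mul_zero, abs_zero, hv]
            exact hR0
          · have e2 : Fq (pQ l N) v.toNat = 0 := by
              unfold Fq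
              rw [if_neg (by omega)]
            rw [e2, zero_sub, if_pos ⟨h1, by omega, by omega⟩, abs_mul, abs_neg]
            apply mul_le_mul _ _ (abs_nonneg _) hD0
            · unfold wt
              rw [if_pos h1, abs_mul]
              have d1 := dq_pos (b := b) ha h1
              have d0 : (0 : ℤ) ≤ dq a b m := le_trans (Int.natCast_nonneg _) d1
              have d2 := dq_le (b := b) ha hm.2
              have d3 : |(dq a b m : ℝ)| ≤ ((2 * a * pM a b N + b.natAbs : ℤ) : ℝ) := by
                rw [abs_of_nonneg (by exact_mod_cast d0)]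
                exact_mod_cast d2
              have d4 : |th (pG g N) ((j : ℝ) * pG g N) (qf a b m)| ≤ 1 := by
                rw [abs_of_nonneg (th_nonneg hG0 hs0 _)]
                exact th_le_one hG0 hs0 _
              calc |(dq a b m : ℝ)| * |th (pG g N) ((j : ℝ) * pG g N) (qf a b m)| ≤
                  ((2 * a * pM a b N + b.natAbs : ℤ) : ℝ) * 1 := mul_le_mul d3 d4 (abs_nonneg _) hD0
                _ = _ := mul_one _
            · rw [abs_of_nonneg (thp_nonneg _)]
              refine (thp_le_log _).trans ?_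
              apply Real.log_le_log
              · exact_mod_cast (by omega : 0 < v.toNat)
              · exact_mod_cast h8
    · have h4 : wt a b (pG g N) ((j : ℝ) * pG g N) m = 0 := by
        unfold wt
        rw [if_neg h1]
      rw [h4, zero_mul, zero_mul, sub_zero, abs_zero]
      exact hR0
  rw [← sum_sub_distrib]
  refine (abs_sum_le_sum_abs _ _).trans ((sum_le_sum hterm).trans ?_)
  rw [← sum_filter, ← hS, sum_const, nsmul_eq_mul]
  apply mul_le_mul_of_nonneg_right _ (by positivity)
  have hcard : #S ≤ #(Icc (1 : ℤ) (pQ l N)) := by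
    apply card_le_card_of_injOn (fun m => c + qf a b m)
    · intro m hm
      rw [hS, mem_coe, mem_filter] at hm
      rw [mem_coe, mem_Icc]
      exact hm.2.2
    · intro m hm m' hm' he
      rw [hS, mem_coe, mem_filter] at hm hm'
      simp only at he
      rcases lt_trichotomy m m' with h1 | h1 | h1
      · have := qf_inj ha hm.2.1 h1
        linarith
      · exact h1
      · have := qf_inj ha hm'.2.1 h1
        linarith
  rw [Int.card_Icc] at hcard
  have : #S ≤ pQ l N := by omega
  exact_mod_cast this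

end Pool.Agent.K7.H51.PT
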