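import Mathlib
import Pool.Agent.K7.H51.PT.Vp
import Pool.Agent.K7.H51.PT.Bg

set_option autoImplicit false

/-! The weighted sums of prime values, for one constant term of any sign. -/

namespace Pool.Agent.K7.H51.PT

open Finset Filter
open Pool.Agent.R460.SB (Sz fv)
open Pool.Agent.R460.SQ (thp)
open Pool.Agent.K7.H51.PS (qf kk pM pN pG pJ k2 floor_half TS wt Fq Fe b0 qf_abs TS_mean wey Fq_nonneg Fq_le_log pJ_le qf_pos
  th_right fv_qf VV EE qf_mono qf_succ dq_pos dq_le dq th th_nonneg th_le_one thp_nonneg thp_le_log wD GG gp GG_sum TS_eval mK)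

/-- the size of the nonprincipal part -/
lemma err_np {C a κ L x N Q G lQ lN W : ℝ} {g T k r : ℕ} (hC : 0 < C) (ha : 1 ≤ a) (hκ : 1 ≤ κ) (hL : 1 ≤ L) (hx : 1 ≤ x)
    (hk : 6 * r + k + 3 ≤ 2 * k)
    (hxN : x ^ (2 * k) = N) (hQ0 : 0 ≤ Q) (hQ : Q ≤ x ^ (2 * r)) (hlQ0 : 0 ≤ lQ) (hlQ : lQ ≤ L) (hlN0 : 0 ≤ lN) (hlN : lN ≤ 2 * L)
    (hLx : L ≤ x ^ 2) (hG0 : 0 < G) (hG : N ≤ 2 * L ^ g * G) (hc : 128 * C * a ^ 2 * κ ≤ L) (hLx2 : L ^ (g + 4) ≤ x)
    (hW0 : 0 ≤ W) (hW : W ≤ L ^ T * (N / L ^ (2 * g + T + 6))) :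
    C * a ^ 2 * (1 + lQ) ^ 2 * (8 * (N * L) / G * W + Q ^ 3 * (2 * Real.sqrt (κ * N) * lN + 2 * Q)) ≤ N / L ^ (g + 1) := by
  have hx0 : 0 < x := by linarith
  have hL0 : 0 < L := by linarith
  have hN0 : 0 < N := by rw [← hxN]; positivity
  have hκ0 : 0 < κ := by linarith
  have ha0 : 0 < a := by linarith
  have h2 : (1 + lQ) ^ 2 ≤ (2 * L) ^ 2 := pow_le_pow_left₀ (by positivity) (by linarith) 2
  have h3 : 8 * (N * L) / G * W ≤ 16 * N * L ^ (g + 1) / L ^ (2 * g + 6) := by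
    rw [div_mul_eq_mul_div, div_le_iff₀ hG0]
    calc 8 * (N * L) * W ≤ 8 * (N * L) * (L ^ T * (N / L ^ (2 * g + T + 6))) := by gcongr
      _ = (8 * N * L / L ^ (2 * g + 6)) * N := by
          have e1 : L ^ (2 * g + T + 6) = L ^ T * L ^ (2 * g + 6) := by ring
          rw [e1]
          field_simp
      _ ≤ (8 * N * L / L ^ (2 * g + 6)) * (2 * L ^ g * G) := by gcongr
      _ = 16 * N * L ^ (g + 1) / L ^ (2 * g + 6) * G := by ring
  have h4 : Real.sqrt (κ * N) ≤ κ * x ^ k := by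
    rw [Real.sqrt_le_iff]
    refine ⟨by positivity, ?_⟩
    have e3 : (κ * x ^ k) ^ 2 = κ ^ 2 * x ^ (2 * k) := by rw [mul_pow, ← pow_mul, mul_comm k 2]
    rw [e3, hxN]
    apply mul_le_mul_of_nonneg_right _ hN0.le
    exact le_self_pow₀ hκ (by norm_num)
  have h5 : Q ^ 3 * (2 * Real.sqrt (κ * N) * lN + 2 * Q) ≤ 6 * κ * x ^ (6 * r + k + 2) := by
    have e4 : 2 * Real.sqrt (κ * N) * lN + 2 * Q ≤ 2 * (κ * x ^ k) * (2 * x ^ 2) + 2 * x ^ (2 * r) := by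
      have : lN ≤ 2 * x ^ 2 := by linarith
      gcongr
    have e5 : 2 * (κ * x ^ k) * (2 * x ^ 2) + 2 * x ^ (2 * r) ≤ 6 * κ * x ^ (k + 2) := by
      have e6 : x ^ (2 * r) ≤ x ^ (k + 2) := pow_le_pow_right₀ hx (by omega)
      have e7 : 1 * x ^ (k + 2) ≤ κ * x ^ (k + 2) := mul_le_mul_of_nonneg_right hκ (by positivity)
      have e8 : 2 * (κ * x ^ k) * (2 * x ^ 2) = 4 * (κ * x ^ (k + 2)) := by ring
      linarith
    calc Q ^ 3 * (2 * Real.sqrt (κ * N) * lN + 2 * Q) ≤ (x ^ (2 * r)) ^ 3 * (6 * κ * x ^ (k + 2)) := by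
          apply mul_le_mul (pow_le_pow_left₀ hQ0 hQ 3) (e4.trans e5) (by positivity) (by positivity)
      _ = 6 * κ * (x ^ (2 * r * 3) * x ^ (k + 2)) := by rw [← pow_mul]; ring
      _ = _ := by
          rw [← pow_add]
          congr 2
          ring
  have h6 : C * a ^ 2 * (1 + lQ) ^ 2 * (8 * (N * L) / G * W + Q ^ 3 * (2 * Real.sqrt (κ * N) * lN + 2 * Q)) ≤
      C * a ^ 2 * (2 * L) ^ 2 * (16 * N * L ^ (g + 1) / L ^ (2 * g + 6) + 6 * κ * x ^ (6 * r + k + 2)) := by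
    gcongr
  refine h6.trans ?_
  have h7 : C * a ^ 2 * (2 * L) ^ 2 * (16 * N * L ^ (g + 1) / L ^ (2 * g + 6)) = (128 * C * a ^ 2) * (N / (2 * L ^ (g + 3))) := by
    have e9 : L ^ (2 * g + 6) = L ^ 2 * L ^ (g + 1) * L ^ (g + 3) := by ring
    rw [e9]
    field_simp
    norm_num
  have h8 : (128 * C * a ^ 2) * (N / (2 * L ^ (g + 3))) ≤ N / (2 * L ^ (g + 1)) := by
    have e10 : 128 * C * a ^ 2 ≤ L := by
      have : 128 * C * a ^ 2 ≤ 128 * C * a ^ 2 * κ := le_mul_of_one_le_right (by positivity) hκ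
      linarith
    calc (128 * C * a ^ 2) * (N / (2 * L ^ (g + 3))) ≤ L * (N / (2 * L ^ (g + 3))) := by gcongr
      _ = N / (2 * L ^ (g + 2)) := by
          rw [pow_succ L (g + 2)]
          field_simp
      _ ≤ N / (2 * L ^ (g + 1)) := by
          apply div_le_div_of_nonneg_left hN0.le (by positivity)
          have : L ^ (g + 1) ≤ L ^ (g + 2) := pow_le_pow_right₀ hL (by omega)
          linarith
  have h9 : C * a ^ 2 * (2 * L) ^ 2 * (6 * κ * x ^ (6 * r + k + 2)) ≤ N / (2 * L ^ (g + 1)) := by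
    rw [le_div_iff₀ (by positivity)]
    calc C * a ^ 2 * (2 * L) ^ 2 * (6 * κ * x ^ (6 * r + k + 2)) * (2 * L ^ (g + 1)) =
        (48 * C * a ^ 2 * κ) * L ^ (g + 3) * x ^ (6 * r + k + 2) := by ring
      _ ≤ L * L ^ (g + 3) * x ^ (6 * r + k + 2) := by
          have : 0 < C * a ^ 2 * κ := by positivity
          have e10 : 48 * C * a ^ 2 * κ ≤ L := by linarith
          gcongr
      _ = L ^ (g + 4) * x ^ (6 * r + k + 2) := by ring
      _ ≤ x * x ^ (6 * r + k + 2) := by gcongr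
      _ = x ^ (6 * r + k + 3) := by ring
      _ ≤ x ^ (2 * k) := pow_le_pow_right₀ hx hk
      _ = N := hxN
  have h10 : N / (2 * L ^ (g + 1)) + N / (2 * L ^ (g + 1)) = N / L ^ (g + 1) := by
    field_simp
    norm_num
  rw [← h10, mul_add, h7]
  exact add_le_add h8 h9

/-- the small values -/
lemma err_val {K2 L x N Q D lQ : ℝ} {g k r : ℕ} (hK2 : 1 ≤ K2) (hL : 1 ≤ L) (hx : 1 ≤ x) (hk : k + 2 * r + 3 ≤ 2 * k)
    (hxN : x ^ (2 * k) = N) (hQ : Q ≤ x ^ (2 * r)) (hD0 : 0 ≤ D) (hD : D ≤ K2 * x ^ k) (hlQ0 : 0 ≤ lQ)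
    (hlQ : lQ ≤ L) (hc : K2 ≤ L) (hLx2 : L ^ (g + 4) ≤ x) :
    Q * (D * lQ) ≤ N / L ^ (g + 1) := by
  have hx0 : 0 < x := by linarith
  have hL0 : 0 < L := by linarith
  rw [le_div_iff₀ (by positivity)]
  calc Q * (D * lQ) * L ^ (g + 1) ≤ x ^ (2 * r) * ((K2 * x ^ k) * L) * L ^ (g + 1) := by gcongr
    _ = K2 * L ^ (g + 2) * (x ^ (2 * r) * x ^ k) := by ring
    _ ≤ L * L ^ (g + 2) * (x ^ (2 * r) * x ^ k) := by gcongr
    _ = L ^ (g + 3) * x ^ (2 * r + k) := by rw [← pow_add x]; ring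
    _ ≤ x * x ^ (2 * r + k) := by
        apply mul_le_mul_of_nonneg_right _ (by positivity)
        exact (pow_le_pow_right₀ hL (by omega)).trans hLx2
    _ = x ^ (2 * r + k + 1) := by ring
    _ ≤ x ^ (2 * k) := pow_le_pow_right₀ hx (by omega)
    _ = N := hxN

/-- the weighted sum of the prime values, for one constant term -/
theorem fixed (l : Lv) {a b : ℤ} (ha : 1 ≤ a) (g T : ℕ) : ∀ᶠ N : ℕ in atTop, ∀ c : ℤ, c ≤ N → -(N : ℤ) ≤ c →
    wD (N * Real.log N) (pQ l N) (b ^ 2 - 4 * a * c) ≤ Real.log N ^ T * (N / Real.log N ^ (2 * (g + 3) + T + 6)) → ∀ S : ℝ,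
    |∑ n ∈ Icc 1 (pQ l N), GG (gp a b c) 1 n - S| ≤ 1 / Real.log N ^ (g + 5) → ∀ j ≤ pJ a b (g + 3) N,
    ‖TSj l a b (g + 3) N j c‖ ≤ N / Real.log N ^ (g + 4) →
    |∑ m ∈ Icc 1 (pM a b N), wt a b (pG (g + 3) N) ((j : ℝ) * pG (g + 3) N) m * thp (fv (-a) (-b) c m).toNat -
      S * max ((j : ℝ) * pG (g + 3) N + min (c : ℝ) 0) 0| ≤ N / Real.log N ^ g := by
  obtain ⟨C, hC, hNP⟩ := NP_bound3
  obtain ⟨κ, hκd⟩ : ∃ κ : ℝ, κ = kk a b := ⟨_, rfl⟩
  have hkk3 : 3 ≤ kk a b := by unfold kk; omega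
  have hκ : 1 ≤ κ := by rw [hκd]; exact_mod_cast (by omega : 1 ≤ kk a b)
  have har : (1 : ℝ) ≤ a := by exact_mod_cast ha
  obtain ⟨q, hq⟩ : ∃ q, q = g + 3 := ⟨_, rfl⟩
  obtain ⟨W, hW⟩ : ∃ W, W = 2 * kk a b * (4 * (k2 a b + 4 * a * kk a b + 16 * kk a b * k2 a b ^ 2) + 82 * k2 a b ^ 2) := ⟨_, rfl⟩
  have hk0 : 0 < l.k := by have := l.k10; omega
  have hs0' : (0 : ℝ) < 1 / ((2 * l.k : ℕ) : ℝ) := by positivity
  have q1 := l.r1
  have q2 := l.k10
  filter_upwards [PP_ev l a b ha q, eventually_ge_atTop (kk a b), theta_unif κ (2 * q + 4),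
    Pool.Agent.Y614.GJ.Core.ev_log (q + 4) hs0' (128 * C * a ^ 2 * κ),
    Pool.Agent.Y614.GJ.Core.ev_log (q + 4) hs0' (36 * a * κ + W + 6 + 4 * a + k2 a b + κ)]
    with N h hk hth h1 h2 c hcN hcN' hwD S hS j hj hT
  obtain ⟨hc1, hLx2⟩ := h1
  obtain ⟨hc2, -⟩ := h2
  have hq4 : g + 4 = q + 1 := by omega
  have hq5 : g + 5 = q + 2 := by omega
  rw [hq4] at hT
  rw [hq5] at hS
  rw [← hq] at hwD hj hT ⊢
  have hN0 : (0 : ℝ) < N := by exact_mod_cast h.N1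
  have hL0 : 0 < Real.log N := by linarith [h.L1]
  have hL1 := h.L1
  have hx0 : 0 < xx l N := by linarith [h.x1]
  have hG0 : (0 : ℝ) < pG q N := by exact_mod_cast h.G0
  have hs0 : (0 : ℝ) ≤ (j : ℝ) * pG q N := by positivity
  have hxdef : (N : ℝ) ^ (1 / ((2 * l.k : ℕ) : ℝ)) = xx l N := rfl
  rw [hxdef] at hLx2
  have hk2 : 1 ≤ k2 a b := by
    unfold k2
    have h1 : (0 : ℝ) ≤ b.natAbs := Nat.cast_nonneg _
    have h2 := abs_nonneg (qf a b (b.natAbs + 1) : ℝ)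
    have h3 : (1 : ℝ) * 1 ≤ a * kk a b := mul_le_mul har (by rw [← hκd]; exact hκ) (by norm_num) (by linarith)
    linarith
  have hW0 : 0 ≤ W := by rw [hW]; positivity
  have haκ : 0 < (a : ℝ) * κ := by positivity
  have hN1r : (1 : ℝ) ≤ N := by exact_mod_cast h.N1
  have hQ2 : (pQ l N : ℝ) ≤ (N : ℝ) ^ (1 / 2 : ℝ) := by
    refine (pQ_root l h.N1).trans ?_
    exact Real.rpow_le_rpow_of_exponent_le hN1r ((rk_le l).trans (by norm_num))
  have hpN : (pN a b N : ℝ) = κ * N := by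
    unfold pN
    push_cast
    rw [hκd]
  have hlQ0 : 0 ≤ Real.log (pQ l N) := Real.log_natCast_nonneg _
  have hlQ : Real.log (pQ l N) ≤ Real.log N :=
    Real.log_le_log (by exact_mod_cast h.Q0) (by exact_mod_cast h.QN)
  have hlN : Real.log (pN a b N) ≤ 2 * Real.log N := by
    rw [hpN, Real.log_mul (by linarith) hN0.ne']
    have : Real.log κ ≤ Real.log N := Real.log_le_log (by linarith) (by rw [hκd]; exact_mod_cast hk)
    linarith
  -- the sum of the local factors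
  obtain ⟨Sg, hSg⟩ : ∃ Sg : ℝ, Sg = ∑ n ∈ Icc 1 (pQ l N), GG (gp a b c) 1 n := ⟨_, rfl⟩
  have hSgb : |Sg| ≤ 4 * a * Real.log N ^ 2 := by
    rw [hSg]
    refine (abs_sum_le_sum_abs _ _).trans ?_
    refine (GG_sum (c := c) (b := b) (by omega : a ≠ 0) 1 (le_refl (pQ l N))).trans ?_
    rw [abs_of_pos (by linarith : (0 : ℝ) < a)]
    calc (a : ℝ) * (1 + Real.log (pQ l N)) ^ 2 ≤ a * (2 * Real.log N) ^ 2 := by
          gcongr
          linarith
      _ = _ := by ring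
  rw [← hSg] at hS
  -- the pieces
  obtain ⟨E1, hE1⟩ : ∃ E1 : ℝ, E1 = N / Real.log N ^ (q + 1) := ⟨_, rfl⟩
  rw [← hE1] at hT
  have hE10 : 0 ≤ E1 := by rw [hE1]; positivity
  have hcast : (((j * pG q N : ℕ)) : ℝ) = (j : ℝ) * pG q N := by push_cast; ring
  have hEv := TS_eval (b := b) (G := pG q N) (s := (j : ℝ) * pG q N) (M1 := pM a b N) (H := pH l N) (Q := pQ l N) (N1 := pN a b N)
    ha hG0 hs0 h.Mb h.H0 (qf_M ha h hj) (Fq (pQ l N)) (Fq_nonneg _) c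
  have hEv2 := err_ev (b := b) ha h hk (by
    rw [← hW]
    calc W * Real.log N ^ (q + 2) ≤ Real.log N * Real.log N ^ (q + 2) := by
          have : W ≤ Real.log N := by linarith
          gcongr
      _ = Real.log N ^ (q + 3) := by ring
      _ ≤ Real.log N ^ (q + 4) := pow_le_pow_right₀ h.L1 (by omega)
      _ ≤ xx l N := hLx2)
  rw [← hE1] at hEv2
  have hcG := sum_le_N' h hcN hj
  have hNX : (pN a b N : ℝ) ≤ N * Real.log N := by
    rw [hpN, mul_comm]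
    apply mul_le_mul_of_nonneg_left _ hN0.le
    linarith
  have hB := hNP a b (by omega) c (j * pG q N) (pG q N) (pN a b N) (pQ l N) (N * Real.log N)
    h.G0 h.Q0 h.QN1 hcG hNX
  have hwD0 : 0 ≤ wD (N * Real.log N) (pQ l N) (b ^ 2 - 4 * a * c) := by
    unfold wD
    exact sum_nonneg fun f _ => mul_nonneg (Real.sqrt_nonneg _) (Pool.Agent.K7.H51.PS.wF_nonneg _ f)
  have hB2 := err_np (C := C) (a := a) (κ := κ) (L := Real.log N) (x := xx l N) (N := N) (Q := pQ l N) (G := pG q N)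
    (lQ := Real.log (pQ l N)) (lN := Real.log (pN a b N)) (W := wD (N * Real.log N) (pQ l N) (b ^ 2 - 4 * a * c))
    (g := q) (T := T) (k := l.k) (r := l.r) hC har hκ h.L1 h.x1 (by omega) h.x2k (Nat.cast_nonneg _) h.Qx
    hlQ0 hlQ (Real.log_natCast_nonneg _) hlN h.Lx hG0 (le_trans (le_of_eq h.x2k.symm) h.Gx2) hc1 hLx2 hwD0 hwD
  rw [← hpN, ← hE1] at hB2
  have hB3 := hB.trans hB2
  rw [hcast] at hB3
  have hM := main_part (c := c) (s := j * pG q N) (G := pG q N) (N := pN a b N) (Q := pQ l N) (E := N / Real.log N ^ (2 * q + 4))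
    h.G0 (le_trans h.Q0 h.QN1) hcG (by
      intro y hy
      apply hth (pQ l N) hQ2 y
      rw [← hpN]
      exact_mod_cast hy)
  rw [hcast] at hM
  obtain ⟨Mj, hMj⟩ : ∃ Mj : ℝ, Mj = max ((j : ℝ) * pG q N + min (c : ℝ) 0) 0 := ⟨_, rfl⟩
  rw [← hMj] at hM ⊢
  have hMj0 : 0 ≤ Mj := by rw [hMj]; exact le_max_right _ _
  have hjN : (j : ℝ) * pG q N ≤ κ * N := by
    have e2 := pJ_le hj
    have e3 : j * pG q N ≤ pN a b N := by
      have := pG_le h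
      have h3 : pN a b N = (a.natAbs + b.natAbs) * N + 3 * N := by
        unfold pN kk
        ring
      omega
    rw [← hpN, ← hcast]
    exact_mod_cast e3
  have hMj1 : Mj ≤ κ * N := by
    rw [hMj]
    apply max_le _ (by positivity)
    have := min_le_right (c : ℝ) 0
    linarith
  -- the main term
  obtain ⟨Fh, hFh⟩ : ∃ Fh : ℝ, Fh = ∑ v ∈ Icc 1 (pN a b N), Fq (pQ l N) v * th (pG q N) ((j : ℝ) * pG q N) ((v : ℝ) - c) := ⟨_, rfl⟩
  rw [← hFh] at hM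
  have hM2 : |Fh * Sg - Mj * Sg| ≤ E1 + (4 * a) * (N / Real.log N ^ (g + 1)) := by
    rw [← sub_mul, abs_mul]
    have e1 : (N : ℝ) / Real.log N ^ (2 * q + 4) * (1 + 4 * (pN a b N) / pG q N) ≤ N / Real.log N ^ (2 * q + 4) * (9 * κ * Real.log N ^ q) := by
      apply mul_le_mul_of_nonneg_left _ (by positivity)
      have e2 : 4 * (pN a b N : ℝ) / pG q N ≤ 8 * κ * Real.log N ^ q := by
        rw [div_le_iff₀ hG0, hpN]
        have e3 := h.Gx2
        rw [h.x2k] at e3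
        calc 4 * (κ * N) ≤ 4 * (κ * (2 * Real.log N ^ q * pG q N)) := by gcongr
          _ = _ := by ring
      have e4 : 1 * 1 ≤ κ * Real.log N ^ q := mul_le_mul hκ (one_le_pow₀ h.L1) (by norm_num) (by linarith)
      linarith
    have e5 := mul_le_mul (hM.trans (add_le_add e1 h.Gx)) hSgb (abs_nonneg _) (by positivity)
    refine e5.trans ?_
    rw [add_mul]
    apply add_le_add
    · rw [hE1]
      calc (N : ℝ) / Real.log N ^ (2 * q + 4) * (9 * κ * Real.log N ^ q) * (4 * a * Real.log N ^ 2) =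
            (36 * a * κ) * (N / Real.log N ^ (q + 2)) := by
            have e7 : Real.log (N : ℝ) ^ (2 * q + 4) = Real.log N ^ q * Real.log N ^ 2 * Real.log N ^ (q + 2) := by ring
            rw [e7]
            field_simp
            norm_num
        _ ≤ Real.log N * (N / Real.log N ^ (q + 2)) := by
            have : 36 * a * κ ≤ Real.log N := by linarith
            gcongr
        _ = N / Real.log N ^ (q + 1) := by
            rw [pow_succ (Real.log (N : ℝ)) (q + 1)]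
            field_simp
    · apply le_of_eq
      rw [hq, show g + 3 = g + 1 + 2 by ring, pow_add _ (g + 1) 2]
      field_simp
  have hM3 : |Mj * Sg - Mj * S| ≤ E1 := by
    rw [← mul_sub, abs_mul, abs_of_nonneg hMj0]
    calc Mj * |Sg - S| ≤ (κ * N) * (1 / Real.log N ^ (q + 2)) := by gcongr
      _ = κ * (N / Real.log N ^ (q + 2)) := by ring
      _ ≤ Real.log N * (N / Real.log N ^ (q + 2)) := by
          have : κ ≤ Real.log N := by linarith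
          gcongr
      _ = E1 := by
          rw [hE1, pow_succ (Real.log (N : ℝ)) (q + 1)]
          field_simp
  -- the sum
  obtain ⟨TT, hTd⟩ : ∃ TT : ℂ, TT = TSj l a b q N j c := ⟨_, rfl⟩
  obtain ⟨X, hX⟩ : ∃ X : ℝ, X = ∑ m ∈ Icc 1 (pM a b N), wt a b (pG q N) ((j : ℝ) * pG q N) m * thp (fv (-a) (-b) c m).toNat := ⟨_, rfl⟩
  obtain ⟨X1, hX1⟩ : ∃ X1 : ℝ, X1 = ∑ m ∈ Icc 1 (pM a b N), wt a b (pG q N) ((j : ℝ) * pG q N) m * Fe (Fq (pQ l N)) (pN a b N) (c + qf a b m) := ⟨_, rfl⟩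
  have hXX : |X1 - X| ≤ E1 := by
    rw [hX, hX1, hE1]
    refine (val_part' ha h hcN hj).trans ?_
    have hD0 : (0 : ℝ) ≤ ((2 * a * pM a b N + b.natAbs : ℤ) : ℝ) := by
      have : (0 : ℤ) ≤ 2 * a * pM a b N + b.natAbs := by positivity
      exact_mod_cast this
    exact err_val (K2 := k2 a b) (x := xx l N) (k := l.k) (r := l.r) hk2 h.L1 h.x1 (by omega) h.x2k h.Qx hD0 h.D
      hlQ0 hlQ (by linarith) hLx2
  have hX2 : ∑ m ∈ Icc 1 (pM a b N), ((wt a b (pG q N) ((j : ℝ) * pG q N) m * Fe (Fq (pQ l N)) (pN a b N) (c + qf a b m) : ℝ) : ℂ) = (X1 : ℂ) := by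
    rw [hX1]
    push_cast
    rfl
  obtain ⟨Bc, hBc⟩ : ∃ Bc : ℂ, Bc = ∑ v ∈ Icc 1 (pN a b N), ((Fq (pQ l N) v : ℝ) : ℂ) *
    (((th (pG q N) ((j : ℝ) * pG q N) ((v : ℝ) - c) : ℝ) : ℂ) * ∑ k ∈ Icc 1 (pQ l N), mK a b k ((v : ℤ) - c)) := ⟨_, rfl⟩
  have hEv3 : ‖TT - ((X1 : ℂ) - Bc)‖ ≤ E1 := by
    refine le_trans (le_of_eq ?_) (hEv.trans hEv2)
    rw [hX2, hBc, hTd]
    simp only [Int.cast_sub, Int.cast_natCast]
    rfl
  have hB4 : ‖Bc - (Fh : ℂ) * (Sg : ℂ)‖ ≤ E1 := by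
    refine le_trans (le_of_eq ?_) hB3
    rw [hBc, hFh, hSg]
    push_cast
    rfl
  rw [← hTd] at hT
  rw [← hX]
  have hfin : ‖(((X1 - Mj * S : ℝ)) : ℂ)‖ ≤ 5 * E1 + (4 * a) * (N / Real.log N ^ (g + 1)) := by
    have e1 : (((X1 - Mj * S : ℝ)) : ℂ) = TT - (TT - ((X1 : ℂ) - Bc)) + (Bc - (Fh : ℂ) * (Sg : ℂ)) +
        (((Fh * Sg - Mj * Sg : ℝ)) : ℂ) + (((Mj * Sg - Mj * S : ℝ)) : ℂ) := by
      push_cast
      ring
    rw [e1]
    have e2 : ‖(((Fh * Sg - Mj * Sg : ℝ)) : ℂ)‖ ≤ E1 + (4 * a) * (N / Real.log N ^ (g + 1)) := by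
      rw [Complex.norm_real]
      exact hM2
    have e3 : ‖(((Mj * Sg - Mj * S : ℝ)) : ℂ)‖ ≤ E1 := by
      rw [Complex.norm_real]
      exact hM3
    have e4 := norm_add_le (TT - (TT - ((X1 : ℂ) - Bc)) + (Bc - (Fh : ℂ) * (Sg : ℂ)) + (((Fh * Sg - Mj * Sg : ℝ)) : ℂ))
      (((Mj * Sg - Mj * S : ℝ)) : ℂ)
    have e5 := norm_add_le (TT - (TT - ((X1 : ℂ) - Bc)) + (Bc - (Fh : ℂ) * (Sg : ℂ))) (((Fh * Sg - Mj * Sg : ℝ)) : ℂ)
    have e6 := norm_add_le (TT - (TT - ((X1 : ℂ) - Bc))) (Bc - (Fh : ℂ) * (Sg : ℂ))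
    have e7 := norm_sub_le TT (TT - ((X1 : ℂ) - Bc))
    linarith
  rw [Complex.norm_real, Real.norm_eq_abs] at hfin
  have hfin2 : |X - S * Mj| ≤ 6 * E1 + (4 * a) * (N / Real.log N ^ (g + 1)) := by
    have e1 : X - S * Mj = (X1 - Mj * S) - (X1 - X) := by ring
    rw [e1]
    refine (abs_sub _ _).trans ?_
    linarith
  refine hfin2.trans ?_
  have hE1g : E1 ≤ N / Real.log N ^ (g + 1) := by
    rw [hE1]
    apply div_le_div_of_nonneg_left hN0.le (by positivity)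
    exact pow_le_pow_right₀ hL1 (by omega)
  have e8 : 6 + 4 * (a : ℝ) ≤ Real.log N := by linarith
  calc 6 * E1 + (4 * a) * ((N : ℝ) / Real.log N ^ (g + 1)) ≤ (6 + 4 * a) * ((N : ℝ) / Real.log N ^ (g + 1)) := by linarith
    _ ≤ Real.log N * (N / Real.log N ^ (g + 1)) := by gcongr
    _ = N / Real.log N ^ g := by
        rw [pow_succ (Real.log (N : ℝ)) g]
        field_simp

end Pool.Agent.K7.H51.PT
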