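import Mathlib
import Pool.Agent.K7.H51.PS.Dw

set_option autoImplicit false

/-! Removing the weights, for a constant term of any sign. -/

namespace Pool.Agent.K7.H51.PT

open Finset
open Pool.Agent.K7.H51.PS

variable {a b : ℤ}

/-- the weighted partial sums -/
lemma U_bound (ha : 1 ≤ a) (Fm : ℕ → ℝ) {M1 J : ℕ} {L1 G S Err δ : ℝ} (hF0 : ∀ m, 0 ≤ Fm m) (hFL : ∀ m ≤ M1, Fm m ≤ L1)
    (hG : 0 < G) (hS : 0 ≤ S) (hE : 0 ≤ Err) (hδ : δ ≤ 0)
    (hA : ∀ j ≤ J, |∑ m ∈ Icc 1 M1, wt a b G (j * G) m * Fm m - S * max (j * G + δ) 0| ≤ Err) {m : ℕ} (hm : b.natAbs ≤ m) (hmM : m ≤ M1)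
    (hmJ : (qf a b m : ℝ) ≤ J * G) :
    |∑ i ∈ Ioc b.natAbs m, (dq a b i : ℝ) * Fm i - S * max (qf a b m + δ) 0| ≤ Err + 2 * S * G + L1 * G := by
  have hL1 : 0 ≤ L1 := (hF0 0).trans (hFL 0 (Nat.zero_le _))
  obtain ⟨u, hu⟩ : ∃ u : ℝ, u = qf a b m := ⟨_, rfl⟩
  have hu0 : 0 ≤ u := by
    rw [hu]
    exact_mod_cast qf_nat_nonneg ha hm
  rw [← hu] at hmJ ⊢
  have hSG : 0 ≤ S * G := by positivity
  have hLG : 0 ≤ L1 * G := by positivity
  have hmono : ∀ i, b.natAbs ≤ i → i ≤ m → (qf a b i : ℝ) ≤ u := by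
    intro i hi him
    rw [hu]
    exact_mod_cast qf_mono ha hi him
  rw [abs_le]
  constructor
  · -- the lower bound
    rcases lt_or_ge u G with hcase | hcase
    · have h1 : 0 ≤ ∑ i ∈ Ioc b.natAbs m, (dq a b i : ℝ) * Fm i := by
        apply sum_nonneg
        intro i hi
        rw [mem_Ioc] at hi
        exact mul_nonneg (dq_nonneg ha (by omega)) (hF0 i)
      have h2 : S * max (u + δ) 0 ≤ S * G := by
        apply mul_le_mul_of_nonneg_left _ hS
        apply max_le _ hG.le
        linarith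
      linarith
    · obtain ⟨j, hj⟩ : ∃ j, j = ⌊u / G⌋₊ - 1 := ⟨_, rfl⟩
      have hf1 : 1 ≤ ⌊u / G⌋₊ := by
        apply Nat.le_floor
        rw [Nat.cast_one, le_div_iff₀ hG]
        linarith
      have hf2 : (⌊u / G⌋₊ : ℝ) * G ≤ u := by
        have := Nat.floor_le (show 0 ≤ u / G by positivity)
        rwa [le_div_iff₀ hG] at this
      have hf3 : u < ((⌊u / G⌋₊ : ℝ) + 1) * G := by
        have := Nat.lt_floor_add_one (u / G)
        rwa [div_lt_iff₀ hG] at this
      have hjr : (j : ℝ) = ⌊u / G⌋₊ - 1 := by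
        rw [hj, Nat.cast_sub hf1, Nat.cast_one]
      have hjJ : j ≤ J := by
        have : (j : ℝ) * G ≤ J * G := by
          rw [hjr]
          nlinarith
        have h3 : (j : ℝ) ≤ J := le_of_mul_le_mul_right this hG
        exact_mod_cast h3
      have hs0 : 0 ≤ (j : ℝ) * G := by positivity
      have hsG : (j : ℝ) * G + G ≤ u := by
        rw [hjr]
        nlinarith
      have h1 : ∑ i ∈ Icc 1 M1, wt a b G (j * G) i * Fm i ≤ ∑ i ∈ Ioc b.natAbs m, (dq a b i : ℝ) * Fm i := by
        have hsub : Ioc b.natAbs m ⊆ Icc 1 M1 := by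
          intro i hi
          rw [mem_Ioc] at hi
          rw [mem_Icc]
          omega
        rw [← sum_subset hsub]
        · apply sum_le_sum
          intro i hi
          rw [mem_Ioc] at hi
          unfold wt
          rw [if_pos (by omega)]
          have h3 := dq_nonneg (b := b) ha (m := i) (by omega)
          have h4 := th_le_one hG hs0 (qf a b i : ℝ)
          calc (dq a b i : ℝ) * th G (j * G) (qf a b i) * Fm i ≤ (dq a b i : ℝ) * 1 * Fm i := by
                have := hF0 i
                gcongr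
            _ = _ := by ring
        · intro i hi hi'
          rw [mem_Icc] at hi
          rw [mem_Ioc] at hi'
          unfold wt
          split_ifs with h5
          · have h6 : m ≤ i := by omega
            have h7 : u ≤ (qf a b i : ℝ) := by
              rw [hu]
              exact_mod_cast qf_mono ha hm h6
            rw [th_right hG hs0 (by linarith)]
            ring
          · ring
      have h2 := (abs_le.1 (hA j hjJ)).1
      have h3 : S * (max (u + δ) 0 - 2 * G) ≤ S * max (j * G + δ) 0 := by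
        apply mul_le_mul_of_nonneg_left _ hS
        have h4 : u - 2 * G ≤ j * G := by
          rw [hjr]
          nlinarith
        rw [sub_le_iff_le_add]
        apply max_le
        · have := le_max_left ((j : ℝ) * G + δ) 0
          linarith
        · have := le_max_right ((j : ℝ) * G + δ) 0
          linarith
      linarith
  · -- the upper bound
    obtain ⟨j, hj⟩ : ∃ j, j = ⌈u / G⌉₊ := ⟨_, rfl⟩
    have hj1 : u ≤ j * G := by
      have := Nat.le_ceil (u / G)
      rw [← hj] at this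
      rwa [div_le_iff₀ hG] at this
    have hj2 : (j : ℝ) * G ≤ u + G := by
      have := Nat.ceil_lt_add_one (show 0 ≤ u / G by positivity)
      rw [← hj] at this
      have h3 : (j : ℝ) * G < (u / G + 1) * G := mul_lt_mul_of_pos_right this hG
      have h4 : (u / G + 1) * G = u + G := by field_simp
      linarith
    have hjJ : j ≤ J := by
      rw [hj]
      apply Nat.ceil_le.2
      rw [div_le_iff₀ hG]
      exact hmJ
    have hs0 : 0 ≤ (j : ℝ) * G := by positivity
    have h1 : ∑ i ∈ Ioc b.natAbs m, (dq a b i : ℝ) * Fm i ≤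
        ∑ i ∈ Ioc b.natAbs m, (if (qf a b i : ℝ) < G then (dq a b i : ℝ) else 0) * L1 +
        ∑ i ∈ Ioc b.natAbs m, wt a b G (j * G) i * Fm i := by
      rw [← sum_add_distrib]
      apply sum_le_sum
      intro i hi
      rw [mem_Ioc] at hi
      have h3 := dq_nonneg (b := b) ha (m := i) (by omega)
      have h4 := hF0 i
      have h5 := hFL i (by omega)
      have h6 := th_nonneg hG hs0 (qf a b i : ℝ)
      have hwt : wt a b G (j * G) i = (dq a b i : ℝ) * th G (j * G) (qf a b i) := by
        unfold wt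
        rw [if_pos (by omega)]
      rw [hwt]
      split_ifs with h7
      · have h8 : (dq a b i : ℝ) * Fm i ≤ dq a b i * L1 := by gcongr
        have h9 : 0 ≤ (dq a b i : ℝ) * th G (j * G) (qf a b i) * Fm i := by positivity
        linarith
      · rw [not_lt] at h7
        rw [th_one hG h7 ((hmono i (by omega) hi.2).trans hj1)]
        linarith
    have h2 : ∑ i ∈ Ioc b.natAbs m, wt a b G (j * G) i * Fm i ≤ ∑ i ∈ Icc 1 M1, wt a b G (j * G) i * Fm i := by
      apply sum_le_sum_of_subset_of_nonneg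
      · intro i hi
        rw [mem_Ioc] at hi
        rw [mem_Icc]
        omega
      · intro i _ _
        apply mul_nonneg _ (hF0 i)
        unfold wt
        split_ifs with h3
        · exact mul_nonneg (dq_nonneg ha h3) (th_nonneg hG hs0 _)
        · exact le_rfl
    have h3 := (abs_le.1 (hA j hjJ)).2
    have h4 : ∑ i ∈ Ioc b.natAbs m, (if (qf a b i : ℝ) < G then (dq a b i : ℝ) else 0) * L1 ≤ L1 * G := by
      rw [← sum_mul, mul_comm]
      apply mul_le_mul_of_nonneg_left _ hL1
      exact (dq_small ha hG hm).trans (min_le_right _ _)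
    have h5 : S * max (j * G + δ) 0 ≤ S * (max (u + δ) 0 + G) := by
      apply mul_le_mul_of_nonneg_left _ hS
      apply max_le
      · have := le_max_left (u + δ) 0
        linarith
      · have := le_max_right (u + δ) 0
        linarith
    linarith

/-- the sign of the values -/
noncomputable def chi (a b c : ℤ) (i : ℕ) : ℝ := if 0 < c + qf a b i then 1 else 0

lemma chi_bd (a b c : ℤ) (i : ℕ) : 0 ≤ chi a b c i ∧ chi a b c i ≤ 1 := by
  unfold chi
  split_ifs <;> constructor <;> norm_num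

lemma chi_min (ha : 1 ≤ a) (c : ℤ) {i : ℕ} (hi : b.natAbs + 1 ≤ i) :
    (0 < c + qf a b i) ↔ (0 : ℝ) < qf a b i + min (c : ℝ) 0 := by
  have h1 := qf_pos (b := b) ha hi
  have h2 : (1 : ℤ) ≤ i := by omega
  have h3 : (0 : ℝ) < qf a b i := by exact_mod_cast (by linarith : (0 : ℤ) < qf a b i)
  rcases le_total (c : ℝ) 0 with h | h
  · rw [min_eq_left h]
    constructor
    · intro h4
      have : (0 : ℝ) < ((c + qf a b i : ℤ) : ℝ) := by exact_mod_cast h4
      push_cast at this
      linarith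
    · intro h4
      have : (0 : ℝ) < ((c + qf a b i : ℤ) : ℝ) := by
        push_cast
        linarith
      exact_mod_cast this
  · rw [min_eq_right h]
    have h4 : (0 : ℤ) ≤ c := by exact_mod_cast h
    constructor
    · intro _
      linarith
    · intro _
      linarith

/-- only one argument is at the change of sign -/
lemma jump (ha : 1 ≤ a) (c : ℤ) {m0 : ℕ} (hm0 : b.natAbs ≤ m0) {y : ℕ} (hy : m0 ≤ y) :
    0 ≤ ∑ i ∈ Ioc m0 y, (chi a b c i - (max (qf a b i + min (c : ℝ) 0) 0 - max (qf a b (i - 1) + min (c : ℝ) 0) 0) / (dq a b i : ℝ)) ∧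
    ∑ i ∈ Ioc m0 y, (chi a b c i - (max (qf a b i + min (c : ℝ) 0) 0 - max (qf a b (i - 1) + min (c : ℝ) 0) 0) / (dq a b i : ℝ)) ≤
      if (0 : ℝ) < qf a b y + min (c : ℝ) 0 then 1 else 0 := by
  obtain ⟨δ, hδ⟩ : ∃ δ : ℝ, δ = min (c : ℝ) 0 := ⟨_, rfl⟩
  rw [← hδ]
  induction y, hy using Nat.le_induction with
  | base =>
    rw [Ioc_self, sum_empty]
    refine ⟨le_rfl, ?_⟩
    split_ifs <;> norm_num
  | succ y hy ih =>
    rw [sum_Ioc_succ_top (by omega), Nat.add_sub_cancel]
    have hd := dq_pos (b := b) ha (m := y + 1) (by omega)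
    have hd0 : (0 : ℝ) < dq a b (y + 1) := by
      have : (0 : ℤ) < dq a b (y + 1) := lt_of_lt_of_le (by positivity) hd
      exact_mod_cast this
    have e : (qf a b (y + 1) : ℝ) = qf a b y + dq a b (y + 1) := by
      rw [qf_succ]
      push_cast
      ring
    have hchi : chi a b c (y + 1) = if (0 : ℝ) < qf a b (y + 1) + δ then 1 else 0 := by
      unfold chi
      rw [hδ]
      have := chi_min (b := b) ha c (i := y + 1) (by omega)
      by_cases h : 0 < c + qf a b (y + 1)
      · rw [if_pos h, if_pos (this.1 h)]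
      · rw [if_neg h, if_neg (fun h' => h (this.2 h'))]
    rw [hchi]
    obtain ⟨i1, i2⟩ := ih
    by_cases h1 : (0 : ℝ) < qf a b (y + 1) + δ
    · rw [if_pos h1, max_eq_left h1.le]
      by_cases h2 : (0 : ℝ) < qf a b y + δ
      · rw [if_pos h2] at i2
        rw [max_eq_left h2.le, e]
        have : ((qf a b y : ℝ) + dq a b (y + 1) + δ - (qf a b y + δ)) / (dq a b (y + 1) : ℝ) = 1 := by
          rw [div_eq_one_iff_eq hd0.ne']
          ring
        rw [this, sub_self, add_zero]
        exact ⟨i1, i2⟩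
      · rw [if_neg h2] at i2
        rw [max_eq_right (not_lt.1 h2), sub_zero]
        have h3 : ((qf a b (y + 1) : ℝ) + δ) / (dq a b (y + 1) : ℝ) ≤ 1 := by
          rw [div_le_one hd0, e]
          rw [not_lt] at h2
          linarith
        have h4 : 0 ≤ ((qf a b (y + 1) : ℝ) + δ) / (dq a b (y + 1) : ℝ) := by positivity
        constructor <;> linarith
    · have h2 : ¬ (0 : ℝ) < qf a b y + δ := by
        intro h3
        apply h1
        rw [e]
        linarith
      rw [if_neg h2] at i2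
      rw [if_neg h1, max_eq_right (not_lt.1 h1), max_eq_right (not_lt.1 h2), sub_self, zero_div, sub_self, add_zero]
      exact ⟨i1, i2⟩

/-- the sums without weights -/
theorem dw (ha : 1 ≤ a) (c : ℤ) (Fm : ℕ → ℝ) {M1 J Y m0 : ℕ} {L1 G S Err : ℝ} (hF0 : ∀ m, 0 ≤ Fm m) (hFL : ∀ m ≤ M1, Fm m ≤ L1)
    (hG : 0 < G) (hS : 0 ≤ S) (hE : 0 ≤ Err)
    (hA : ∀ j ≤ J, |∑ m ∈ Icc 1 M1, wt a b G (j * G) m * Fm m - S * max (j * G + min (c : ℝ) 0) 0| ≤ Err)
    (hm0 : b.natAbs ≤ m0) (hYM : Y ≤ M1)
    (hYJ : ∀ m, b.natAbs ≤ m → m ≤ Y → (qf a b m : ℝ) ≤ J * G) : ∀ y ≤ Y,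
    |∑ i ∈ Icc 1 y, (Fm i - S * chi a b c i)| ≤ m0 * (L1 + S) + 2 * (Err + 2 * S * G + L1 * G) / ((m0 : ℝ) + 1) + S := by
  intro y hy
  have hL1 : 0 ≤ L1 := (hF0 0).trans (hFL 0 (Nat.zero_le _))
  have htriv : ∀ x ≤ y, |∑ i ∈ Icc 1 x, (Fm i - S * chi a b c i)| ≤ x * (L1 + S) := by
    intro x hx
    refine (abs_sum_le_sum_abs _ _).trans ?_
    calc ∑ i ∈ Icc 1 x, |Fm i - S * chi a b c i| ≤ ∑ _i ∈ Icc 1 x, (L1 + S) := by
          apply sum_le_sum
          intro i hi
          rw [mem_Icc] at hi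
          have h4 := hF0 i
          have h5 := hFL i (by omega)
          obtain ⟨c1, c2⟩ := chi_bd a b c i
          have h6 : S * chi a b c i ≤ S * 1 := mul_le_mul_of_nonneg_left c2 hS
          have h7 : 0 ≤ S * chi a b c i := mul_nonneg hS c1
          rw [abs_le]
          constructor <;> linarith
      _ = x * (L1 + S) := by rw [sum_const, Nat.card_Icc, Nat.add_sub_cancel, nsmul_eq_mul]
  have hpos : 0 ≤ 2 * (Err + 2 * S * G + L1 * G) / ((m0 : ℝ) + 1) := by positivity
  rcases le_or_gt y m0 with hcase | hcase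
  · refine (htriv y le_rfl).trans ?_
    have h1 : (y : ℝ) ≤ m0 := by exact_mod_cast hcase
    have h2 : (y : ℝ) * (L1 + S) ≤ m0 * (L1 + S) := by gcongr
    linarith
  · have hsplit : Icc 1 y = Icc 1 m0 ∪ Ioc m0 y := by
      ext i
      rw [mem_union, mem_Icc, mem_Icc, mem_Ioc]
      omega
    have hdis : Disjoint (Icc 1 m0) (Ioc m0 y) := by
      rw [disjoint_left]
      intro i hi hi'
      rw [mem_Icc] at hi
      rw [mem_Ioc] at hi'
      omega
    rw [hsplit, sum_union hdis]
    obtain ⟨δ, hδ⟩ : ∃ δ : ℝ, δ = min (c : ℝ) 0 := ⟨_, rfl⟩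
    have hδ0 : δ ≤ 0 := by rw [hδ]; exact min_le_right _ _
    obtain ⟨D, hD⟩ : ∃ D : ℕ → ℝ, D = fun m => ∑ i ∈ Ioc b.natAbs m, (dq a b i : ℝ) * Fm i - S * max (qf a b m + δ) 0 := ⟨_, rfl⟩
    obtain ⟨w, hw⟩ : ∃ w : ℕ → ℝ, w = fun m => 1 / (dq a b m : ℝ) := ⟨_, rfl⟩
    have hdq : ∀ i, m0 < i → (i : ℝ) ≤ dq a b i := by
      intro i hi
      exact_mod_cast dq_pos (b := b) ha (m := i) (by omega)
    have hdq0 : ∀ i, m0 < i → (0 : ℝ) < dq a b i := by
      intro i hi
      have : (0 : ℝ) < i := by exact_mod_cast (by omega : 0 < i)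
      exact this.trans_le (hdq i hi)
    have h1 : ∑ i ∈ Ioc m0 y, (Fm i - S * chi a b c i) = ∑ i ∈ Ioc m0 y, (D i - D (i - 1)) * w i -
        S * ∑ i ∈ Ioc m0 y, (chi a b c i - (max (qf a b i + δ) 0 - max (qf a b (i - 1) + δ) 0) / (dq a b i : ℝ)) := by
      rw [mul_sum, ← sum_sub_distrib]
      apply sum_congr rfl
      intro i hi
      rw [mem_Ioc] at hi
      obtain ⟨n, rfl⟩ : ∃ n, i = n + 1 := ⟨i - 1, by omega⟩
      have h2 := hdq0 (n + 1) hi.1
      rw [Nat.add_sub_cancel, hD, hw]
      simp only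
      rw [sum_Ioc_succ_top (by omega)]
      field_simp
      ring
    obtain ⟨j1, j2⟩ := jump (b := b) ha c hm0 hcase.le
    rw [← hδ] at j1 j2
    have j3 : ∑ i ∈ Ioc m0 y, (chi a b c i - (max (qf a b i + δ) 0 - max (qf a b (i - 1) + δ) 0) / (dq a b i : ℝ)) ≤ 1 := by
      refine j2.trans ?_
      split_ifs <;> norm_num
    have h2 : |∑ i ∈ Ioc m0 y, (D i - D (i - 1)) * w i| ≤ 2 * (Err + 2 * S * G + L1 * G) / ((m0 : ℝ) + 1) := by
      refine (diff_abel_le D w (E := Err + 2 * S * G + L1 * G) hcase.le ?_ ?_ ?_).trans ?_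
      · intro i hi1 hi2
        rw [hD]
        rw [← hδ] at hA
        exact U_bound ha Fm hF0 hFL hG hS hE hδ0 hA (by omega) (by omega) (hYJ i (by omega) (by omega))
      · intro i hi
        rw [hw]
        have := hdq0 i hi
        simp only
        positivity
      · intro i hi
        rw [hw]
        simp only
        apply one_div_le_one_div_of_le (hdq0 i hi)
        have e : (dq a b (i + 1) : ℝ) = dq a b i + 2 * a := by
          unfold dq
          push_cast
          ring
        rw [e]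
        have : (1 : ℝ) ≤ a := by exact_mod_cast ha
        linarith
      · rw [hw, div_eq_mul_one_div]
        simp only
        apply mul_le_mul_of_nonneg_left _ (by positivity)
        apply one_div_le_one_div_of_le (by positivity)
        have := hdq (m0 + 1) (by omega)
        push_cast at this
        exact this
    rw [h1, add_assoc]
    refine (abs_add_le _ _).trans (add_le_add (htriv m0 (by omega)) ?_)
    refine (abs_sub _ _).trans (add_le_add h2 ?_)
    rw [abs_mul, abs_of_nonneg hS, abs_of_nonneg j1]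
    calc S * ∑ i ∈ Ioc m0 y, (chi a b c i - (max (qf a b i + δ) 0 - max (qf a b (i - 1) + δ) 0) / (dq a b i : ℝ)) ≤ S * 1 :=
          mul_le_mul_of_nonneg_left j3 hS
      _ = S := mul_one S

end Pool.Agent.K7.H51.PT
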