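import Mathlib
import Pool.Agent.K7.H51.PT.Dc
import Pool.Agent.K7.H51.PS.Gd

set_option autoImplicit false

/-! From the weighted sums to the conclusion for one polynomial, with a constant term of any sign. -/

namespace Pool.Agent.K7.H51.PT

open Finset Filter Topology
open Pool.Agent.W468.ConjF (SJ)
open Pool.Agent.H373R2.T7 (Vz pz Vz_pos Vz_inv_small nuB mem_pz)
open Pool.Agent.R460.SB (Sz Sz_bd Sz_low loc_lt fv fv_mono)
open Pool.Agent.R460.SC (PJ_lim Sz_split)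
open Pool.Agent.R460.SQ (thp)
open Pool.Agent.R460.GS (abelIBV)
open Pool.Agent.K7.H51.PS (qf wt thp_nonneg thp_le_log fv_qf)

/-- the weight of one value -/
noncomputable def wp (a b c : ℤ) (t : ℕ) : ℝ :=
  if 1 < fv (-a) (-b) c t then 1 / Real.log ((fv (-a) (-b) c t : ℤ) : ℝ) else 0

lemma wp_bd (a b c : ℤ) (t : ℕ) : 0 ≤ wp a b c t ∧ wp a b c t ≤ 2 := by
  unfold wp
  split_ifs with h
  · have h1 : (2 : ℝ) ≤ ((fv (-a) (-b) c t : ℤ) : ℝ) := by exact_mod_cast h
    have h2 : Real.log 2 ≤ Real.log ((fv (-a) (-b) c t : ℤ) : ℝ) := Real.log_le_log two_pos h1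
    have h3 : (1 : ℝ) / 2 ≤ Real.log 2 := by
      have := Real.log_two_gt_d9
      linarith
    have h4 : 0 < Real.log ((fv (-a) (-b) c t : ℤ) : ℝ) := by linarith
    refine ⟨by positivity, ?_⟩
    rw [div_le_iff₀ h4]
    linarith
  · constructor <;> norm_num

lemma wp_mono {a b c : ℤ} (ha : 0 < a) {t : ℕ} (ht : b.natAbs ≤ t) (h : 1 < fv (-a) (-b) c t) :
    1 < fv (-a) (-b) c (t + 1) ∧ wp a b c (t + 1) ≤ wp a b c t := by
  have h1 := fv_mono (c := c) ha ht
  have h2 : 1 < fv (-a) (-b) c (t + 1) := lt_of_lt_of_le h h1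
  refine ⟨h2, ?_⟩
  have h3 : (1 : ℝ) < ((fv (-a) (-b) c t : ℤ) : ℝ) := by exact_mod_cast h
  have h4 : ((fv (-a) (-b) c t : ℤ) : ℝ) ≤ ((fv (-a) (-b) c (t + 1) : ℤ) : ℝ) := by exact_mod_cast h1
  unfold wp
  rw [if_pos h, if_pos h2]
  apply one_div_le_one_div_of_le (Real.log_pos h3)
  exact Real.log_le_log (by linarith) h4

lemma wp_var {a b c : ℤ} (ha : 0 < a) (y : ℕ) :
    ∑ i ∈ range y, |wp a b c (i + 1) - wp a b c i| ≤ 8 * (min y b.natAbs : ℕ) +
      if 1 < fv (-a) (-b) c y then 4 - wp a b c y else 0 := by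
  induction y with
  | zero =>
    have := wp_bd a b c 0
    rw [sum_range_zero]
    have h0 : (0 : ℝ) ≤ 8 * ((min 0 b.natAbs : ℕ) : ℝ) := by positivity
    split_ifs
    · linarith
    · linarith
  | succ y ih =>
    rw [sum_range_succ]
    obtain ⟨p1, p2⟩ := wp_bd a b c y
    obtain ⟨p3, p4⟩ := wp_bd a b c (y + 1)
    rcases lt_or_ge y b.natAbs with h | h
    · rw [min_eq_left h.le] at ih
      rw [min_eq_left (by omega : y + 1 ≤ b.natAbs)]
      have h1 : |wp a b c (y + 1) - wp a b c y| ≤ 2 := by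
        rw [abs_le]
        constructor <;> linarith
      have h2 : (if 1 < fv (-a) (-b) c y then 4 - wp a b c y else 0) ≤ 4 := by
        split_ifs
        · linarith
        · norm_num
      have h3 : 0 ≤ (if 1 < fv (-a) (-b) c (y + 1) then 4 - wp a b c (y + 1) else 0) := by
        split_ifs
        · linarith
        · norm_num
      push_cast
      linarith
    · rw [min_eq_right h] at ih
      rw [min_eq_right (by omega : b.natAbs ≤ y + 1)]
      by_cases h1 : 1 < fv (-a) (-b) c y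
      · obtain ⟨h2, h3⟩ := wp_mono ha h h1
        rw [if_pos h1] at ih
        rw [if_pos h2, abs_of_nonpos (by linarith)]
        linarith
      · rw [if_neg h1] at ih
        have h4 : wp a b c y = 0 := by
          unfold wp
          rw [if_neg h1]
        by_cases h2 : 1 < fv (-a) (-b) c (y + 1)
        · rw [if_pos h2, h4, sub_zero, abs_of_nonneg p3]
          linarith
        · have h5 : wp a b c (y + 1) = 0 := by
            unfold wp
            rw [if_neg h2]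
          rw [if_neg h2, h4, h5, sub_zero, abs_zero]
          linarith

/-- partial summation -/
lemma unweight {a b c : ℤ} (ha : 0 < a) {y : ℕ} {S ε : ℝ}
    (h : ∀ m ≤ y, |∑ t ∈ Icc 1 m, (thp (fv (-a) (-b) c t).toNat - S * chi a b c t)| ≤ ε) :
    |(((Icc 1 y).filter (fun t : ℕ => (fv (-a) (-b) c t).toNat.Prime)).card : ℝ) -
      S * ∑ t ∈ (Icc 1 y).filter (fun t : ℕ => 1 < fv (-a) (-b) c t), 1 / Real.log ((fv (-a) (-b) c t : ℤ) : ℝ)| ≤
      ε * (8 * b.natAbs + 6) := by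
  have h1 := abelIBV (V := ℂ) (fun t => ((thp (fv (-a) (-b) c t).toNat - S * chi a b c t : ℝ) : ℂ)) (fun t => ((wp a b c t : ℝ) : ℂ))
    ε 2 (8 * b.natAbs + 4) y ?_ ?_ ?_ (by norm_num)
  · have e1 : ∑ i ∈ Icc 1 y, ((wp a b c i : ℝ) : ℂ) • ((thp (fv (-a) (-b) c i).toNat - S * chi a b c i : ℝ) : ℂ) =
        (((((Icc 1 y).filter (fun t : ℕ => (fv (-a) (-b) c t).toNat.Prime)).card : ℝ) -
          S * ∑ t ∈ (Icc 1 y).filter (fun t : ℕ => 1 < fv (-a) (-b) c t), 1 / Real.log ((fv (-a) (-b) c t : ℤ) : ℝ) : ℝ) : ℂ) := by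
      rw [card_eq_sum_ones, Nat.cast_sum, sum_filter, sum_filter, mul_sum, ← sum_sub_distrib]
      push_cast
      refine sum_congr rfl fun t _ => ?_
      rw [smul_eq_mul]
      by_cases h1 : 1 < fv (-a) (-b) c t
      · have h3 : (((fv (-a) (-b) c t).toNat : ℕ) : ℝ) = ((fv (-a) (-b) c t : ℤ) : ℝ) := by
          have : (((fv (-a) (-b) c t).toNat : ℤ) : ℝ) = ((fv (-a) (-b) c t : ℤ) : ℝ) := by
            rw [Int.toNat_of_nonneg (by omega)]
          exact_mod_cast this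
        have h4 : (1 : ℝ) < ((fv (-a) (-b) c t : ℤ) : ℝ) := by exact_mod_cast h1
        have h5 : Real.log ((fv (-a) (-b) c t : ℤ) : ℝ) ≠ 0 := (Real.log_pos h4).ne'
        have h6 : chi a b c t = 1 := by
          unfold chi
          rw [fv_qf] at h1
          rw [if_pos (by omega)]
        have h7 : wp a b c t = 1 / Real.log ((fv (-a) (-b) c t : ℤ) : ℝ) := by
          unfold wp
          rw [if_pos h1]
        rw [h6, h7, if_pos h1]
        unfold thp
        by_cases hp : (fv (-a) (-b) c t).toNat.Prime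
        · rw [if_pos hp, if_pos hp]
          have h8 : 1 / Real.log ((fv (-a) (-b) c t : ℤ) : ℝ) * (Real.log (((fv (-a) (-b) c t).toNat : ℕ) : ℝ) - S * 1) =
              1 - S * (1 / Real.log ((fv (-a) (-b) c t : ℤ) : ℝ)) := by
            rw [h3]
            field_simp
          have h9 := congrArg (fun r : ℝ => (r : ℂ)) h8
          push_cast at h9 ⊢
          exact h9
        · rw [if_neg hp, if_neg hp]
          push_cast
          ring
      · have h7 : wp a b c t = 0 := by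
          unfold wp
          rw [if_neg h1]
        have hp : ¬ (fv (-a) (-b) c t).toNat.Prime := by
          intro hp
          have := hp.two_le
          omega
        rw [h7, if_neg hp, if_neg h1]
        push_cast
        ring
    rw [e1, Complex.norm_real, Real.norm_eq_abs] at h1
    refine h1.trans (le_of_eq ?_)
    ring
  · intro m hm
    have h2 := h m hm
    rw [← Complex.ofReal_sum, Complex.norm_real, Real.norm_eq_abs]
    exact h2
  · intro i _
    rw [Complex.norm_real, Real.norm_eq_abs, abs_of_nonneg (wp_bd a b c i).1]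
    exact (wp_bd a b c i).2
  · have h2 := wp_var (b := b) (c := c) ha y
    have h3 := (wp_bd a b c y).1
    have h4 : ((min y b.natAbs : ℕ) : ℝ) ≤ b.natAbs := by exact_mod_cast min_le_right _ _
    have h5 : (if 1 < fv (-a) (-b) c y then 4 - wp a b c y else 0) ≤ 4 := by
      split_ifs
      · linarith
      · norm_num
    refine le_trans (le_of_eq ?_) (by linarith : ∑ i ∈ range y, |wp a b c (i + 1) - wp a b c i| ≤ 8 * (b.natAbs : ℝ) + 4)
    refine sum_congr rfl fun i _ => ?_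
    rw [← Complex.ofReal_sub, Complex.norm_real, Real.norm_eq_abs]

/-- the sums without weights are good enough -/
lemma sq_of (a b : ℤ) (ha : 1 ≤ a) (C E : ℕ) : ∀ᶠ N : ℕ in atTop, ∀ z : ℕ, 1 ≤ z → (z : ℝ) ≤ Real.log N ^ E →
    ∀ (c : ℤ) (G : ℝ) (M1 J : ℕ), 0 < G → G ≤ N / Real.log N ^ (2 * C + 18) → Nat.sqrt N ≤ M1 →
    ((∀ m : ℕ, b.natAbs ≤ m → m ^ 2 ≤ N → (qf a b m : ℝ) ≤ J * G)) →
    (∀ m ≤ M1, Real.log ((fv (-a) (-b) c m).toNat : ℝ) ≤ 3 * Real.log N) →
    (∀ j ≤ J, |∑ m ∈ Icc 1 M1, wt a b G (j * G) m * thp (fv (-a) (-b) c m).toNat - Sz (-a) (-b) c z * max (j * G + min (c : ℝ) 0) 0| ≤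
      N / Real.log N ^ (2 * C + 18)) →
    ∀ y : ℕ, y ^ 2 ≤ N → |∑ m ∈ Icc 1 y, (thp (fv (-a) (-b) c m).toNat - Sz (-a) (-b) c z * chi a b c m)| ≤
      Real.sqrt N / Real.log N ^ (C + 5) := by
  obtain ⟨N₂, h2⟩ := Vz_inv_small E
  filter_upwards [Pool.Agent.Y614.GJ.Core.ev_log (C + 8) (s := 1 / 2) (by norm_num) (100 : ℝ),
    Pool.Agent.Y614.GJ.Core.ev_log (C + 9) (s := 1 / 2) (by norm_num) (b.natAbs + 1 : ℝ), eventually_ge_atTop (N₂ + 3)]
    with N h3 h4 hN z hz0 hz2 c G M1 J hG0 hG hM1 hJ hlog hA y hy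
  have hN1 : 1 ≤ N := by omega
  have hN0 : (0 : ℝ) < N := by exact_mod_cast hN1
  obtain ⟨hL100, -⟩ := h3
  obtain ⟨hLb, hLp⟩ := h4
  have hV := h2 N (by omega) z hz0 hz2
  obtain ⟨L, hLd⟩ : ∃ L, L = Real.log (N : ℝ) := ⟨_, rfl⟩
  rw [← hLd] at hL100 hLb hLp hV hG hlog hA ⊢
  have hL0 : 0 < L := by linarith
  have hL1 : 1 ≤ L := by linarith
  obtain ⟨M, hM⟩ : ∃ M, M = Real.sqrt N := ⟨_, rfl⟩
  have hM0 : 0 < M := by rw [hM]; exact Real.sqrt_pos.2 hN0
  have hMM : M * M = N := by rw [hM]; exact Real.mul_self_sqrt hN0.le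
  have hMr : M = (N : ℝ) ^ (1 / 2 : ℝ) := by rw [hM, Real.sqrt_eq_rpow]
  rw [← hMr] at hLp
  rw [← hM]
  obtain ⟨P, hP⟩ : ∃ P, P = L ^ (C + 8) := ⟨_, rfl⟩
  have hP0 : 0 < P := by rw [hP]; positivity
  obtain ⟨s0, s1⟩ := Sz_bd (-a) (-b) c z
  obtain ⟨S, hS⟩ : ∃ S, S = Sz (-a) (-b) c z := ⟨_, rfl⟩
  rw [← hS] at s0 s1 hA ⊢
  have hSL : S ≤ L := s1.trans hV
  obtain ⟨m0, hm0⟩ : ∃ m0, m0 = ⌊M / P⌋₊ := ⟨_, rfl⟩
  have hm01 : (m0 : ℝ) ≤ M / P := by rw [hm0]; exact Nat.floor_le (by positivity)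
  have hm02 : M / P ≤ (m0 : ℝ) + 1 := by
    have := (Nat.lt_floor_add_one (M / P)).le
    rwa [← hm0] at this
  have hLP : L * P ≤ M := by
    calc L * P = L ^ (C + 9) := by rw [hP]; ring
      _ ≤ M := hLp
  have hbm0 : b.natAbs ≤ m0 := by
    rw [hm0]
    apply Nat.le_floor
    rw [le_div_iff₀ hP0]
    calc (b.natAbs : ℝ) * P ≤ L * P := by
          apply mul_le_mul_of_nonneg_right _ hP0.le
          linarith
      _ ≤ M := hLP
  obtain ⟨Err, hErr⟩ : ∃ Err, Err = (N : ℝ) / L ^ (2 * C + 18) := ⟨_, rfl⟩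
  rw [← hErr] at hG hA
  have hErr0 : 0 ≤ Err := by rw [hErr]; positivity
  have hyY : y ≤ Nat.sqrt N := Nat.le_sqrt'.2 hy
  have hmain := dw (b := b) ha c (fun m => thp (fv (-a) (-b) c m).toNat) (M1 := M1) (J := J) (Y := Nat.sqrt N) (m0 := m0)
    (L1 := 3 * L) (G := G) (S := S) (Err := Err) (fun m => thp_nonneg _) (fun m hm => (thp_le_log _).trans (hlog m hm)) hG0 s0 hErr0
    (fun j hj => hA j hj) hbm0 hM1 (fun m hm1 hm2 => hJ m hm1 (Nat.le_sqrt'.1 hm2)) y hyY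
  refine hmain.trans ?_
  have hML : 0 < M / L ^ (C + 5) := by positivity
  have e1 : (m0 : ℝ) * (3 * L + S) ≤ M / L ^ (C + 5) / 4 := by
    calc (m0 : ℝ) * (3 * L + S) ≤ (M / P) * (4 * L) := by
          apply mul_le_mul hm01 (by linarith) (by positivity) (by positivity)
      _ = M / L ^ (C + 5) * (4 / L ^ 2) := by
          rw [hP, show C + 8 = (C + 5) + 2 + 1 by ring, pow_succ L (C + 5 + 2), pow_add L (C + 5) 2]
          field_simp
      _ ≤ M / L ^ (C + 5) * (1 / 4) := by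
          apply mul_le_mul_of_nonneg_left _ (by positivity)
          rw [div_le_div_iff₀ (by positivity) (by norm_num)]
          nlinarith
      _ = _ := by ring
  have e2 : 2 * (Err + 2 * S * G + 3 * L * G) / ((m0 : ℝ) + 1) ≤ M / L ^ (C + 5) / 4 := by
    have hMP : 0 < M / P := by positivity
    have h5 : 2 * (Err + 2 * S * G + 3 * L * G) ≤ 12 * L * Err := by
      have h6 : S * G ≤ L * Err := by gcongr
      have h7 : L * G ≤ L * Err := by gcongr
      have h8 : Err ≤ L * Err := le_mul_of_one_le_left hErr0 hL1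
      linarith
    calc 2 * (Err + 2 * S * G + 3 * L * G) / ((m0 : ℝ) + 1) ≤ (12 * L * Err) / (M / P) := by
          apply div_le_div₀ (by positivity) h5 hMP hm02
      _ = M / L ^ (C + 5) * (12 / L ^ 4) := by
          rw [hErr, ← hMM, hP, show 2 * C + 18 = (C + 5) + (C + 8) + 4 + 1 by ring, pow_succ L (C + 5 + (C + 8) + 4),
            pow_add L (C + 5 + (C + 8)) 4, pow_add L (C + 5) (C + 8)]
          field_simp
      _ ≤ M / L ^ (C + 5) * (1 / 4) := by
          apply mul_le_mul_of_nonneg_left _ (by positivity)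
          rw [div_le_div_iff₀ (by positivity) (by norm_num)]
          have : L ≤ L ^ 4 := le_self_pow₀ hL1 (by norm_num)
          linarith
      _ = _ := by ring
  have e3 : S ≤ M / L ^ (C + 5) / 4 := by
    have h6 : M / L ^ (C + 5) / 4 = M / (4 * L ^ (C + 5)) := by field_simp
    rw [h6, le_div_iff₀ (by positivity)]
    calc S * (4 * L ^ (C + 5)) ≤ L * (L * L ^ (C + 5)) := by
          have : (4 : ℝ) ≤ L := by linarith
          gcongr
      _ = L ^ (C + 7) := by ring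
      _ ≤ L ^ (C + 9) := pow_le_pow_right₀ hL1 (by omega)
      _ ≤ M := hLp
  linarith

/-- the conclusion for one polynomial: the Euler product converges to `S`, which is not small unless a prime divides all the
values, and the number of the prime values is close to the predicted one -/
def GoodS (a b : ℤ) (C N : ℕ) (c : ℤ) : Prop :=
  ∃ S : ℝ, Tendsto (fun z : ℕ => Sz (-a) (-b) c z) atTop (𝓝 S) ∧
  ((∀ p : ℕ, p.Prime → ∃ m : ℕ, ¬ (p : ℤ) ∣ fv (-a) (-b) c m) → 1 / Real.log N ^ 3 ≤ S) ∧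
  ∀ y : ℕ, y ^ 2 ≤ N →
    |(((Icc 1 y).filter (fun t : ℕ => (fv (-a) (-b) c t).toNat.Prime)).card : ℝ) -
      S * ∑ t ∈ (Icc 1 y).filter (fun t : ℕ => 1 < fv (-a) (-b) c t), 1 / Real.log ((fv (-a) (-b) c t : ℤ) : ℝ)| ≤
        Real.sqrt N / Real.log N ^ C

/-- the conclusion for one polynomial -/
theorem goodS_final (a b : ℤ) (ha : 1 ≤ a) (C E : ℕ) : ∀ᶠ N : ℕ in atTop, ∀ z : ℕ, Real.log N ^ (C + 4) ≤ z →
    (z : ℝ) ≤ Real.log N ^ E →
    ∀ (c : ℤ) (G : ℝ) (M1 J : ℕ), 0 < G → G ≤ N / Real.log N ^ (2 * C + 18) → Nat.sqrt N ≤ M1 →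
    ((∀ m : ℕ, b.natAbs ≤ m → m ^ 2 ≤ N → (qf a b m : ℝ) ≤ J * G)) →
    (∀ m ≤ M1, Real.log ((fv (-a) (-b) c m).toNat : ℝ) ≤ 3 * Real.log N) →
    (∀ j ≤ J, |∑ m ∈ Icc 1 M1, wt a b G (j * G) m * thp (fv (-a) (-b) c m).toNat - Sz (-a) (-b) c z * max (j * G + min (c : ℝ) 0) 0| ≤
      N / Real.log N ^ (2 * C + 18)) →
    ¬ IsSquare (b ^ 2 - 4 * a * c) →
    (∀ᶠ M in atTop, |SJ (b ^ 2 - 4 * a * c) z M| ≤ 1 / Real.log N ^ (C + 4)) →
    GoodS a b C N c := by
  obtain ⟨N₂, h2⟩ := Vz_inv_small E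
  obtain ⟨κ, hκ⟩ : ∃ κ : ℝ, κ = (1 / ((-a).natAbs : ℝ)) ^ (-a).natAbs := ⟨_, rfl⟩
  have ha1 : (1 : ℝ) ≤ (-a).natAbs := by exact_mod_cast Int.natAbs_pos.2 (by omega : -a ≠ 0)
  have hκ0 : 0 < κ := by rw [hκ]; positivity
  filter_upwards [sq_of a b ha C E,
    Pool.Agent.Y614.GJ.Core.ev_log 1 (s := 1 / 2) (by norm_num) (100 + 8 * b.natAbs + a + 2 / κ : ℝ), eventually_ge_atTop (N₂ + 3)]
    with N h3 h5 hN z hz1 hz2 c G M1 J hG0 hG hM1 hJ hlog hA hsq htail
  obtain ⟨hLb, -⟩ := h5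
  have hN1 : 1 ≤ N := by omega
  have hb0 : (0 : ℝ) ≤ b.natAbs := Nat.cast_nonneg _
  have har : (1 : ℝ) ≤ a := by exact_mod_cast ha
  have h2κ : 0 < 2 / κ := by positivity
  have hL1 : 1 ≤ Real.log (N : ℝ) := by linarith
  have hzL : Real.log (N : ℝ) ≤ z := (le_self_pow₀ hL1 (by omega)).trans hz1
  have hz2' : 2 ≤ z := by
    have : (2 : ℝ) ≤ z := by linarith
    exact_mod_cast this
  have haz : a ≤ z := by
    have : (a : ℝ) ≤ z := by linarith
    exact_mod_cast this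
  have hV := h2 N (by omega) z (by omega) hz2
  have h6 := h3 z (by omega) hz2 c G M1 J hG0 hG hM1 hJ hlog hA
  obtain ⟨L, hLd⟩ : ∃ L, L = Real.log (N : ℝ) := ⟨_, rfl⟩
  unfold GoodS
  rw [← hLd] at hLb hL1 hzL hz1 hV h6 htail ⊢
  have hL0 : 0 < L := by linarith
  have hz0 : (0 : ℝ) < z := by linarith
  have hP0 : 0 < L ^ (C + 4) := by positivity
  have h5z : 5 / (z : ℝ) ≤ 5 / L ^ (C + 4) := div_le_div_of_nonneg_left (by norm_num) hP0 hz1
  have hLP : L ≤ L ^ (C + 4) := le_self_pow₀ hL1 (by omega)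
  have h6' : 1 / L ^ (C + 4) + 5 / z ≤ 6 / L ^ (C + 4) := by
    have : 6 / L ^ (C + 4) = 1 / L ^ (C + 4) + 5 / L ^ (C + 4) := by ring
    linarith
  have h7 : 6 / L ^ (C + 4) ≤ 1 / 4 := by
    rw [div_le_div_iff₀ hP0 (by norm_num)]
    linarith
  obtain ⟨ℓ, hℓ0, hℓ, hℓ1⟩ := PJ_lim hsq hz2' (by positivity) (h6'.trans (h7.trans (by norm_num))) htail
  obtain ⟨s0, s1⟩ := Sz_bd (-a) (-b) c z
  have h10 : |ℓ - 1| ≤ 12 / L ^ (C + 4) := by
    refine hℓ1.trans ?_
    have : 12 / L ^ (C + 4) = 2 * (6 / L ^ (C + 4)) := by ring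
    linarith
  refine ⟨Sz (-a) (-b) c z * ℓ, ?_, ?_, ?_⟩
  · refine (hℓ.const_mul (Sz (-a) (-b) c z)).congr' ?_
    filter_upwards [eventually_ge_atTop z] with M hM
    rw [Sz_split (by omega) hz2' haz hM]
  · intro hloc
    have hS := Sz_low (by omega : -a ≠ 0) c z (fun p hp => loc_lt (mem_pz.1 hp).2 (hloc p (mem_pz.1 hp).2))
    rw [← hκ] at hS
    have hVp := Vz_pos z
    have hV2 : κ * (1 / L ^ 2) ≤ Sz (-a) (-b) c z := by
      refine le_trans ?_ hS
      have : 1 / L ≤ Vz z := by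
        rw [one_div]
        exact inv_le_of_inv_le₀ hVp hV
      apply mul_le_mul_of_nonneg_left _ hκ0.le
      calc 1 / L ^ 2 = (1 / L) ^ 2 := by rw [div_pow, one_pow]
        _ ≤ Vz z ^ 2 := by gcongr
    have hℓ2 : 1 / 2 ≤ ℓ := by
      have h11 := (abs_le.1 h10).1
      have h12 : 12 / L ^ (C + 4) = 2 * (6 / L ^ (C + 4)) := by ring
      linarith
    have h13 : 1 / L ^ 3 ≤ κ * (1 / L ^ 2) * (1 / 2) := by
      have h14 : 2 ≤ κ * L := by
        have : 2 / κ ≤ L := by linarith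
        rw [div_le_iff₀ hκ0] at this
        linarith
      have e1 : κ * (1 / L ^ 2) * (1 / 2) = (κ * L / 2) * (1 / L ^ 3) := by
        field_simp
      rw [e1]
      have : 0 < 1 / L ^ 3 := by positivity
      nlinarith
    refine h13.trans ?_
    exact mul_le_mul hV2 hℓ2 (by norm_num) s0
  · intro y hy
    have h7' := unweight (a := a) (b := b) (c := c) (by omega) (y := y) (S := Sz (-a) (-b) c z)
      (ε := Real.sqrt N / L ^ (C + 5)) (fun m hm => h6 m ((Nat.pow_le_pow_left hm 2).trans hy))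
    obtain ⟨Sg, hSg⟩ : ∃ Sg, Sg = ∑ t ∈ (Icc 1 y).filter (fun t : ℕ => 1 < fv (-a) (-b) c t),
      1 / Real.log ((fv (-a) (-b) c t : ℤ) : ℝ) := ⟨_, rfl⟩
    rw [← hSg] at h7' ⊢
    have hyN : (y : ℝ) ≤ Real.sqrt N := by
      apply Real.le_sqrt_of_sq_le
      exact_mod_cast hy
    have hSg2 : Sg = ∑ t ∈ Icc 1 y, wp a b c t := by
      rw [hSg, sum_filter]
      rfl
    have hSg0 : 0 ≤ Sg := by
      rw [hSg2]
      exact sum_nonneg fun t _ => (wp_bd a b c t).1
    have hSg1 : Sg ≤ 2 * Real.sqrt N := by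
      rw [hSg2]
      calc ∑ t ∈ Icc 1 y, wp a b c t ≤ ∑ _t ∈ Icc 1 y, (2 : ℝ) :=
            sum_le_sum fun t _ => (wp_bd a b c t).2
        _ = y * 2 := by rw [sum_const, Nat.card_Icc, nsmul_eq_mul, Nat.add_sub_cancel]
        _ ≤ 2 * Real.sqrt N := by linarith
    have hs0 : 0 ≤ Real.sqrt N := Real.sqrt_nonneg _
    have e : (((Icc 1 y).filter (fun t : ℕ => (fv (-a) (-b) c t).toNat.Prime)).card : ℝ) - Sz (-a) (-b) c z * ℓ * Sg =
        ((((Icc 1 y).filter (fun t : ℕ => (fv (-a) (-b) c t).toNat.Prime)).card : ℝ) - Sz (-a) (-b) c z * Sg) -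
        Sz (-a) (-b) c z * (ℓ - 1) * Sg := by ring
    rw [e]
    refine (abs_sub _ _).trans ?_
    have h9 : |Sz (-a) (-b) c z * (ℓ - 1) * Sg| ≤ L * (12 / L ^ (C + 4)) * (2 * Real.sqrt N) := by
      rw [abs_mul, abs_mul, abs_of_nonneg s0, abs_of_nonneg hSg0]
      gcongr
      exact s1.trans hV
    have h11 : Real.sqrt N / L ^ (C + 5) * (8 * b.natAbs + 6) ≤ Real.sqrt N / L ^ C / 2 := by
      have e2 : 8 * (b.natAbs : ℝ) + 6 ≤ L := by linarith
      calc Real.sqrt N / L ^ (C + 5) * (8 * b.natAbs + 6) ≤ Real.sqrt N / L ^ (C + 5) * L := by gcongr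
        _ = Real.sqrt N / L ^ C * (1 / L ^ 4) := by
            rw [show C + 5 = C + 4 + 1 by ring, pow_succ, pow_add]
            field_simp
        _ ≤ Real.sqrt N / L ^ C * (1 / 2) := by
            apply mul_le_mul_of_nonneg_left _ (by positivity)
            apply one_div_le_one_div_of_le (by norm_num)
            have : L ≤ L ^ 4 := le_self_pow₀ hL1 (by norm_num)
            linarith
        _ = _ := by ring
    have h12 : L * (12 / L ^ (C + 4)) * (2 * Real.sqrt N) ≤ Real.sqrt N / L ^ C / 2 := by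
      have e1 : L * (12 / L ^ (C + 4)) * (2 * Real.sqrt N) = Real.sqrt N / L ^ C * (24 / L ^ 3) := by
        rw [pow_add L C 4]
        field_simp
        try ring
      rw [e1, div_eq_mul_inv (Real.sqrt N / L ^ C) 2]
      apply mul_le_mul_of_nonneg_left _ (by positivity)
      rw [div_le_iff₀ (by positivity)]
      have : L ≤ L ^ 3 := le_self_pow₀ hL1 (by norm_num)
      linarith
    linarith

end Pool.Agent.K7.H51.PT
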