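import Mathlib
import Pool.Agent.K7.H51.PS.Sb

set_option autoImplicit false

/-! All but few constant terms: the partial sums of `(D / p) / p`, up to a larger bound. -/

namespace Pool.Agent.K7.H51.PT

open Finset Filter Topology
open Pool.Agent.W468.ConjF
open Pool.Agent.H307R2.OP (J PB badCount)
open Pool.Agent.Y868.TB (BadA badA_card mid_sum_A aux3)
open Pool.Agent.K7.H51.PS

lemma sb2' {i L c : ℝ} (hc : 0.6931471803 < c) (hc' : c < 0.6931471808) (h : i * c ≤ c + L / 8) (hL : 22 ≤ L) : i ≤ L := by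
  nlinarith

/-- all but few constant terms -/
theorem stat (a b : ℤ) (ha : a ≠ 0) (A : ℕ) : ∃ B : ℕ, ∀ E : ℕ, ∀ᶠ N : ℕ in atTop, ∀ z : ℕ, Real.log N ^ B ≤ z →
    (z : ℝ) ≤ Real.log N ^ E → ∃ Ex : Finset ℤ, (#Ex : ℝ) ≤ (N : ℝ) ^ (3 / 4 : ℝ) ∧
      ∀ c ∈ Icc (-(N : ℤ)) N, c ∉ Ex → b ^ 2 - 4 * a * c ≠ 0 →
        (∀ w : ℕ, z ≤ w → (w : ℝ) ≤ (N : ℝ) ^ (1 / 8 : ℝ) → |SJ (b ^ 2 - 4 * a * c) z w| ≤ 1 / Real.log N ^ A) ∧
        (¬ IsSquare (b ^ 2 - 4 * a * c) → ∀ᶠ M in atTop, |SJ (b ^ 2 - 4 * a * c) z M| ≤ 1 / Real.log N ^ A) := by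
  classical
  obtain ⟨A1, hA1⟩ : ∃ A1 : ℕ, A1 = A + 3 := ⟨_, rfl⟩
  obtain ⟨B, hB⟩ : ∃ B : ℕ, B = 288 * (2 * A1 + 2) := ⟨_, rfl⟩
  refine ⟨B, fun E => ?_⟩
  obtain ⟨K, hK⟩ : ∃ K : ℕ, K = b.natAbs ^ 2 + 4 * a.natAbs := ⟨_, rfl⟩
  obtain ⟨N', hN'⟩ : ∃ N' : ℕ, N' = 16 * (1 + 400 * A1) := ⟨_, rfl⟩
  have hN'1 : 1 ≤ N' := by omega
  have hN'r : (0 : ℝ) < N' := by exact_mod_cast hN'1
  obtain ⟨n₁, hn₁⟩ := tail (2 * (2 * N' + 1))
  obtain ⟨G0, hG0⟩ : ∃ G0 : ℝ, G0 = 16 * 400 ^ 200 * 2 ^ (400 * A1) := ⟨_, rfl⟩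
  have hG00 : 0 < G0 := by rw [hG0]; positivity
  have hcast : Tendsto (fun n : ℕ => (n : ℝ)) atTop atTop := tendsto_natCast_atTop_atTop
  have hlog : Tendsto (fun n : ℕ => Real.log (n : ℝ)) atTop atTop := Real.tendsto_log_atTop.comp hcast
  have hlogO : ∀ᶠ x : ℝ in atTop, ((2 * A1 + 2 : ℕ) : ℝ) * Real.log x ≤ x / 32 := by
    have h1 := Real.isLittleO_log_id_atTop.bound (show (0 : ℝ) < 1 / (32 * ((2 * A1 + 2 : ℕ) : ℝ)) by positivity)
    filter_upwards [h1, eventually_ge_atTop 1] with x hx hx1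
    rw [Real.norm_of_nonneg (Real.log_nonneg hx1), id, Real.norm_of_nonneg (by linarith)] at hx
    have hk : (0 : ℝ) < ((2 * A1 + 2 : ℕ) : ℝ) := by positivity
    calc ((2 * A1 + 2 : ℕ) : ℝ) * Real.log x ≤ ((2 * A1 + 2 : ℕ) : ℝ) * (1 / (32 * ((2 * A1 + 2 : ℕ) : ℝ)) * x) :=
          mul_le_mul_of_nonneg_left hx hk.le
      _ = x / 32 := by field_simp
  filter_upwards [hlog.eventually_ge_atTop 100, hlog.eventually hlogO, hlog.eventually_ge_atTop (16 * 32 ^ (A + 1)),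
    hcast.eventually (Pool.Agent.H398R2.BV.ev_log 1 E (1 / 8) (by norm_num)),
    hcast.eventually (Pool.Agent.H398R2.BV.ev_log 96 (A + 1) (1 / 8) (by norm_num)),
    hcast.eventually (Pool.Agent.H398R2.BV.ev_log (1120 + n₁) A (1 / (N' : ℝ)) (by positivity)),
    hcast.eventually (Pool.Agent.H398R2.BV.ev_log 4 1 (1 / (N' : ℝ)) (by positivity)),
    hcast.eventually (Pool.Agent.H398R2.BV.ev_log (4 * ((K : ℝ) + 1) * (32 + G0)) 1 (1 / 16) (by norm_num)),
    eventually_ge_atTop (K ^ 3 + 3)] with N h1 h2 h3 h4 h5 h6 h6' h7 h8 z hz1 hz2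
  obtain ⟨L, hL⟩ : ∃ L, L = Real.log (N : ℝ) := ⟨_, rfl⟩
  rw [← hL] at h1 h2 h3 h4 h5 h6 h6' h7 hz1 hz2 ⊢
  have hL0 : 0 < L := by linarith
  have hL1 : 1 ≤ L := by linarith
  have hN3 : 3 ≤ N := by omega
  have hNr : (3 : ℝ) ≤ N := by exact_mod_cast hN3
  have hN0 : (0 : ℝ) < N := by linarith
  have hN1 : (1 : ℝ) ≤ N := by linarith
  have hKN : K ≤ N := by
    have : K ≤ K ^ 3 := Nat.le_self_pow (by norm_num) K
    omega
  rw [pow_one] at h7
  rw [one_mul] at h4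
  rw [pow_one] at h6'
  -- the size of the discriminants
  obtain ⟨Δ, hΔd⟩ : ∃ Δ, Δ = K * N := ⟨_, rfl⟩
  have hΔ : ∀ c ∈ Icc (-(N : ℤ)) N, (b ^ 2 - 4 * a * c).natAbs ≤ Δ := by
    intro c hc
    rw [mem_Icc] at hc
    have hcN : c.natAbs ≤ N := by omega
    calc (b ^ 2 - 4 * a * c).natAbs ≤ (b ^ 2).natAbs + (4 * a * c).natAbs := Int.natAbs_sub_le _ _
      _ = b.natAbs ^ 2 + 4 * a.natAbs * c.natAbs := by
          rw [Int.natAbs_pow, Int.natAbs_mul, Int.natAbs_mul]; rfl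
      _ ≤ b.natAbs ^ 2 * N + 4 * a.natAbs * N := by
          apply add_le_add
          · exact Nat.le_mul_of_pos_right _ (by omega)
          · exact Nat.mul_le_mul_left _ hcN
      _ = Δ := by rw [hΔd, hK]; ring
  obtain ⟨ℓ, hℓd⟩ : ∃ ℓ, ℓ = Nat.log 2 Δ + 1 := ⟨_, rfl⟩
  have hΔℓ : Δ < 2 ^ ℓ := by rw [hℓd]; exact Nat.lt_pow_succ_log_self (by norm_num) Δ
  have hlog2 := Real.log_two_gt_d9
  have hlog2' := Real.log_two_lt_d9
  have hℓ : (ℓ : ℝ) ≤ 3 * L := by
    have g1 : (Nat.log 2 Δ : ℝ) * Real.log 2 ≤ 2 * L := by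
      rcases Nat.eq_zero_or_pos Δ with g2 | g2
      · rw [g2, Nat.log_zero_right]
        simp only [Nat.cast_zero, zero_mul]
        positivity
      · have g3 : ((2 ^ (Nat.log 2 Δ) : ℕ) : ℝ) ≤ (N : ℝ) ^ 2 := by
          have g4 : 2 ^ (Nat.log 2 Δ) ≤ Δ := Nat.pow_log_le_self 2 (by omega)
          have g5 : Δ ≤ N ^ 2 := by
            rw [hΔd, sq]
            exact Nat.mul_le_mul_right _ hKN
          exact_mod_cast g4.trans g5
        push_cast at g3
        have g4 := Real.log_le_log (by positivity) g3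
        rw [Real.log_pow, Real.log_pow] at g4
        rw [hL]
        exact_mod_cast g4
    rw [hℓd]
    push_cast
    have g5 : (0 : ℝ) ≤ (Nat.log 2 Δ : ℝ) := Nat.cast_nonneg _
    exact sb1 g5 hlog2 g1 (by linarith)
  have hℓ0 : (0 : ℝ) ≤ (Nat.log 2 Δ : ℝ) := Nat.cast_nonneg _
  have hℓ' : (Nat.log 2 Δ : ℝ) ≤ 3 * L := by
    rw [hℓd] at hℓ
    push_cast at hℓ
    linarith
  -- the parameter `z`
  have hz0' : (1 : ℝ) ≤ z := (one_le_pow₀ hL1).trans hz1
  have hz0 : (0 : ℝ) < z := by linarith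
  have hzn : 1 ≤ z := by exact_mod_cast hz0'
  have hzL : L ≤ z := by
    have : L ≤ L ^ B := le_self_pow₀ hL1 (by omega)
    linarith
  obtain ⟨i0, hi0⟩ : ∃ i0, i0 = Nat.log 2 z := ⟨_, rfl⟩
  have hzi1 : 2 ^ i0 ≤ z := by rw [hi0]; exact Nat.pow_log_le_self 2 (by omega)
  have hzi2 : z < 2 ^ (i0 + 1) := by rw [hi0]; exact Nat.lt_pow_succ_log_self (by norm_num) z
  have hi01 : 1 ≤ i0 := by
    by_contra hcon
    have : i0 = 0 := by omega
    rw [this] at hzi2
    have h : (z : ℝ) < 2 := by exact_mod_cast hzi2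
    linarith
  -- the parameter `i1`
  obtain ⟨y, hy⟩ : ∃ y : ℝ, y = (N : ℝ) ^ (1 / 8 : ℝ) := ⟨_, rfl⟩
  obtain ⟨ω, hω⟩ : ∃ ω : ℝ, ω = (N : ℝ) ^ (1 / 16 : ℝ) := ⟨_, rfl⟩
  rw [← hy] at h4 h5 ⊢
  have hy0 : 0 < y := by rw [hy]; positivity
  have hy1 : 1 ≤ y := by rw [hy]; exact Real.one_le_rpow hN1 (by norm_num)
  have hω0 : 0 < ω := by rw [hω]; positivity
  have hω1 : 1 ≤ ω := by rw [hω]; exact Real.one_le_rpow hN1 (by norm_num)
  have hω2 : ω ^ 2 = y := by
    rw [hω, hy, ← Real.rpow_natCast, ← Real.rpow_mul hN0.le]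
    norm_num
  have hω16 : ω ^ 16 = N := by
    rw [hω, ← Real.rpow_natCast, ← Real.rpow_mul hN0.le]
    norm_num
  have hy8 : y ^ 8 = N := by
    rw [hy, ← Real.rpow_natCast, ← Real.rpow_mul hN0.le]
    norm_num
  have hlogy : Real.log y = L / 8 := by
    rw [hy, Real.log_rpow hN0, hL]
    ring
  have hyf : 1 ≤ ⌊y⌋₊ := Nat.le_floor (by exact_mod_cast hy1)
  obtain ⟨i1, hi1⟩ : ∃ i1, i1 = Nat.log 2 ⌊y⌋₊ + 1 := ⟨_, rfl⟩
  have hyi1 : y < 2 ^ i1 := by
    have g1 : ⌊y⌋₊ < 2 ^ i1 := by rw [hi1]; exact Nat.lt_pow_succ_log_self (by norm_num) _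
    have g2 := Nat.lt_floor_add_one y
    have g3 : ((⌊y⌋₊ + 1 : ℕ) : ℝ) ≤ ((2 ^ i1 : ℕ) : ℝ) := by exact_mod_cast g1
    push_cast at g3
    linarith
  have hyi2 : (2 : ℝ) ^ i1 ≤ 2 * y := by
    have g1 : 2 ^ (Nat.log 2 ⌊y⌋₊) ≤ ⌊y⌋₊ := Nat.pow_log_le_self 2 (by omega)
    have g2 : ((2 ^ (Nat.log 2 ⌊y⌋₊) : ℕ) : ℝ) ≤ y := (Nat.cast_le.2 g1).trans (Nat.floor_le hy0.le)
    rw [hi1, pow_succ]
    push_cast at g2
    linarith
  have hi0i1 : i0 < i1 := by
    rw [hi1, hi0, Nat.lt_succ_iff]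
    apply Nat.log_mono_right
    apply Nat.le_floor
    exact hz2.trans h4
  have hi1L : (i1 : ℝ) ≤ L := by
    have g1 : ((i1 : ℕ) : ℝ) * Real.log 2 ≤ Real.log 2 + L / 8 := by
      have g2 := Real.log_le_log (by positivity) hyi2
      rw [Real.log_pow, Real.log_mul (by norm_num) hy0.ne', hlogy] at g2
      exact g2
    exact sb2' hlog2 hlog2' g1 (by linarith)
  have hi1L' : L / 32 ≤ i1 := by
    have g2 := Real.log_le_log hy0 hyi1.le
    rw [Real.log_pow, hlogy] at g2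
    have : (0 : ℝ) ≤ i1 := Nat.cast_nonneg _
    have h9 := sb3 this hlog2' g2
    linarith
  -- the first set
  obtain ⟨τ, hτ⟩ : ∃ τ : ℝ, τ = 1 / L ^ A1 := ⟨_, rfl⟩
  have hτ0 : 0 < τ := by rw [hτ]; positivity
  have hB1 : ∀ i ∈ Ico i0 i1, (B : ℝ) * Real.log L ≤ (i : ℝ) + 1 := by
    intro i hi
    rw [mem_Ico] at hi
    have g1 : L ^ B ≤ (2 : ℝ) ^ (i + 1) := by
      have g2 : ((z : ℕ) : ℝ) ≤ ((2 ^ (i0 + 1) : ℕ) : ℝ) := by exact_mod_cast hzi2.le
      have g3 : ((2 : ℝ)) ^ (i0 + 1) ≤ (2 : ℝ) ^ (i + 1) := pow_le_pow_right₀ (by norm_num) (by omega)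
      push_cast at g2
      linarith
    have g4 := Real.log_le_log (by positivity) g1
    rw [Real.log_pow, Real.log_pow] at g4
    push_cast at g4
    have : (0 : ℝ) ≤ (i : ℝ) + 1 := by positivity
    exact sb3 this hlog2' g4
  have hbw := badW_card Δ z i0 i1 τ (Real.exp (L / 16)) hτ0 (by positivity) hi01 (fun i => 3 * ℓ / (i + 1) + 1)
    (fun i => Nat.le_add_left 1 _) (by
      intro i hi
      calc Δ ^ 3 ≤ (2 ^ ℓ) ^ 3 := Nat.pow_le_pow_left hΔℓ.le 3
        _ = 2 ^ (3 * ℓ) := by rw [← pow_mul, mul_comm]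
        _ ≤ 2 ^ ((i + 1) * (3 * ℓ / (i + 1) + 1)) := by
            apply Nat.pow_le_pow_right (by norm_num)
            have := Nat.div_add_mod (3 * ℓ) (i + 1)
            have g := Nat.mod_lt (3 * ℓ) (show 0 < i + 1 by omega)
            exact sb4 (3 * ℓ) (i + 1) (by omega)
        _ = (2 * 2 ^ i) ^ (3 * ℓ / (i + 1) + 1) := by rw [← pow_succ', ← pow_mul])
    (by
      intro i hi
      rw [hτ]
      exact kbound (by linarith) hℓ (hB1 i hi) hB rfl h2)
  have hexp : Real.exp (L / 16) = ω := by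
    rw [hω, Real.rpow_def_of_pos hN0, ← hL]
    congr 1
    ring
  have hbw' : (#(BadW Δ z i0 i1 τ) : ℝ) ≤ 32 * L * ω ^ 3 := by
    refine hbw.trans ?_
    rw [hexp]
    calc 16 * (i1 : ℝ) * 2 ^ i1 * ω ≤ 16 * L * (2 * y) * ω := by gcongr
      _ = 32 * L * (y * ω) := by ring
      _ = _ := by rw [← hω2]; ring
  -- the second parameter
  obtain ⟨t, ht⟩ : ∃ t : ℝ, t = (N : ℝ) ^ (1 / (N' : ℝ)) := ⟨_, rfl⟩
  rw [← ht] at h6 h6'
  have ht0 : 0 < t := by rw [ht]; positivity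
  have ht1 : 1 ≤ t := by rw [ht]; exact Real.one_le_rpow hN1 (by positivity)
  have htN : t ^ N' = N := by
    rw [ht, ← Real.rpow_natCast, ← Real.rpow_mul hN0.le]
    have : (1 : ℝ) / N' * (N' : ℕ) = 1 := by field_simp
    rw [this, Real.rpow_one]
  have hn₁0 : (0 : ℝ) ≤ n₁ := Nat.cast_nonneg _
  have hLA : 1 ≤ L ^ A := one_le_pow₀ hL1
  have htn₁ : (n₁ : ℝ) ≤ t := sb5 h6 hLA hn₁0
  obtain ⟨I, hI⟩ : ∃ I, I = ⌈t⌉₊ := ⟨_, rfl⟩
  have htI : t ≤ I := by rw [hI]; exact Nat.le_ceil t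
  have hI2t : (I : ℝ) ≤ 2 * t := by
    have := Nat.ceil_lt_add_one ht0.le
    rw [← hI] at this
    linarith
  have hiI : i1 ≤ I := by
    have g1 : (i1 : ℝ) ≤ I := by linarith
    exact_mod_cast g1
  have hIn : n₁ ≤ I := by
    have g1 : (n₁ : ℝ) ≤ I := htn₁.trans htI
    exact_mod_cast g1
  have hI4 : 4 ≤ I := by
    have g1 : (4 : ℝ) ≤ I := by linarith
    exact_mod_cast g1
  have hNI : N ≤ I ^ N' := by
    have g1 : (N : ℝ) ≤ (I : ℝ) ^ N' := by
      rw [← htN]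
      exact pow_le_pow_left₀ ht0.le htI N'
    exact_mod_cast g1
  have hi11 : 1 ≤ i1 := by omega
  have hΔ3 : Δ ^ 3 ≤ (2 * 2 ^ i1) ^ 200 := by
    have g1 : (Δ : ℝ) ^ 3 ≤ (2 * (2 : ℝ) ^ i1) ^ 200 := by
      have g2 : (K : ℝ) ^ 3 ≤ N := by exact_mod_cast (by omega : K ^ 3 ≤ N)
      calc (Δ : ℝ) ^ 3 = (K : ℝ) ^ 3 * (N : ℝ) ^ 3 := by rw [hΔd]; push_cast; ring
        _ ≤ N * (N : ℝ) ^ 3 := by gcongr
        _ = (y ^ 8) ^ 4 := by rw [hy8]; ring
        _ = y ^ 32 := by rw [← pow_mul]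
        _ ≤ y ^ 200 := pow_le_pow_right₀ hy1 (by norm_num)
        _ ≤ (2 * (2 : ℝ) ^ i1) ^ 200 := by
            apply pow_le_pow_left₀ hy0.le
            linarith
    exact_mod_cast g1
  have hba := badA_card A1 Δ i1 I 200 hi11 (by norm_num) hΔ3
  have hba' : (#(BadA A1 Δ i1 I) : ℝ) ≤ G0 * ω := by
    refine hba.trans ?_
    have g1 : (I : ℝ) * (8 * (2 * ((200 : ℕ) : ℝ) * (I : ℝ) ^ (2 * A1)) ^ 200) ≤
        2 * t * (8 * (400 * (2 * t) ^ (2 * A1)) ^ 200) := by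
      push_cast
      norm_num
      gcongr
    have g2 : 2 * t * (8 * (400 * (2 * t) ^ (2 * A1)) ^ 200) = G0 * t ^ (1 + 400 * A1) := by
      rw [hG0, mul_pow 400 ((2 * t) ^ (2 * A1)) 200, ← pow_mul, show 2 * A1 * 200 = 400 * A1 by ring, mul_pow 2 t, pow_add t 1, pow_one]
      ring
    have g3 : t ^ (1 + 400 * A1) = ω := by
      rw [hω, ht, ← Real.rpow_natCast, ← Real.rpow_mul hN0.le]
      congr 1
      rw [hN']
      push_cast
      field_simp
    rw [g2, g3] at g1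
    exact g1
  -- the exceptional set
  obtain ⟨T, hT⟩ : ∃ T, T = ({1, -1, 2, -2} : Finset ℤ) ×ˢ range (Nat.sqrt Δ + 1) ×ˢ (BadW Δ z i0 i1 τ ∪ BadA A1 Δ i1 I) := ⟨_, rfl⟩
  obtain ⟨Ex, hEx⟩ : ∃ Ex, Ex = (Icc (-(N : ℤ)) N).filter (fun c : ℤ => ∃ t ∈ T, b ^ 2 - 4 * a * c = t.1 * (t.2.1 : ℤ) ^ 2 * t.2.2) :=
    ⟨_, rfl⟩
  refine ⟨Ex, ?_, ?_⟩
  · have g1 : #Ex ≤ #T := by
      have g2 : #Ex = #(Ex.image (fun c : ℤ => b ^ 2 - 4 * a * c)) := by
        rw [card_image_of_injective]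
        intro c c' h
        simp only at h
        have g3 : 4 * a * (c - c') = 0 := by linarith
        rcases mul_eq_zero.1 g3 with g4 | g4
        · omega
        · omega
      rw [g2]
      calc #(Ex.image (fun c : ℤ => b ^ 2 - 4 * a * c)) ≤ #(T.image (fun t : ℤ × ℕ × ℕ => t.1 * (t.2.1 : ℤ) ^ 2 * t.2.2)) := by
            apply card_le_card
            intro x hx
            rw [mem_image] at hx ⊢
            obtain ⟨c, hc, rfl⟩ := hx
            rw [hEx, mem_filter] at hc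
            obtain ⟨-, t, ht, g3⟩ := hc
            exact ⟨t, ht, g3.symm⟩
        _ ≤ #T := card_image_le
    have g2 : #T ≤ 4 * (Nat.sqrt Δ + 1) * (#(BadW Δ z i0 i1 τ) + #(BadA A1 Δ i1 I)) := by
      rw [hT, card_product, card_product, card_range, show #({1, -1, 2, -2} : Finset ℤ) = 4 from rfl, mul_assoc]
      exact Nat.mul_le_mul_left _ (Nat.mul_le_mul_left _ (card_union_le _ _))
    have g3 : (Nat.sqrt Δ : ℝ) ≤ K * Real.sqrt N := by
      have g4 : (Nat.sqrt Δ : ℝ) ≤ Real.sqrt Δ := Real.nat_sqrt_le_real_sqrt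
      refine g4.trans ?_
      rw [hΔd]
      push_cast
      rw [Real.sqrt_mul (Nat.cast_nonneg _)]
      apply mul_le_mul_of_nonneg_right _ (Real.sqrt_nonneg _)
      rw [Real.sqrt_le_left (Nat.cast_nonneg _)]
      have : (K : ℝ) ≤ (K : ℝ) ^ 2 := by exact_mod_cast Nat.le_self_pow (by norm_num) K
      exact this
    have hs16 : Real.sqrt N = ω ^ 8 := by
      rw [← hω16, show 16 = 8 * 2 by norm_num, pow_mul, Real.sqrt_sq (by positivity)]
    rw [hs16] at g3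
    have hω8 : 1 ≤ ω ^ 8 := one_le_pow₀ hω1
    calc (#Ex : ℝ) ≤ ((4 * (Nat.sqrt Δ + 1) * (#(BadW Δ z i0 i1 τ) + #(BadA A1 Δ i1 I)) : ℕ) : ℝ) := by
          exact_mod_cast g1.trans g2
      _ = 4 * ((Nat.sqrt Δ : ℝ) + 1) * ((#(BadW Δ z i0 i1 τ) : ℝ) + #(BadA A1 Δ i1 I)) := by push_cast; ring
      _ ≤ 4 * ((K + 1) * ω ^ 8) * (32 * L * ω ^ 3 + G0 * L * ω ^ 3) := by
          gcongr
          · linarith
          · refine hba'.trans ?_
            have e1 : ω ≤ ω ^ 3 := le_self_pow₀ hω1 (by norm_num)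
            have e2 : G0 ≤ G0 * L := le_mul_of_one_le_right hG00.le hL1
            exact mul_le_mul e2 e1 hω0.le (by positivity)
      _ = (4 * ((K : ℝ) + 1) * (32 + G0) * L) * ω ^ 11 := by ring
      _ ≤ (N : ℝ) ^ (1 / 16 : ℝ) * ω ^ 11 := by gcongr
      _ = ω * ω ^ 11 := by rw [← hω]
      _ = (N : ℝ) ^ (3 / 4 : ℝ) := by
          rw [← pow_succ', hω, ← Real.rpow_natCast, ← Real.rpow_mul hN0.le]
          norm_num
  · intro c hc hcE hD0
    obtain ⟨D, hDd⟩ : ∃ D, D = b ^ 2 - 4 * a * c := ⟨_, rfl⟩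
    have hDΔ := hΔ c hc
    rw [← hDd] at hD0 hDΔ ⊢
    obtain ⟨δ, s, u, hu, hD, hδ1, hδ2⟩ := kernel _ hD0
    have hδ : δ ∉ BadW Δ z i0 i1 τ ∪ BadA A1 Δ i1 I := by
      intro hcon
      apply hcE
      rw [hEx, mem_filter]
      refine ⟨hc, (u, s, δ), ?_, by rw [← hDd]; exact hD⟩
      have hab : D.natAbs = u.natAbs * s ^ 2 * δ := by
        rw [hD, Int.natAbs_mul, Int.natAbs_mul, Int.natAbs_pow]
        simp
      have hu1 : 1 ≤ u.natAbs := by
        simp only [mem_insert, mem_singleton] at hu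
        rcases hu with rfl | rfl | rfl | rfl <;> norm_num
      have hδ0 : 1 ≤ δ := by omega
      rw [hab] at hDΔ
      rw [hT, mem_product, mem_product]
      refine ⟨hu, ?_, hcon⟩
      rw [mem_range, Nat.lt_succ_iff, Nat.le_sqrt']
      calc s ^ 2 = 1 * s ^ 2 * 1 := by ring
        _ ≤ u.natAbs * s ^ 2 * δ := by gcongr
        _ ≤ Δ := hDΔ
    have hδΔ : δ < Δ + 1 := by
      have hab : D.natAbs = u.natAbs * s ^ 2 * δ := by
        rw [hD, Int.natAbs_mul, Int.natAbs_mul, Int.natAbs_pow]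
        simp
      have hu1 : 1 ≤ u.natAbs := by
        simp only [mem_insert, mem_singleton] at hu
        rcases hu with rfl | rfl | rfl | rfl <;> norm_num
      have hs0 : s ≠ 0 := by
        rintro rfl
        apply hD0; rw [hD]; simp
      have hs1 : 1 ≤ s ^ 2 := Nat.one_le_pow _ _ (Nat.pos_of_ne_zero hs0)
      rw [hab] at hDΔ
      have : δ ≤ Δ := by
        calc δ = 1 * 1 * δ := by ring
          _ ≤ u.natAbs * s ^ 2 * δ := by gcongr
          _ ≤ Δ := hDΔ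
      omega
    rw [mem_union, not_or] at hδ
    obtain ⟨hδW, hδA⟩ := hδ
    -- the low blocks
    have hlow : ∀ i ∈ Ico i0 i1, ∀ w : ℕ, w ≤ 2 ^ (i + 1) → |SJ D (max z (2 ^ i)) w| ≤ 4 * τ + 4 * (3 * L / z) := by
      intro i hi w hw
      have hv : z ≤ max z (2 ^ i) := le_max_left _ _
      have hvr : (z : ℝ) ≤ ((max z (2 ^ i) : ℕ) : ℝ) := by exact_mod_cast hv
      have hz2' : 2 ≤ z := by
        have : (2 : ℝ) ≤ z := by linarith
        exact_mod_cast this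
      refine (blkW D Δ hDΔ δ s u hu hD0 hD hδ2 (max z (2 ^ i)) w (by omega) τ ?_).trans ?_
      · intro r hr
        by_contra hcon
        push Not at hcon
        apply hδW
        unfold BadW
        rw [mem_filter, mem_range]
        exact ⟨hδΔ, hδ1, hδ2, i, hi, r, hr, w, hw, hcon⟩
      · have g1 : (Nat.log 2 Δ : ℝ) / ((max z (2 ^ i) : ℕ) : ℝ) ≤ 3 * L / z := div_le_div₀ (by positivity) hℓ' hz0 hvr
        linarith
    have hlow' := SJ_low D z i0 i1 (4 * τ + 4 * (3 * L / z)) (by positivity) hzi1 hzi2 hlow (i1 - 1) (by omega) (by omega)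
    have hsmall : ((((i1 - 1 : ℕ) : ℝ)) + 1) * (4 * τ + 4 * (3 * L / z)) ≤ 1 / (4 * L ^ A) := by
      have g1 : (((i1 - 1 : ℕ) : ℝ)) + 1 = i1 := by
        rw [Nat.cast_sub hi11]
        push_cast
        ring
      rw [g1]
      have g2 : 3 * L / z ≤ 3 / L ^ (A + 3) := by
        rw [div_le_div_iff₀ hz0 (by positivity)]
        have g3 : L * L ^ (A + 3) ≤ z := by
          calc L * L ^ (A + 3) = L ^ (A + 4) := by ring
            _ ≤ L ^ B := pow_le_pow_right₀ hL1 (by omega)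
            _ ≤ z := hz1
        exact sb10 g3
      have g3 : 4 * τ + 4 * (3 * L / z) ≤ 16 / L ^ (A + 3) := by
        rw [hτ, hA1]
        have : 16 / L ^ (A + 3) = 4 * (1 / L ^ (A + 3)) + 4 * (3 / L ^ (A + 3)) := by ring
        rw [this]
        linarith
      calc (i1 : ℝ) * (4 * τ + 4 * (3 * L / z)) ≤ L * (16 / L ^ (A + 3)) := by gcongr
        _ = (16 / L ^ 2) / L ^ A := by
            rw [pow_add]
            field_simp
        _ ≤ (1 / 4) / L ^ A := by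
            apply div_le_div_of_nonneg_right _ (by positivity)
            rw [div_le_iff₀ (by positivity)]
            exact sb6 h1
        _ = _ := by
            field_simp
    have hA4 : 1 / (4 * L ^ A) ≤ 1 / L ^ A := by
      apply one_div_le_one_div_of_le (by positivity)
      have : 0 < L ^ A := by positivity
      linarith
    have hpow : 2 ^ (i1 - 1 + 1) = 2 ^ i1 := by congr 1; omega
    rw [hpow] at hlow'
    refine ⟨?_, ?_⟩
    · intro w hzw hwy
      have hw2 : w ≤ 2 ^ i1 := by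
        have : (w : ℝ) < ((2 ^ i1 : ℕ) : ℝ) := by
          push_cast
          linarith
        exact_mod_cast this.le
      exact (hlow' w hzw hw2).trans (hsmall.trans hA4)
    · intro hsq
      have hz2i1 : z ≤ 2 ^ i1 := by
        have : (z : ℝ) < ((2 ^ i1 : ℕ) : ℝ) := by
          push_cast
          linarith
        exact_mod_cast this.le
      have b1 : |SJ D z (2 ^ i1)| ≤ 1 / (4 * L ^ A) := (hlow' (2 ^ i1) hz2i1 le_rfl).trans hsmall
      have b2 : |SJ D (2 ^ i1) (2 ^ (I + 1))| ≤ 1 / (2 * L ^ A) := by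
        have hi12 : 2 ≤ i1 := by omega
        refine (mid_sum_A (A + 1) D i1 I (Nat.log 2 Δ) (by positivity) hi12 hiI ?_).trans ?_
        · intro i hi
          have hi' := mem_Icc.1 hi
          rw [← blk_SJ]
          have g0 : 2 ≤ 2 ^ i := by
            calc 2 = 2 ^ 1 := rfl
              _ ≤ 2 ^ i := Nat.pow_le_pow_right (by norm_num) (by omega)
          have g1 := blkW D Δ hDΔ δ s u hu hD0 hD hδ2 (2 ^ i) (2 ^ (i + 1)) g0 (1 / (i : ℝ) ^ A1) (by
            intro r hr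
            by_contra hcon
            push Not at hcon
            apply hδA
            rw [BadA, mem_filter, mem_range]
            exact ⟨hδΔ, hδ1, hδ2, i, hi, r, hr, hcon⟩)
          rw [hA1] at g1
          push_cast at g1
          exact g1
        · have g1 : 4 / (i1 : ℝ) ^ (A + 1) ≤ 1 / (4 * L ^ A) := by
            have g2 : (L / 32) ^ (A + 1) ≤ (i1 : ℝ) ^ (A + 1) := pow_le_pow_left₀ (by positivity) hi1L' _
            have g3 : 0 < (L / 32) ^ (A + 1) := by positivity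
            calc 4 / (i1 : ℝ) ^ (A + 1) ≤ 4 / (L / 32) ^ (A + 1) := div_le_div_of_nonneg_left (by norm_num) g3 g2
              _ = (4 * 32 ^ (A + 1)) / (L * L ^ A) := by
                  rw [div_pow, pow_succ L A]
                  field_simp
              _ ≤ 1 / (4 * L ^ A) := by
                  rw [div_le_div_iff₀ (by positivity) (by positivity)]
                  have : 0 < L ^ A := by positivity
                  exact sb7 h3 this
          have g2 : 8 * (Nat.log 2 Δ : ℝ) / 2 ^ i1 ≤ 1 / (4 * L ^ A) := by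
            rw [div_le_div_iff₀ (by positivity) (by positivity), one_mul]
            calc 8 * (Nat.log 2 Δ : ℝ) * (4 * L ^ A) ≤ 8 * (3 * L) * (4 * L ^ A) := by gcongr
              _ = 96 * L ^ (A + 1) := by rw [pow_succ]; ring
              _ ≤ y := h5
              _ ≤ 2 ^ i1 := hyi1.le
          have g3 : 1 / (2 * L ^ A) = 1 / (4 * L ^ A) + 1 / (4 * L ^ A) := by
            field_simp
            norm_num
          rw [g3]
          exact add_le_add g1 g2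
      have hII : 2 ^ i1 ≤ 2 ^ (I + 1) := Nat.pow_le_pow_right (by norm_num) (by omega)
      have hIlt : I + 1 < 2 ^ (I + 1) := Nat.lt_two_pow_self
      filter_upwards [eventually_ge_atTop (2 ^ (I + 1))] with M hM
      have b3 : |SJ D (2 ^ (I + 1)) M| ≤ 1 / (4 * L ^ A) := by
        refine (hn₁ (2 ^ (I + 1)) (by omega) D hsq ?_ M hM).trans ?_
        · have g1 : (4 * D.natAbs : ℝ) ≤ 4 * (I : ℝ) ^ (2 * N') := by
            have g2 : 4 * D.natAbs ≤ 4 * I ^ (2 * N') := by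
              calc 4 * D.natAbs ≤ 4 * Δ := Nat.mul_le_mul_left 4 hDΔ
                _ ≤ 4 * (N * N) := by rw [hΔd]; exact Nat.mul_le_mul_left 4 (Nat.mul_le_mul_right _ hKN)
                _ ≤ 4 * (I ^ N' * I ^ N') := Nat.mul_le_mul_left 4 (Nat.mul_le_mul hNI hNI)
                _ = 4 * I ^ (2 * N') := by rw [← pow_add, two_mul]
            exact_mod_cast g2
          have g3 : Real.log ((2 ^ (I + 1) : ℕ) : ℝ) = ((I + 1 : ℕ) : ℝ) * Real.log 2 := by
            push_cast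
            rw [Real.log_pow]
            push_cast
            ring
          rw [g3]
          refine g1.trans ?_
          obtain ⟨x, hx⟩ : ∃ x : ℝ, x = ((I + 1 : ℕ) : ℝ) := ⟨_, rfl⟩
          rw [← hx]
          have hx4 : 4 ≤ x := by
            rw [hx]; exact_mod_cast (by omega : 4 ≤ I + 1)
          have hxI : (I : ℝ) ≤ x := by rw [hx]; exact_mod_cast (by omega : I ≤ I + 1)
          have h8' : (0.6 : ℝ) < Real.log 2 := by linarith
          have g4 : x ≤ (x * Real.log 2) ^ 2 := aux3 x _ hx4 h8'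
          calc 4 * (I : ℝ) ^ (2 * N') ≤ x * x ^ (2 * N') := by
                apply mul_le_mul hx4 _ (by positivity) (by linarith)
                exact pow_le_pow_left₀ (by positivity) hxI _
            _ = x ^ (2 * N' + 1) := by ring
            _ ≤ ((x * Real.log 2) ^ 2) ^ (2 * N' + 1) := pow_le_pow_left₀ (by linarith) g4 _
            _ = (x * Real.log 2) ^ (2 * (2 * N' + 1)) := by rw [← pow_mul]
        · have g1 : (I : ℝ) * Real.log 2 ≤ Real.log (((2 ^ (I + 1) : ℕ) : ℝ) - 1) := by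
            rw [← Real.log_pow]
            apply Real.log_le_log (by positivity)
            push_cast
            rw [pow_succ]
            have : (1 : ℝ) ≤ 2 ^ I := one_le_pow₀ (by norm_num)
            linarith
          have g2 : t / 2 ≤ (I : ℝ) * Real.log 2 := sb8 ht0 htI hlog2
          have g3 : 0 < t / 2 := by positivity
          calc 140 / Real.log (((2 ^ (I + 1) : ℕ) : ℝ) - 1) ≤ 140 / (t / 2) :=
                div_le_div_of_nonneg_left (by norm_num) g3 (g2.trans g1)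
            _ ≤ 1 / (4 * L ^ A) := by
                rw [div_le_div_iff₀ g3 (by positivity)]
                have : 0 ≤ (n₁ : ℝ) * L ^ A := by positivity
                exact sb9 h6 this
      rw [SJ_add D z (2 ^ i1) M hz2i1 (hII.trans hM), SJ_add D (2 ^ i1) (2 ^ (I + 1)) M hII hM]
      have g3 : 1 / L ^ A = 1 / (4 * L ^ A) + (1 / (2 * L ^ A) + 1 / (4 * L ^ A)) := by
        field_simp
        norm_num
      rw [g3]
      exact (abs_add_le _ _).trans (add_le_add b1 ((abs_add_le _ _).trans (add_le_add b2 b3)))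

end Pool.Agent.K7.H51.PT
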