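import Mathlib
import Pool.Agent.K7.H51.PT.As3
import Pool.Agent.K7.H51.PT.Fc
import Pool.Agent.K7.H51.PT.Sb
import Pool.Agent.K7.H51.PS.Sd

set_option autoImplicit false

/-! The conclusion, for a general level and constant terms of both signs. -/

namespace Pool.Agent.K7.H51.PT

open Finset Filter Topology
open Pool.Agent.R460.SB (Sz fv)
open Pool.Agent.R460.SQ (thp)
open Pool.Agent.W468.ConjF (SJ)
open Pool.Agent.K7.H51.PS (qf kk pM pN pG pJ k2 floor_half qf_abs fv_qf Sg_main)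

lemma fv_log {l : Lv} {a b : ℤ} {g N : ℕ} (h : PP l a b g N) (hN : 1 + 4 * kk a b ^ 3 ≤ N) {c : ℤ} (hc : c ≤ N)
    {m : ℕ} (hm : m ≤ pM a b N) : Real.log ((fv (-a) (-b) c m).toNat : ℝ) ≤ 3 * Real.log N := by
  have hN0 : (0 : ℝ) < N := by exact_mod_cast h.N1
  have hL0 : 0 < Real.log N := by linarith [h.L1]
  rcases Nat.eq_zero_or_pos (fv (-a) (-b) c m).toNat with h0 | h0
  · rw [h0, Nat.cast_zero, Real.log_zero]
    positivity
  · have h1 : ((fv (-a) (-b) c m).toNat : ℝ) ≤ (N : ℝ) ^ 2 := by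
      have h2 : fv (-a) (-b) c m ≤ N + ((a.natAbs : ℤ) * (pM a b N : ℤ) ^ 2 + b.natAbs * pM a b N) := by
        rw [fv_qf]
        have h3 := (le_abs_self _).trans (qf_abs (a := a) (b := b) hm)
        linarith
      have h3 : ((fv (-a) (-b) c m).toNat : ℝ) ≤ N + ((a.natAbs : ℝ) * (pM a b N : ℝ) ^ 2 + b.natAbs * pM a b N) := by
        have h4 : (((fv (-a) (-b) c m).toNat : ℤ)) ≤ N + ((a.natAbs : ℤ) * (pM a b N : ℤ) ^ 2 + b.natAbs * pM a b N) := by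
          rw [Int.toNat_of_nonneg (by omega)]
          exact h2
        exact_mod_cast h4
      refine h3.trans ?_
      have hkk3 : 3 ≤ kk a b := by unfold kk; omega
      have hkk : (1 : ℝ) ≤ kk a b := by exact_mod_cast (by omega : 1 ≤ kk a b)
      have hx1 := h.x1
      have hM1 : (pM a b N : ℝ) ≤ 2 * kk a b * xx l N ^ l.k := h.M
      have hM0 : (1 : ℝ) ≤ pM a b N := by
        have := h.Mb
        exact_mod_cast (by omega : 1 ≤ pM a b N)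
      have hM2 : (pM a b N : ℝ) ^ 2 ≤ 4 * kk a b ^ 2 * N := by
        calc (pM a b N : ℝ) ^ 2 ≤ (2 * kk a b * xx l N ^ l.k) ^ 2 := pow_le_pow_left₀ (by linarith) hM1 2
          _ = 4 * kk a b ^ 2 * xx l N ^ (2 * l.k) := by ring
          _ = _ := by rw [h.x2k]
      have hM3 : (pM a b N : ℝ) ≤ (pM a b N : ℝ) ^ 2 := le_self_pow₀ hM0 (by norm_num)
      have hab : (a.natAbs : ℝ) + b.natAbs ≤ kk a b := by
        unfold kk
        push_cast
        linarith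
      have hNN : 1 + 4 * (kk a b : ℝ) ^ 3 ≤ N := by exact_mod_cast hN
      calc (N : ℝ) + ((a.natAbs : ℝ) * (pM a b N : ℝ) ^ 2 + b.natAbs * pM a b N) ≤
          N + ((a.natAbs : ℝ) * (pM a b N : ℝ) ^ 2 + b.natAbs * (pM a b N : ℝ) ^ 2) := by gcongr
        _ = N + ((a.natAbs : ℝ) + b.natAbs) * (pM a b N : ℝ) ^ 2 := by ring
        _ ≤ N + kk a b * (4 * kk a b ^ 2 * N) := by gcongr
        _ = (1 + 4 * kk a b ^ 3) * N := by ring
        _ ≤ N * N := by gcongr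
        _ = _ := by ring
    have h5 : (0 : ℝ) < ((fv (-a) (-b) c m).toNat : ℝ) := by exact_mod_cast h0
    refine (Real.log_le_log h5 h1).trans ?_
    rw [Real.log_pow]
    push_cast
    linarith

lemma J_G {l : Lv} {a b : ℤ} {g N : ℕ} (h : PP l a b g N) {m : ℕ} (hm2 : m ^ 2 ≤ N) :
    (qf a b m : ℝ) ≤ (pJ a b g N : ℝ) * pG g N := by
  have h1 : (a.natAbs + b.natAbs) * N ≤ pJ a b g N * pG g N := by
    unfold pJ
    have h2 := Nat.lt_mul_div_succ ((a.natAbs + b.natAbs) * N) (show 0 < pG g N from h.G0)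
    rw [mul_comm (pG g N)] at h2
    exact h2.le
  have h3 : qf a b m ≤ (((a.natAbs + b.natAbs) * N : ℕ) : ℤ) := by
    have h4 : (m : ℤ) ≤ (m : ℤ) ^ 2 := by
      rcases Nat.eq_zero_or_pos m with h0 | h0
      · rw [h0]; norm_num
      · exact le_self_pow₀ (by exact_mod_cast h0) (by norm_num)
    have h5 : (m : ℤ) ^ 2 ≤ N := by exact_mod_cast hm2
    have h0 : (0 : ℤ) ≤ m := Int.natCast_nonneg _
    have h6 := (le_abs_self _).trans (qf_abs (a := a) (b := b) (le_refl m))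
    refine h6.trans ?_
    push_cast
    have h7 := abs_nonneg a
    have h8 := abs_nonneg b
    calc |a| * (m : ℤ) ^ 2 + |b| * (m : ℤ) ≤ |a| * N + |b| * N := by
          have : (m : ℤ) ≤ N := h4.trans h5
          gcongr
      _ = _ := by ring
  have h4 : (qf a b m : ℝ) ≤ (((pJ a b g N * pG g N : ℕ) : ℤ) : ℝ) := by
    exact_mod_cast h3.trans (by exact_mod_cast h1)
  push_cast at h4
  exact h4

/-- the constant terms with square discriminant -/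
def sqs (a b : ℤ) (N : ℕ) : Finset ℤ :=
  (range (Nat.sqrt ((b.natAbs ^ 2 + 4 * a.natAbs) * N) + 1)).image (fun r : ℕ => (b ^ 2 - (r : ℤ) ^ 2) / (4 * a))

lemma mem_sqs {a b : ℤ} (ha : 1 ≤ a) {N : ℕ} (hN : 1 ≤ N) {c : ℤ} (hc' : -(N : ℤ) ≤ c)
    (h : IsSquare (b ^ 2 - 4 * a * c)) : c ∈ sqs a b N := by
  obtain ⟨r, hr⟩ := h
  unfold sqs
  rw [mem_image]
  refine ⟨r.natAbs, ?_, ?_⟩
  · rw [mem_range, Nat.lt_succ_iff, Nat.le_sqrt']
    have h1 : ((r.natAbs ^ 2 : ℕ) : ℤ) ≤ (((b.natAbs ^ 2 + 4 * a.natAbs) * N : ℕ) : ℤ) := by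
      push_cast
      rw [sq_abs, sq_abs, abs_of_pos (by omega : 0 < a)]
      have h2 : r ^ 2 = b ^ 2 - 4 * a * c := by rw [hr]; ring
      rw [h2]
      have h3 : (1 : ℤ) ≤ N := by exact_mod_cast hN
      have h4 : b ^ 2 * 1 ≤ b ^ 2 * N := mul_le_mul_of_nonneg_left h3 (sq_nonneg b)
      have h5 : 4 * a * -c ≤ 4 * a * N := mul_le_mul_of_nonneg_left (by omega) (by omega)
      linarith
    exact_mod_cast h1
  · have h1 : b ^ 2 - ((r.natAbs : ℕ) : ℤ) ^ 2 = 4 * a * c := by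
      rw [Int.natCast_natAbs, sq_abs]
      have h2 : r ^ 2 = b ^ 2 - 4 * a * c := by rw [hr]; ring
      rw [h2]
      ring
    rw [h1]
    exact Int.mul_ediv_cancel_left c (by omega)

lemma sqs_card (a b : ℤ) (N : ℕ) : (#(sqs a b N) : ℝ) ≤ (b.natAbs ^ 2 + 4 * a.natAbs : ℕ) * Real.sqrt N + 1 := by
  unfold sqs
  have h1 : #((range (Nat.sqrt ((b.natAbs ^ 2 + 4 * a.natAbs) * N) + 1)).image (fun r : ℕ => (b ^ 2 - (r : ℤ) ^ 2) / (4 * a))) ≤
      Nat.sqrt ((b.natAbs ^ 2 + 4 * a.natAbs) * N) + 1 := card_image_le.trans (by rw [card_range])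
  obtain ⟨K, hK⟩ : ∃ K : ℕ, K = b.natAbs ^ 2 + 4 * a.natAbs := ⟨_, rfl⟩
  rw [← hK] at h1 ⊢
  have g3 : (Nat.sqrt (K * N) : ℝ) ≤ K * Real.sqrt N := by
    have g4 : (Nat.sqrt (K * N) : ℝ) ≤ Real.sqrt ((K * N : ℕ) : ℝ) := Real.nat_sqrt_le_real_sqrt
    refine g4.trans ?_
    push_cast
    rw [Real.sqrt_mul (Nat.cast_nonneg _)]
    apply mul_le_mul_of_nonneg_right _ (Real.sqrt_nonneg _)
    rw [Real.sqrt_le_left (Nat.cast_nonneg _)]
    have : (K : ℝ) ≤ (K : ℝ) ^ 2 := by exact_mod_cast Nat.le_self_pow (by norm_num) K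
    exact this
  have h2 : ((#((range (Nat.sqrt (K * N) + 1)).image (fun r : ℕ => (b ^ 2 - (r : ℤ) ^ 2) / (4 * a))) : ℕ) : ℝ) ≤
      ((Nat.sqrt (K * N) + 1 : ℕ) : ℝ) := by exact_mod_cast h1
  push_cast at h2
  linarith

/-- the exponent of the bad moduli -/
def eA (C T : ℕ) : ℕ := 2 * (2 * C + 18 + 3) + T + 6

theorem main (l : Lv) (a b : ℤ) (ha : 1 ≤ a) (C T : ℕ) {ε : ℝ} (hε : 0 < ε) : ∀ᶠ N : ℕ in atTop,
    ∃ Ex : Finset ℤ, Ex ⊆ Icc (-(N : ℤ)) N ∧ (#Ex : ℝ) ≤ (N : ℝ) ^ (1 - (l.r : ℝ) / l.k + ε) ∧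
      ∀ c ∈ Icc (-(N : ℤ)) N, c ∉ Ex →
        (#((Icc 1 (pQ l N)).filter (fun g : ℕ => (g : ℤ) ∣ b ^ 2 - 4 * a * c)) : ℝ) ≤ Real.log N ^ T →
        (∀ g ∈ bad l (eA C T) N, ¬ (g : ℤ) ∣ b ^ 2 - 4 * a * c) → GoodS a b C N c := by
  classical
  obtain ⟨g, hg⟩ : ∃ g, g = 2 * C + 18 := ⟨_, rfl⟩
  obtain ⟨B, hst⟩ := stat a b (by omega) (g + 10)
  obtain ⟨B1, hB1⟩ : ∃ B1, B1 = max B (g + 10) := ⟨_, rfl⟩
  obtain ⟨E, hE⟩ : ∃ E, E = B1 + 1 := ⟨_, rfl⟩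
  have hk0 : 0 < l.k := by have := l.k10; omega
  have hs0' : (0 : ℝ) < 1 / ((2 * l.k : ℕ) : ℝ) := by positivity
  have hgi := goodS_final a b ha C E
  have hfx := fixed l (b := b) ha g T
  have hSg := Sg_main a b (by omega) (g + 5) E (1 / ((2 * l.k : ℕ) : ℝ)) hs0'
  have q1 := l.r1
  have q2 := l.k10
  filter_upwards [PP_ev l a b ha (g + 3), TA_card l (b := b) ha (g + 3) hε, hst E, hgi, hfx, hSg, eventually_ge_atTop (1 + 4 * kk a b ^ 3),
    Pool.Agent.Y614.GJ.Core.ev_log 1 hs0' (10 : ℝ),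
    (tendsto_rpow_atTop (show (0 : ℝ) < 3 / 20 by norm_num)).comp (tendsto_natCast_atTop_atTop (R := ℝ)) |>.eventually_ge_atTop
      (4 * ((b.natAbs ^ 2 + 4 * a.natAbs : ℕ) + 2) : ℝ)]
    with N h hTA hst' hgi' hfx' hSg' hNk hL hN5
  obtain ⟨hL10, hLx⟩ := hL
  rw [pow_one] at hLx
  simp only [Function.comp] at hN5
  have hN1 : 1 ≤ N := h.N1
  have hN0 : (0 : ℝ) < N := by exact_mod_cast hN1
  have hN1r : (1 : ℝ) ≤ N := by exact_mod_cast hN1
  have hL1 := h.L1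
  have hL0 : 0 < Real.log N := by linarith
  have hG0 : (0 : ℝ) < pG (g + 3) N := by exact_mod_cast h.G0
  obtain ⟨z, hz⟩ : ∃ z, z = ⌈Real.log N ^ B1⌉₊ := ⟨_, rfl⟩
  have hz1 : Real.log N ^ B1 ≤ z := by
    rw [hz]
    exact Nat.le_ceil _
  have hz2 : (z : ℝ) ≤ Real.log N ^ E := by
    have h1 : (z : ℝ) ≤ Real.log N ^ B1 + 1 := by
      rw [hz]
      exact (Nat.ceil_lt_add_one (by positivity)).le
    have h2 : 1 ≤ Real.log N ^ B1 := one_le_pow₀ hL1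
    calc (z : ℝ) ≤ 2 * Real.log N ^ B1 := by linarith
      _ ≤ Real.log N * Real.log N ^ B1 := by
          have : 2 ≤ Real.log N := by linarith
          gcongr
      _ = Real.log N ^ E := by rw [hE]; ring
  have hzB : Real.log N ^ B ≤ z := (pow_le_pow_right₀ hL1 (by rw [hB1]; exact le_max_left _ _)).trans hz1
  have hzg : Real.log N ^ (g + 10) ≤ z := (pow_le_pow_right₀ hL1 (by rw [hB1]; exact le_max_right _ _)).trans hz1
  have hzC : Real.log N ^ (C + 4) ≤ z := (pow_le_pow_right₀ hL1 (by omega)).trans hzg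
  obtain ⟨Es, hEs, hgood⟩ := hst' z hzB hz2
  have hQ8 : (pQ l N : ℝ) ≤ (N : ℝ) ^ (1 / 8 : ℝ) :=
    (pQ_root l hN1).trans (Real.rpow_le_rpow_of_exponent_le hN1r ((rk_le l).trans (by norm_num)))
  refine ⟨(TA l a b (g + 3) N ∪ Es ∪ sqs a b N).filter (fun c => c ∈ Icc (-(N : ℤ)) N), ?_, ?_, ?_⟩
  · intro c hc
    exact (mem_filter.1 hc).2
  · -- the number of exceptions
    have h1 : #((TA l a b (g + 3) N ∪ Es ∪ sqs a b N).filter (fun c => c ∈ Icc (-(N : ℤ)) N)) ≤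
        #(TA l a b (g + 3) N) + #Es + #(sqs a b N) :=
      (card_filter_le _ _).trans ((card_union_le _ _).trans (Nat.add_le_add_right (card_union_le _ _) _))
    have h3 : (#((TA l a b (g + 3) N ∪ Es ∪ sqs a b N).filter (fun c => c ∈ Icc (-(N : ℤ)) N)) : ℝ) ≤
        #(TA l a b (g + 3) N) + #Es + #(sqs a b N) := by exact_mod_cast h1
    refine h3.trans ?_
    have h4 := sqs_card a b N
    obtain ⟨K, hK⟩ : ∃ K : ℝ, K = ((b.natAbs ^ 2 + 4 * a.natAbs : ℕ) : ℝ) := ⟨_, rfl⟩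
    rw [← hK] at h4 hN5
    have hK0 : 0 ≤ K := by rw [hK]; positivity
    obtain ⟨y, hy⟩ : ∃ y : ℝ, y = (N : ℝ) ^ (3 / 20 : ℝ) := ⟨_, rfl⟩
    rw [← hy] at hN5
    have hsq : Real.sqrt N ≤ (N : ℝ) ^ (3 / 4 : ℝ) := by
      rw [Real.sqrt_eq_rpow]
      exact Real.rpow_le_rpow_of_exponent_le hN1r (by norm_num)
    have h34 : 1 ≤ (N : ℝ) ^ (3 / 4 : ℝ) := Real.one_le_rpow hN1r (by norm_num)
    obtain ⟨Z, hZ⟩ : ∃ Z : ℝ, Z = (N : ℝ) ^ (1 - (l.r : ℝ) / l.k + ε) := ⟨_, rfl⟩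
    rw [← hZ] at hTA ⊢
    have h39 : (N : ℝ) ^ (3 / 4 : ℝ) * y ≤ Z := by
      rw [hy, hZ, ← Real.rpow_add hN0]
      apply Real.rpow_le_rpow_of_exponent_le hN1r
      have := rk_le l
      linarith
    have e1 : K * Real.sqrt N ≤ K * (N : ℝ) ^ (3 / 4 : ℝ) := mul_le_mul_of_nonneg_left hsq hK0
    have e2 : 4 * (K + 2) * (N : ℝ) ^ (3 / 4 : ℝ) ≤ Z := by
      have : 4 * (K + 2) * (N : ℝ) ^ (3 / 4 : ℝ) ≤ y * (N : ℝ) ^ (3 / 4 : ℝ) := mul_le_mul_of_nonneg_right hN5 (by linarith)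
      linarith
    have e3 : 0 ≤ K * (N : ℝ) ^ (3 / 4 : ℝ) := by positivity
    have hZ0 : 0 ≤ Z := by rw [hZ]; positivity
    linarith
  · intro c hc hcE hdiv hbad
    rw [mem_Icc] at hc
    have h1 : c ∉ TA l a b (g + 3) N ∧ c ∉ Es ∧ c ∉ sqs a b N := by
      rw [mem_filter, mem_union, mem_union, mem_Icc] at hcE
      refine ⟨fun h2 => hcE ⟨Or.inl (Or.inl h2), hc⟩, fun h2 => hcE ⟨Or.inl (Or.inr h2), hc⟩,
        fun h2 => hcE ⟨Or.inr h2, hc⟩⟩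
    obtain ⟨hT, hE', hsqs⟩ := h1
    have hsq : ¬ IsSquare (b ^ 2 - 4 * a * c) := fun h2 => hsqs (mem_sqs ha hN1 hc.1 h2)
    have hD0 : b ^ 2 - 4 * a * c ≠ 0 := by
      intro h2
      apply hsq
      rw [h2]
      exact ⟨0, by ring⟩
    have hg2 := hgood c (by rw [mem_Icc]; exact hc) hE' hD0
    have hSJ : ∀ w : ℕ, z ≤ w → w ≤ pQ l N → |SJ (b ^ 2 - 4 * a * c) z w| ≤ 1 / Real.log N ^ (g + 5 + 5) := by
      intro w hw1 hw2
      exact hg2.1 w hw1 (le_trans (by exact_mod_cast hw2) hQ8)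
    have hxQ : (N : ℝ) ^ (1 / ((2 * l.k : ℕ) : ℝ)) ≤ pQ l N := by
      have h2 := h.Qx2
      have h5 : (N : ℝ) ^ (1 / ((2 * l.k : ℕ) : ℝ)) = xx l N := rfl
      rw [h5]
      have h3 : (2 : ℝ) ≤ xx l N := by
        rw [h5] at hLx
        linarith
      have h4 : xx l N ^ 2 ≤ xx l N ^ (2 * l.r) := pow_le_pow_right₀ h.x1 (by omega)
      have h6 : 2 * xx l N ≤ xx l N ^ 2 := by nlinarith
      linarith
    have hS := hSg' z (pQ l N) (by rw [show g + 5 + 5 = g + 10 by ring]; exact hzg) hz2 hxQ h.QN c hSJ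
    have hwD := wD_bound l (eA C T) N (D := b ^ 2 - 4 * a * c) hdiv hbad
    have heA : eA C T = 2 * (g + 3) + T + 6 := by unfold eA; rw [hg]
    rw [heA] at hwD
    have hfx2 := hfx' c hc.2 hc.1 hwD (Sz (-a) (-b) c z) hS
    have hjT : ∀ j ≤ pJ a b (g + 3) N, ‖TSj l a b (g + 3) N j c‖ ≤ N / Real.log N ^ (g + 4) := by
      intro j hj
      by_contra hcon
      push Not at hcon
      apply hT
      unfold TA
      rw [mem_biUnion]
      refine ⟨j, by rw [mem_range]; omega, ?_⟩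
      unfold TE
      rw [mem_filter, mem_Icc]
      exact ⟨hc, hcon⟩
    have hLC : ∀ᶠ M in atTop, |SJ (b ^ 2 - 4 * a * c) z M| ≤ 1 / Real.log N ^ (C + 4) := by
      filter_upwards [hg2.2 hsq] with M hM
      refine hM.trans ?_
      apply one_div_le_one_div_of_le (by positivity)
      exact pow_le_pow_right₀ hL1 (by omega)
    have hGx : (pG (g + 3) N : ℝ) ≤ N / Real.log N ^ (2 * C + 18) := by
      refine h.Gx.trans ?_
      apply div_le_div_of_nonneg_left hN0.le (by positivity)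
      exact pow_le_pow_right₀ hL1 (by omega)
    exact hgi' z hzC hz2 c (pG (g + 3) N) (pM a b N) (pJ a b (g + 3) N) hG0 hGx
      (by
        have h2 : Nat.sqrt N + 1 ≤ pM a b N := by
          unfold pM
          calc Nat.sqrt N + 1 = 1 * (Nat.sqrt N + 1) := by ring
            _ ≤ _ := Nat.mul_le_mul_right _ (by unfold kk; omega)
        omega)
      (fun m _ hm2 => J_G h hm2) (fun m hm => fv_log h hNk hc.2 hm)
      (fun j hj => by rw [← hg]; exact hfx2 j hj (hjT j hj)) hsq hLC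

end Pool.Agent.K7.H51.PT
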