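import Mathlib
import Pool.Agent.K7.H51.PT.As4

set_option autoImplicit false

/-! The conclusion, with real exponents. -/

namespace Pool.Agent.K7.H51.PT

open Finset Filter Topology

lemma level {θ ε : ℝ} (hθ : 0 < θ) (hθ' : θ < 1 / 10) (hε : 0 < ε) :
    ∃ l : Lv, (l.r : ℝ) / l.k ≤ θ ∧ θ - ε ≤ (l.r : ℝ) / l.k := by
  obtain ⟨k, hk⟩ := exists_nat_ge (1 / θ + 1 / ε + 4 / (1 - 10 * θ))
  have h10 : 0 < 1 - 10 * θ := by linarith
  have p1 : 0 < 1 / θ := by positivity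
  have p2 : 0 < 1 / ε := by positivity
  have p3 : 0 < 4 / (1 - 10 * θ) := by positivity
  have k1 : 1 / θ ≤ k := by linarith
  have k2 : 1 / ε ≤ k := by linarith
  have k3 : 4 / (1 - 10 * θ) ≤ k := by linarith
  have hk0 : (0 : ℝ) < k := lt_of_lt_of_le p1 k1
  rw [div_le_iff₀ hθ] at k1
  rw [div_le_iff₀ hε] at k2
  rw [div_le_iff₀ h10] at k3
  obtain ⟨r, hr⟩ : ∃ r, r = ⌊θ * k⌋₊ := ⟨_, rfl⟩
  have r1 : 1 ≤ r := by
    rw [hr]
    apply Nat.le_floor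
    push_cast
    linarith
  have r2 : (r : ℝ) ≤ θ * k := by
    rw [hr]
    exact Nat.floor_le (by positivity)
  have r3 : θ * k < r + 1 := by
    rw [hr]
    exact Nat.lt_floor_add_one _
  have r4 : 10 * r + 4 ≤ k := by
    have : (10 : ℝ) * r + 4 ≤ k := by nlinarith
    exact_mod_cast this
  refine ⟨⟨k, r, k - r, 2 * k - 4 * r - 2, 2 * k - 4 * r - 2 + r, r1, r4, by omega, by omega, rfl⟩, ?_, ?_⟩
  · simp only
    rw [div_le_iff₀ hk0]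
    exact r2
  · simp only
    rw [le_div_iff₀ hk0]
    nlinarith

/-- the numbers `g ≤ X ^ θ` which divide `D` -/
noncomputable def sd (D : ℤ) (θ : ℝ) (X : ℕ) : Finset ℕ := (Icc 1 ⌊(X : ℝ) ^ θ⌋₊).filter (fun g : ℕ => (g : ℤ) ∣ D)

theorem main_real {θ ε : ℝ} (hθ : 0 < θ) (hθ' : θ < 1 / 10) (hε : 0 < ε) (C T U : ℕ) :
    ∃ 𝓖 : ℕ → Finset ℕ,
      (∀ᶠ X : ℕ in atTop, (∀ g ∈ 𝓖 X, 1 ≤ g ∧ (g : ℝ) ≤ (X : ℝ) ^ θ) ∧ ∑ g ∈ 𝓖 X, 1 / (g : ℝ) ≤ 1 / Real.log X ^ U) ∧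
      ∀ a b : ℤ, 0 < a → ∀ᶠ X : ℕ in atTop, ∃ Ex : Finset ℤ, Ex ⊆ Icc (-(X : ℤ)) X ∧ (#Ex : ℝ) ≤ (X : ℝ) ^ (1 - θ + ε) ∧
        ∀ c ∈ Icc (-(X : ℤ)) X, c ∉ Ex → (#(sd (b ^ 2 - 4 * a * c) θ X) : ℝ) ≤ Real.log X ^ T →
          (∀ g ∈ 𝓖 X, ¬ (g : ℤ) ∣ b ^ 2 - 4 * a * c) → GoodS a b C X c := by
  obtain ⟨l, hl1, hl2⟩ := level hθ hθ' (show 0 < ε / 2 by positivity)
  refine ⟨bad l (eA C T), ?_, ?_⟩
  · filter_upwards [bad_sum l (eA C T) U, eventually_ge_atTop 1] with X h1 h2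
    refine ⟨fun g hg => ?_, h1⟩
    obtain ⟨h3, h4⟩ := bad_sub l (eA C T) X h2 g hg
    refine ⟨h3, h4.trans ?_⟩
    exact Real.rpow_le_rpow_of_exponent_le (by exact_mod_cast h2) hl1
  · intro a b ha
    filter_upwards [main l a b (by omega) C T (show 0 < ε / 2 by positivity), eventually_ge_atTop 1] with X h1 h2
    obtain ⟨Ex, e1, e2, e3⟩ := h1
    have hX1 : (1 : ℝ) ≤ X := by exact_mod_cast h2
    refine ⟨Ex, e1, e2.trans ?_, fun c hc hcE hd hg => e3 c hc hcE ?_ hg⟩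
    · apply Real.rpow_le_rpow_of_exponent_le hX1
      linarith
    · refine le_trans ?_ hd
      have h3 : (Icc 1 (pQ l X)).filter (fun g : ℕ => (g : ℤ) ∣ b ^ 2 - 4 * a * c) ⊆ sd (b ^ 2 - 4 * a * c) θ X := by
        unfold sd
        apply filter_subset_filter
        apply Icc_subset_Icc_right
        apply Nat.le_floor
        exact (pQ_root l h2).trans (Real.rpow_le_rpow_of_exponent_le hX1 hl1)
      exact_mod_cast card_le_card h3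

end Pool.Agent.K7.H51.PT
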